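import Mathlib
import Pool.Agent.H24P.Rec
import Pool.Agent.H93PMU.Basic

/-!
Relations computably enumerable in some member of a Turing ideal.
-/

set_option autoImplicit false

namespace Pool.Agent.H24Q

open Encodable Pool.Agent.H19 Pool.Agent.H24P Pool.Agent.H93PMU

variable {α β γ : Type*} [Primcodable α] [Primcodable β] [Primcodable γ]

/-- The join of two sets of natural numbers. -/
def joinSet (A B : Set ℕ) : Set ℕ :=
  {n | (n % 2 = 0 ∧ n / 2 ∈ A) ∨ (n % 2 = 1 ∧ n / 2 ∈ B)}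

theorem joinSet_eq (A B : Set ℕ) :
    joinSet A B = {n | (∃ m ∈ A, n = 2 * m) ∨ ∃ m ∈ B, n = 2 * m + 1} := by
  ext n
  simp only [joinSet, Set.mem_ofPred_eq]
  constructor
  · rintro (⟨h1, h2⟩ | ⟨h1, h2⟩)
    · exact Or.inl ⟨n / 2, h2, by omega⟩
    · exact Or.inr ⟨n / 2, h2, by omega⟩
  · rintro (⟨m, h1, rfl⟩ | ⟨m, h1, rfl⟩)
    · refine Or.inl ⟨by omega, ?_⟩
      rw [show 2 * m / 2 = m by omega]; exact h1
    · refine Or.inr ⟨by omega, ?_⟩
      rw [show (2 * m + 1) / 2 = m by omega]; exact h1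

theorem ideal_join {I : Set (Set ℕ)} (hI : TuringIdeal I) {A B : Set ℕ} (hA : A ∈ I)
    (hB : B ∈ I) : joinSet A B ∈ I := by
  rw [joinSet_eq]; exact hI.join A hA B hB

/-- The characteristic function as a Boolean sequence. -/
noncomputable def bo (A : Set ℕ) : ℕ → Bool := fun n => by classical exact decide (n ∈ A)

theorem bo_true {A : Set ℕ} {n : ℕ} : bo A n = true ↔ n ∈ A := by simp [bo]

theorem bo_false {A : Set ℕ} {n : ℕ} : bo A n = false ↔ n ∉ A := by simp [bo]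

theorem chr_eq (A : Set ℕ) : chr A = chi (bo A) := by
  funext n
  by_cases h : n ∈ A <;> simp [chr, chi, bo, h]

theorem red_iff {A B : Set ℕ} : TuringReducible (chr B) (chr A) ↔ Ar (bo A) (bo B) := by
  rw [chr_eq, chr_eq, ar_iff]

theorem Sg.mem (A : Set ℕ) : Sg (bo A) (fun n => n ∈ A) :=
  (Sg.oracle (bo A) true).congr fun _ => bo_true

theorem Sg.not_mem (A : Set ℕ) : Sg (bo A) (fun n => n ∉ A) :=
  (Sg.oracle (bo A) false).congr fun _ => bo_false

theorem ar_bo_iff {Z : ℕ → Bool} {B : Set ℕ} :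
    Ar Z (bo B) ↔ Sg Z (fun n => n ∈ B) ∧ Sg Z (fun n => n ∉ B) := by
  constructor
  · intro h
    exact ⟨h.1.congr fun _ => bo_true, h.2.congr fun _ => bo_false⟩
  · intro h
    exact ⟨h.1.congr fun _ => bo_true.symm, h.2.congr fun _ => bo_false.symm⟩

theorem ar_join_left (A B : Set ℕ) : Ar (bo (joinSet A B)) (bo A) := by
  rw [ar_bo_iff]
  have hc : Computable (fun n : ℕ => 2 * n) :=
    (Primrec.nat_mul.comp (Primrec.const 2) Primrec.id).to_comp
  refine ⟨((Sg.mem (joinSet A B)).comp hc).congr fun n => ?_,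
    ((Sg.not_mem (joinSet A B)).comp hc).congr fun n => ?_⟩
  · simp [joinSet]
  · simp [joinSet]

theorem ar_join_right (A B : Set ℕ) : Ar (bo (joinSet A B)) (bo B) := by
  rw [ar_bo_iff]
  have hc : Computable (fun n : ℕ => 2 * n + 1) :=
    Computable.succ.comp (Primrec.nat_mul.comp (Primrec.const 2) Primrec.id).to_comp
  have e1 : ∀ n, (2 * n + 1) % 2 = 1 := fun n => by omega
  have e2 : ∀ n, (2 * n + 1) / 2 = n := fun n => by omega
  refine ⟨((Sg.mem (joinSet A B)).comp hc).congr fun n => ?_,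
    ((Sg.not_mem (joinSet A B)).comp hc).congr fun n => ?_⟩
  · simp [joinSet, e1, e2]
  · simp [joinSet, e1, e2]

theorem ar_join {Z : ℕ → Bool} {A B : Set ℕ} (hA : Ar Z (bo A)) (hB : Ar Z (bo B)) :
    Ar Z (bo (joinSet A B)) := by
  rw [ar_bo_iff] at hA hB ⊢
  have hd : Computable (fun n : ℕ => n / 2) :=
    (Primrec.nat_div.comp Primrec.id (Primrec.const 2)).to_comp
  have hm : Computable (fun n : ℕ => n % 2) :=
    (Primrec.nat_mod.comp Primrec.id (Primrec.const 2)).to_comp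
  constructor
  · exact (Sg.or (Sg.and (Sg.eq_comp hm (Computable.const 0)) (hA.1.comp hd))
      (Sg.and (Sg.eq_comp hm (Computable.const 1)) (hB.1.comp hd))).congr fun n => Iff.rfl
  · refine (Sg.or (Sg.and (Sg.eq_comp hm (Computable.const 0)) (hA.2.comp hd))
      (Sg.and (Sg.eq_comp hm (Computable.const 1)) (hB.2.comp hd))).congr fun n => ?_
    have := Nat.mod_two_eq_zero_or_one n
    simp only [joinSet, Set.mem_ofPred_eq]
    rcases this with h | h <;> simp [h]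

/-- `P` is computably enumerable in some member of `I`. -/
def SgI (I : Set (Set ℕ)) (P : α → Prop) : Prop := ∃ A ∈ I, Sg (bo A) P

/-- `f` is computable in some member of `I`. -/
def CpI (I : Set (Set ℕ)) (f : α → β) : Prop := SgI I (fun p : α × β => f p.1 = p.2)

section

variable {I : Set (Set ℕ)}

theorem SgI.congr {P Q : α → Prop} (h : SgI I P) (e : ∀ a, P a ↔ Q a) : SgI I Q := by
  have : P = Q := funext fun a => propext (e a)
  rwa [← this]

theorem SgI.of_mem {A : Set ℕ} (hA : A ∈ I) {P : α → Prop} (h : Sg (bo A) P) : SgI I P :=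
  ⟨A, hA, h⟩

theorem SgI.mem {A : Set ℕ} (hA : A ∈ I) : SgI I (fun n => n ∈ A) := ⟨A, hA, Sg.mem A⟩

theorem SgI.not_mem {A : Set ℕ} (hA : A ∈ I) : SgI I (fun n => n ∉ A) := ⟨A, hA, Sg.not_mem A⟩

variable (hI : TuringIdeal I)

include hI

theorem SgI.of_all {P : α → Prop} (h : ∀ Z, Sg Z P) : SgI I P := by
  obtain ⟨A, hA⟩ := hI.nonempty
  exact ⟨A, hA, h _⟩

theorem SgI.of_comp {p : α → Bool} (hp : Computable p) : SgI I (fun a => p a = true) :=
  SgI.of_all hI fun _ => Sg.of_comp hp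

theorem SgI.const (p : Prop) : SgI I (fun _ : α => p) := SgI.of_all hI fun Z => Sg.const Z p

omit hI in
theorem SgI.comp {P : β → Prop} (h : SgI I P) {f : α → β} (hf : Computable f) :
    SgI I (fun a => P (f a)) := by
  obtain ⟨A, hA, h⟩ := h
  exact ⟨A, hA, h.comp hf⟩

theorem SgI.and {P Q : α → Prop} (hP : SgI I P) (hQ : SgI I Q) : SgI I (fun a => P a ∧ Q a) := by
  obtain ⟨A, hA, hP⟩ := hP
  obtain ⟨B, hB, hQ⟩ := hQ
  exact ⟨joinSet A B, ideal_join hI hA hB, (hP.trans (ar_join_left A B)).and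
    (hQ.trans (ar_join_right A B))⟩

theorem SgI.or {P Q : α → Prop} (hP : SgI I P) (hQ : SgI I Q) : SgI I (fun a => P a ∨ Q a) := by
  obtain ⟨A, hA, hP⟩ := hP
  obtain ⟨B, hB, hQ⟩ := hQ
  exact ⟨joinSet A B, ideal_join hI hA hB, (hP.trans (ar_join_left A B)).or
    (hQ.trans (ar_join_right A B))⟩

omit hI in
theorem SgI.ex {Q : α → β → Prop} (h : SgI I (fun p : α × β => Q p.1 p.2)) :
    SgI I (fun a => ∃ b, Q a b) := by
  obtain ⟨A, hA, h⟩ := h
  exact ⟨A, hA, h.ex⟩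

omit hI in
theorem SgI.ball {Q : α → β → Prop} (h : SgI I (fun p : α × β => Q p.1 p.2))
    {l : α → List β} (hl : Computable l) : SgI I (fun a => ∀ b ∈ l a, Q a b) := by
  obtain ⟨A, hA, h⟩ := h
  exact ⟨A, hA, h.ball hl⟩

omit hI in
theorem SgI.bex {Q : α → β → Prop} (h : SgI I (fun p : α × β => Q p.1 p.2))
    {l : α → List β} (hl : Computable l) : SgI I (fun a => ∃ b ∈ l a, Q a b) := by
  obtain ⟨A, hA, h⟩ := h
  exact ⟨A, hA, h.bex hl⟩

omit hI in
theorem SgI.ball_lt {Q : α → ℕ → Prop} (h : SgI I (fun p : α × ℕ => Q p.1 p.2))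
    {l : α → ℕ} (hl : Computable l) : SgI I (fun a => ∀ i < l a, Q a i) := by
  obtain ⟨A, hA, h⟩ := h
  exact ⟨A, hA, h.ball_lt hl⟩

omit hI in
theorem SgI.bex_lt {Q : α → ℕ → Prop} (h : SgI I (fun p : α × ℕ => Q p.1 p.2))
    {l : α → ℕ} (hl : Computable l) : SgI I (fun a => ∃ i < l a, Q a i) := by
  obtain ⟨A, hA, h⟩ := h
  exact ⟨A, hA, h.bex_lt hl⟩

theorem SgI.eq_comp [DecidableEq β] {f g : α → β} (hf : Computable f)
    (hg : Computable g) : SgI I (fun a => f a = g a) := SgI.of_all hI fun _ => Sg.eq_comp hf hg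

theorem SgI.ne_comp [DecidableEq β] {f g : α → β} (hf : Computable f)
    (hg : Computable g) : SgI I (fun a => f a ≠ g a) := SgI.of_all hI fun _ => Sg.ne_comp hf hg

theorem SgI.lt_comp {f g : α → ℕ} (hf : Computable f)
    (hg : Computable g) : SgI I (fun a => f a < g a) := SgI.of_all hI fun _ => Sg.lt_comp hf hg

theorem SgI.le_comp {f g : α → ℕ} (hf : Computable f)
    (hg : Computable g) : SgI I (fun a => f a ≤ g a) := SgI.of_all hI fun _ => Sg.le_comp hf hg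

theorem CpI.of_computable {f : α → β} (hf : Computable f) : CpI I f :=
  SgI.of_all hI fun _ => Cp.of_computable hf

theorem SgI.subst {P : β → Prop} (hP : SgI I P) {f : α → β} (hf : CpI I f) :
    SgI I (fun a => P (f a)) := by
  have h : SgI I (fun a => ∃ b, f a = b ∧ P b) :=
    SgI.ex (Q := fun a b => f a = b ∧ P b) (SgI.and hI hf (hP.comp Computable.snd))
  exact h.congr fun a => ⟨fun ⟨b, h1, h2⟩ => h1 ▸ h2, fun h => ⟨_, rfl, h⟩⟩

theorem CpI.comp {f : β → γ} (hf : CpI I f) {g : α → β} (hg : CpI I g) :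
    CpI I (fun a => f (g a)) := by
  obtain ⟨A, hA, hf⟩ := hf
  obtain ⟨B, hB, hg⟩ := hg
  exact ⟨joinSet A B, ideal_join hI hA hB, Cp.comp (hf.trans (ar_join_left A B))
    (hg.trans (ar_join_right A B))⟩

theorem CpI.pair {f : α → β} (hf : CpI I f) {g : α → γ} (hg : CpI I g) :
    CpI I (fun a => (f a, g a)) := by
  obtain ⟨A, hA, hf⟩ := hf
  obtain ⟨B, hB, hg⟩ := hg
  exact ⟨joinSet A B, ideal_join hI hA hB, Cp.pair (hf.trans (ar_join_left A B))
    (hg.trans (ar_join_right A B))⟩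

omit hI in
theorem SgI.der [DecidableEq β] {J : List β → β → Prop}
    (hJ : SgI I (fun p : List β × β => J p.1 p.2)) : SgI I (Der J) := by
  obtain ⟨A, hA, h⟩ := hJ
  exact ⟨A, hA, h.der⟩

omit hI in
theorem SgI.exists_cp {R : α → β → Prop}
    (hR : SgI I (fun p : α × β => R p.1 p.2)) (hex : ∀ a, ∃ b, R a b) :
    ∃ f : α → β, CpI I f ∧ ∀ a, R a (f a) := by
  obtain ⟨A, hA, h⟩ := hR
  obtain ⟨f, h1, h2⟩ := h.exists_cp hex
  exact ⟨f, ⟨A, hA, h1⟩, h2⟩

omit hI in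
theorem SgI.exists_seq [DecidableEq α] {R : α → α → Prop}
    (hR : SgI I (fun p : α × α => R p.1 p.2)) (Good : α → Prop) (x0 : α) (h0 : Good x0)
    (hex : ∀ x, Good x → ∃ y, R x y) (hgood : ∀ x y, Good x → R x y → Good y) :
    ∃ g : ℕ → α, CpI I g ∧ g 0 = x0 ∧ (∀ n, R (g n) (g (n + 1))) ∧ ∀ n, Good (g n) := by
  obtain ⟨A, hA, h⟩ := hR
  obtain ⟨g, h1, h2⟩ := h.exists_seq Good x0 h0 hex hgood
  exact ⟨g, ⟨A, hA, h1⟩, h2⟩

theorem mem_of_sgI {B : Set ℕ} (h1 : SgI I (fun n => n ∈ B)) (h2 : SgI I (fun n => n ∉ B)) :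
    B ∈ I := by
  obtain ⟨A, hA, h1⟩ := h1
  obtain ⟨A', hA', h2⟩ := h2
  refine hI.down _ (ideal_join hI hA hA') B (red_iff.2 (ar_bo_iff.2 ⟨?_, ?_⟩))
  · exact h1.trans (ar_join_left A A')
  · exact h2.trans (ar_join_right A A')

end

end Pool.Agent.H24Q
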