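import Mathlib
import Pool.Agent.H24Q.Idl

/-!
Renaming of variables and projections of formulas; the relation `Frc`.
-/

set_option autoImplicit false

namespace Pool.Agent.H24Q

open Encodable Pool.Agent.H93PMU

/-- Every renaming of the variables of a formula is expressed by a formula. -/
theorem exists_subst (φ : Fml) : ∀ u : ℕ → ℕ, ∃ ψ : Fml, (∀ j ∈ ψ.fv, ∃ i ∈ φ.fv, j = u i) ∧
    ∀ (A : Str) (w : ℕ → ℕ), Sat A ψ w ↔ Sat A φ (fun i => w (u i)) := by
  induction φ with
  | eq i j =>
    intro u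
    refine ⟨.eq (u i) (u j), fun k hk => ?_, fun A w => Iff.rfl⟩
    simp only [Fml.fv, Finset.mem_insert, Finset.mem_singleton] at hk ⊢
    rcases hk with hk | hk
    · exact ⟨i, Or.inl rfl, hk⟩
    · exact ⟨j, Or.inr rfl, hk⟩
  | rel r vs =>
    intro u
    refine ⟨.rel r (vs.map u), fun k hk => ?_, fun A w => ?_⟩
    · simp only [Fml.fv, List.mem_toFinset, List.mem_map] at hk ⊢
      obtain ⟨i, hi, hk⟩ := hk
      exact ⟨i, hi, hk.symm⟩
    · simp only [sat_rel, List.map_map]
      rfl
  | neg φ ih =>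
    intro u
    obtain ⟨ψ, h1, h2⟩ := ih u
    exact ⟨.neg ψ, h1, fun A w => not_congr (h2 A w)⟩
  | and φ φ' ih ih' =>
    intro u
    obtain ⟨ψ, h1, h2⟩ := ih u
    obtain ⟨ψ', h1', h2'⟩ := ih' u
    refine ⟨.and ψ ψ', fun k hk => ?_, fun A w => and_congr (h2 A w) (h2' A w)⟩
    simp only [Fml.fv, Finset.mem_union] at hk ⊢
    rcases hk with hk | hk
    · obtain ⟨i, hi, hk⟩ := h1 k hk
      exact ⟨i, Or.inl hi, hk⟩
    · obtain ⟨i, hi, hk⟩ := h1' k hk
      exact ⟨i, Or.inr hi, hk⟩
  | ex i φ ih =>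
    intro u
    obtain ⟨K, hK⟩ : ∃ K, ∀ j ∈ φ.fv, u j < K :=
      ⟨φ.fv.sup u + 1, fun j hj => Nat.lt_succ_of_le (Finset.le_sup (f := u) hj)⟩
    obtain ⟨ψ, h1, h2⟩ := ih (Function.update u i K)
    refine ⟨.ex K ψ, fun k hk => ?_, fun A w => ?_⟩
    · simp only [Fml.fv, Finset.mem_erase] at hk ⊢
      obtain ⟨hk1, hk2⟩ := hk
      obtain ⟨j, hj, hjk⟩ := h1 k hk2
      by_cases hji : j = i
      · subst hji
        rw [Function.update_self] at hjk
        exact absurd hjk hk1
      · rw [Function.update_of_ne hji] at hjk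
        exact ⟨j, ⟨hji, hj⟩, hjk⟩
    · simp only [sat_ex, h2]
      refine exists_congr fun a => and_congr_right fun _ => sat_congr A φ fun j hj => ?_
      by_cases hji : j = i
      · subst hji; simp
      · rw [Function.update_of_ne hji, Function.update_of_ne hji,
          Function.update_of_ne (Nat.ne_of_lt (hK j hj))]

/-- The assignment given by a list. -/
def fn (l : List ℕ) : ℕ → ℕ := fun i => l.getD i 0

theorem fn_mem {D : Set ℕ} {l : List ℕ} (hl : ∀ a ∈ l, a ∈ D) {i : ℕ} (hi : i < l.length) :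
    fn l i ∈ D := by
  unfold fn
  rw [List.getD_eq_getElem _ _ hi]; exact hl _ (List.getElem_mem hi)

theorem fn_append_lt {l m : List ℕ} {i : ℕ} (hi : i < l.length) : fn (l ++ m) i = fn l i := by
  unfold fn
  exact List.getD_append _ _ _ _ hi

theorem fn_snoc {l : List ℕ} {a : ℕ} : fn (l ++ [a]) l.length = a := by
  simp [fn]

theorem fn_map_range {v : ℕ → ℕ} {N i : ℕ} (h : i < N) : fn ((List.range N).map v) i = v i := by
  simp [fn, h]

/-- Finite conjunctions. -/
def Fml.conj : List Fml → Fml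
  | [] => .eq 0 0
  | φ :: l => .and φ (Fml.conj l)

theorem sat_conj {A : Str} {v : ℕ → ℕ} : ∀ {l : List Fml},
    Sat A (Fml.conj l) v ↔ ∀ φ ∈ l, Sat A φ v
  | [] => by simp [Fml.conj]
  | φ :: l => by
    simp only [Fml.conj, sat_and, List.mem_cons, forall_eq_or_imp]
    rw [sat_conj]

/-- The set of tuples `w ∘ l`, where `w` satisfies `θ`, is definable. -/
theorem exists_proj (θ : Fml) (l : List ℕ) : ∃ ψ : Fml, (∀ i ∈ ψ.fv, i < l.length) ∧
    ∀ (A : Str) (v : ℕ → ℕ), (∀ i, v i ∈ A.dom) → (Sat A ψ v ↔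
      ∃ w : ℕ → ℕ, (∀ i, w i ∈ A.dom) ∧ Sat A θ w ∧ ∀ i < l.length, w (fn l i) = v i) := by
  obtain ⟨θ', _, h2⟩ := exists_subst θ (fun i => i + l.length)
  let χ : Fml := .and θ' (Fml.conj ((List.range l.length).map fun i => .eq (fn l i + l.length) i))
  let V : List ℕ := χ.fv.toList.filter (fun j => l.length ≤ j)
  refine ⟨Fml.exs V χ, fun i hi => ?_, fun A v hv => ?_⟩
  · rw [fv_exs, Finset.mem_sdiff, List.mem_toFinset] at hi
    by_contra hc
    exact hi.2 (List.mem_filter.2 ⟨by simpa using hi.1, by simpa using hc⟩)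
  · have hχ : ∀ w : ℕ → ℕ, Sat A χ w ↔ Sat A θ (fun i => w (i + l.length)) ∧
        ∀ i < l.length, w (fn l i + l.length) = w i := by
      intro w
      simp only [χ, sat_and, h2, sat_conj, List.mem_map, List.mem_range, forall_exists_index,
        and_imp, forall_apply_eq_imp_iff₂, sat_eq]
    rw [sat_exs]
    constructor
    · rintro ⟨w, h3, h4, h5⟩
      rw [hχ] at h5
      have hw : ∀ i, w i ∈ A.dom := fun i => by
        by_cases hi : i ∈ V
        · exact h4 i hi
        · rw [h3 i hi]; exact hv i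
      refine ⟨fun i => w (i + l.length), fun i => hw _, h5.1, fun i hi => ?_⟩
      beta_reduce
      rw [h5.2 i hi]
      refine h3 i fun hc => ?_
      have := (List.mem_filter.1 hc).2
      simp at this
      omega
    · rintro ⟨w, h3, h4, h5⟩
      let w' : ℕ → ℕ := fun j => if l.length ≤ j then w (j - l.length) else v j
      refine ⟨fun j => if j ∈ V then w' j else v j, fun i hi => by simp [hi], fun i hi => ?_, ?_⟩
      · simp only [hi, if_true, w']
        split_ifs
        · exact h3 _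
        · exact hv _
      · have h6 : Sat A χ w' := by
          rw [hχ]
          constructor
          · have : (fun i => w' (i + l.length)) = w := by
              funext i; simp [w']
            rw [this]; exact h4
          · intro i hi
            simp only [w', le_add_iff_nonneg_left, zero_le, if_true, Nat.add_sub_cancel]
            rw [if_neg (by omega)]
            exact h5 i hi
        refine (sat_congr A χ fun j hj => ?_).2 h6
        by_cases hjV : j ∈ V
        · simp [hjV]
        · simp only [hjV, if_false, w']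
          rw [if_neg]
          intro hc
          exact hjV (List.mem_filter.2 ⟨by simpa using hj, by simpa using hc⟩)

/-- `Frc A θ φ u`: in `A`, the formula `θ` implies the formula `φ` with its variables renamed
by `u`. -/
def Frc (A : Str) (θ φ : Fml) (u : ℕ → ℕ) : Prop :=
  ∀ w : ℕ → ℕ, (∀ i, w i ∈ A.dom) → Sat A θ w → Sat A φ (fun i => w (u i))

/-- Satisfiable in `A`. -/
def Sbl (A : Str) (θ : Fml) : Prop := ∃ w : ℕ → ℕ, (∀ i, w i ∈ A.dom) ∧ Sat A θ w

theorem frc_congr {A : Str} {θ φ : Fml} {u u' : ℕ → ℕ} (h : ∀ i ∈ φ.fv, u i = u' i) :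
    Frc A θ φ u ↔ Frc A θ φ u' := by
  refine forall_congr' fun w => forall_congr' fun _ => forall_congr' fun _ =>
    sat_congr A φ fun i hi => ?_
  rw [h i hi]

theorem frc_transfer {A B : Str} (h : ElemEquiv A B) (θ φ : Fml) (u : ℕ → ℕ) :
    Frc A θ φ u ↔ Frc B θ φ u := by
  obtain ⟨ψ, _, h2⟩ := exists_subst φ u
  have key : ∀ C : Str, Frc C θ φ u ↔ Models C (θ.imp ψ) := by
    intro C
    simp only [Frc, Models, sat_imp, h2]
  rw [key, key]
  exact h.models _

end Pool.Agent.H24Q
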