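import Mathlib
import Pool.Agent.H24Q.Form

/-!
Effectively atomic structures and the back-and-forth construction.
-/

set_option autoImplicit false

namespace Pool.Agent.H24Q

open Encodable Pool.Agent.H93PMU Pool.Agent.H24P

/-- `A` is effectively atomic relative to `Z`: there is a relation, computably enumerable in `Z`,
which assigns to every tuple `l` of `A` at least one formula `θ` (given by its code) and one
tuple `l'` of variables, such that `l` is `w ∘ l'` for some `w` satisfying `θ` and all such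
tuples have the same type. -/
def EffAt (Z : ℕ → Bool) (A : Str) : Prop :=
  ∃ At : (List ℕ × ℕ) × List ℕ → Prop, Sg Z At ∧
    (∀ l : List ℕ, (∀ a ∈ l, a ∈ A.dom) → ∃ (cd : ℕ) (l' : List ℕ), At ((l, cd), l')) ∧
    (∀ (l : List ℕ) (cd : ℕ) (l' : List ℕ), (∀ a ∈ l, a ∈ A.dom) → At ((l, cd), l') →
      ∃ θ : Fml, cd = θ.code ∧ l'.length = l.length ∧
        (∃ w : ℕ → ℕ, (∀ i, w i ∈ A.dom) ∧ Sat A θ w ∧ ∀ i < l.length, w (fn l' i) = fn l i) ∧
        ∀ φ : Fml, (∀ i ∈ φ.fv, i < l.length) → Sat A φ (fn l) → Frc A θ φ (fn l'))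

/-- The tuple `m` is `w ∘ l'` for some `w` satisfying the formula with code `cd`, in the
structure with elementary diagram `E`. -/
def InAt (E : Set ℕ) (q : (ℕ × List ℕ) × List ℕ) : Prop :=
  ∃ wl : List ℕ, Nat.pair q.1.1 (encode wl) ∈ E ∧
    ∀ i < q.2.length, fn q.1.2 i < wl.length ∧ fn wl (fn q.1.2 i) = fn q.2 i

theorem inAt_iff {B : Str} {θ : Fml} {l' m : List ℕ} : InAt (ED B) ((θ.code, l'), m) ↔
    ∃ w : ℕ → ℕ, (∀ i, w i ∈ B.dom) ∧ Sat B θ w ∧ ∀ i < m.length, w (fn l' i) = fn m i := by
  constructor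
  · rintro ⟨wl, h1, h2⟩
    simp only at h1 h2
    rw [mem_ED] at h1
    obtain ⟨b, hb⟩ := B.nonempty
    refine ⟨asg wl b, asg_mem h1.2.1 hb, (sat_congr B θ fun i hi => ?_).1 h1.2.2, fun i hi => ?_⟩
    · simp [asg, h1.1 i hi]
    · rw [← (h2 i hi).2]
      simp [asg, fn, (h2 i hi).1]
      have := (h2 i hi).1
      simp only [fn, List.getD_eq_getElem?_getD] at this
      rw [List.getElem?_eq_getElem this]
      rfl
  · rintro ⟨w, h1, h2, h3⟩
    obtain ⟨N, hN1, hN2⟩ : ∃ N, (∀ i ∈ θ.fv, i < N) ∧ ∀ i < m.length, fn l' i < N :=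
      ⟨θ.fv.sup id + (Finset.range m.length).sup (fn l') + 1,
        fun i hi => by
          have := Finset.le_sup (f := id) hi
          simp only [id] at this
          omega,
        fun i hi => by
          have := Finset.le_sup (f := fn l') (Finset.mem_range.2 hi)
          omega⟩
    refine ⟨(List.range N).map w, ?_, fun i hi => ?_⟩
    · simp only
      rw [mem_ED]
      refine ⟨fun i hi => by simpa using hN1 i hi, fun a ha => ?_, ?_⟩
      · obtain ⟨j, _, rfl⟩ := List.mem_map.1 ha
        exact h1 j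
      · exact (sat_congr B θ fun i hi => (fn_map_range (hN1 i hi)).symm).1 h2
    · refine ⟨by simpa using hN2 i hi, ?_⟩
      simp only
      rw [fn_map_range (hN2 i hi)]
      exact h3 i hi

theorem computable_fn : Computable (fun p : List ℕ × ℕ => fn p.1 p.2) :=
  ((Primrec.list_getD 0).to_comp.comp Computable.fst Computable.snd)

theorem Computable.fn' {α : Type*} [Primcodable α] {f : α → List ℕ} {g : α → ℕ}
    (hf : Computable f) (hg : Computable g) : Computable (fun a => fn (f a) (g a)) :=
  computable_fn.comp (hf.pair hg)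

theorem sg_inAt {Z : ℕ → Bool} {E : Set ℕ} (hE : Sg Z (fun n => n ∈ E)) : Sg Z (InAt E) := by
  refine Sg.ex (Q := fun (q : (ℕ × List ℕ) × List ℕ) (wl : List ℕ) =>
    Nat.pair q.1.1 (encode wl) ∈ E ∧
    ∀ i < q.2.length, fn q.1.2 i < wl.length ∧ fn wl (fn q.1.2 i) = fn q.2 i) ?_
  refine Sg.and ?_ ?_
  · refine hE.comp (f := fun p : ((ℕ × List ℕ) × List ℕ) × List ℕ =>
      Nat.pair p.1.1.1 (encode p.2)) ?_
    exact Primrec₂.natPair.to_comp.comp (Computable.fst.comp (Computable.fst.comp Computable.fst))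
      (Computable.encode.comp Computable.snd)
  · refine Sg.ball_lt (Q := fun (p : ((ℕ × List ℕ) × List ℕ) × List ℕ) (i : ℕ) =>
      fn p.1.1.2 i < p.2.length ∧ fn p.2 (fn p.1.1.2 i) = fn p.1.2 i) ?_
      (Computable.list_length.comp (Computable.snd.comp Computable.fst))
    have h1 : Computable (fun p : (((ℕ × List ℕ) × List ℕ) × List ℕ) × ℕ => fn p.1.1.1.2 p.2) :=
      Computable.fn' (Computable.snd.comp (Computable.fst.comp (Computable.fst.comp
        Computable.fst))) Computable.snd
    refine Sg.and (Sg.lt_comp h1 (Computable.list_length.comp (Computable.snd.comp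
      Computable.fst))) (Sg.eq_comp ?_ ?_)
    · exact Computable.fn' (Computable.snd.comp Computable.fst) h1
    · exact Computable.fn' (Computable.snd.comp (Computable.fst.comp Computable.fst))
        Computable.snd

/-- The tuples `l` in `A` and `m` in `B` have the same type. -/
structure Typ (A B : Str) (l m : List ℕ) : Prop where
  len : l.length = m.length
  left : ∀ a ∈ l, a ∈ A.dom
  right : ∀ b ∈ m, b ∈ B.dom
  sat : ∀ φ : Fml, (∀ i ∈ φ.fv, i < l.length) → (Sat A φ (fn l) ↔ Sat B φ (fn m))

theorem Typ.symm {A B : Str} {l m : List ℕ} (h : Typ A B l m) : Typ B A m l :=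
  ⟨h.len.symm, h.right, h.left, fun φ hφ => (h.sat φ (by rwa [h.len])).symm⟩

theorem Typ.equiv {A B : Str} {l m : List ℕ} (h : Typ A B l m) : ElemEquiv A B := by
  intro φ hφ
  rw [sentence_models hφ (fn l), sentence_models hφ (fn m)]
  exact h.sat φ (by rw [hφ]; simp)

theorem Typ.nil {A B : Str} (h : ElemEquiv A B) : Typ A B [] [] := by
  refine ⟨rfl, by simp, by simp, fun φ hφ => ?_⟩
  have h1 : φ.fv = ∅ := by
    rw [Finset.eq_empty_iff_forall_notMem]
    intro i hi
    exact absurd (hφ i hi) (by simp)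
  rw [← sentence_models h1, ← sentence_models h1]
  exact h φ h1

theorem Typ.step_exists {A B : Str} {l m : List ℕ} (h : Typ A B l m) {a : ℕ} (ha : a ∈ A.dom)
    {θ : Fml} {l' : List ℕ} (hl' : l'.length = l.length + 1)
    (hw : ∃ w : ℕ → ℕ, (∀ i, w i ∈ A.dom) ∧ Sat A θ w ∧
      ∀ i < l.length + 1, w (fn l' i) = fn (l ++ [a]) i) :
    ∃ b ∈ B.dom, InAt (ED B) ((θ.code, l'), m ++ [b]) := by
  obtain ⟨ψ, h1, h2⟩ := exists_proj θ l'
  have hA : Sat A (.ex l.length ψ) (fn l) := by
    rw [sat_ex]
    refine ⟨a, ha, ?_⟩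
    have h3 : Sat A ψ (asg (l ++ [a]) a) := by
      rw [h2 A _ (asg_mem (D := A.dom) (by
        intro x hx
        rcases List.mem_append.1 hx with hx | hx
        · exact h.left x hx
        · rw [List.mem_singleton.1 hx]; exact ha) ha)]
      obtain ⟨w, h4, h5, h6⟩ := hw
      refine ⟨w, h4, h5, fun i hi => ?_⟩
      rw [h6 i (by omega)]
      have hi' : i < (l ++ [a]).length := by simp; omega
      simp only [fn, asg]
      rw [List.getD_eq_getElem _ _ hi', List.getD_eq_getElem _ _ hi']
    refine (sat_congr A ψ fun i hi => ?_).1 h3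
    have hi1 := h1 i hi
    rw [hl'] at hi1
    by_cases hil : i = l.length
    · subst hil; simp [asg]
    · rw [Function.update_of_ne hil]
      have hi2 : i < l.length := by omega
      have hi' : i < (l ++ [a]).length := by simp; omega
      simp only [asg, fn]
      rw [List.getD_eq_getElem _ _ hi', List.getD_eq_getElem _ _ hi2,
        List.getElem_append_left hi2]
  have hB := (h.sat (.ex l.length ψ) (fun i hi => by
    simp only [Fml.fv, Finset.mem_erase] at hi
    have := h1 i hi.2
    omega)).1 hA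
  rw [sat_ex] at hB
  obtain ⟨b, hb, hB⟩ := hB
  refine ⟨b, hb, inAt_iff.2 ?_⟩
  have h3 : Sat B ψ (asg (m ++ [b]) b) := by
    refine (sat_congr B ψ fun i hi => ?_).1 hB
    have hi1 := h1 i hi
    rw [hl'] at hi1
    have hlm := h.len
    by_cases hil : i = l.length
    · subst hil; rw [hlm]; simp [asg]
    · rw [Function.update_of_ne hil]
      have hi2 : i < m.length := by omega
      have hi' : i < (m ++ [b]).length := by simp; omega
      simp only [asg, fn]
      rw [List.getD_eq_getElem _ _ hi', List.getD_eq_getElem _ _ hi2,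
        List.getElem_append_left hi2]
  rw [h2 B _ (asg_mem (D := B.dom) (by
        intro x hx
        rcases List.mem_append.1 hx with hx | hx
        · exact h.right x hx
        · rw [List.mem_singleton.1 hx]; exact hb) hb)] at h3
  obtain ⟨w, h4, h5, h6⟩ := h3
  refine ⟨w, h4, h5, fun i hi => ?_⟩
  have hlm := h.len
  rw [List.length_append, List.length_singleton] at hi
  rw [h6 i (by omega)]
  have hi' : i < (m ++ [b]).length := by simp; omega
  simp only [fn, asg]
  rw [List.getD_eq_getElem _ _ hi', List.getD_eq_getElem _ _ hi']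

theorem Typ.step_good {A B : Str} {l m : List ℕ} (h : Typ A B l m) {a b : ℕ} (ha : a ∈ A.dom)
    (hb : b ∈ B.dom) {θ : Fml} {l' : List ℕ}
    (hφ : ∀ φ : Fml, (∀ i ∈ φ.fv, i < (l ++ [a]).length) → Sat A φ (fn (l ++ [a])) →
      Frc A θ φ (fn l'))
    (hw : InAt (ED B) ((θ.code, l'), m ++ [b])) : Typ A B (l ++ [a]) (m ++ [b]) := by
  rw [inAt_iff] at hw
  obtain ⟨w, h1, h2, h3⟩ := hw
  have key : ∀ φ : Fml, (∀ i ∈ φ.fv, i < (l ++ [a]).length) → Sat A φ (fn (l ++ [a])) →
      Sat B φ (fn (m ++ [b])) := by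
    intro φ hfv hs
    have h4 := (frc_transfer h.equiv θ φ (fn l')).1 (hφ φ hfv hs) w h1 h2
    refine (sat_congr B φ fun i hi => ?_).1 h4
    have hi' := hfv i hi
    have hlm := h.len
    rw [List.length_append, List.length_singleton] at hi'
    exact h3 i (by rw [List.length_append, List.length_singleton]; omega)
  refine ⟨by simp [h.len], fun x hx => ?_, fun x hx => ?_, fun φ hfv => ⟨key φ hfv, fun hs => ?_⟩⟩
  · rcases List.mem_append.1 hx with hx | hx
    · exact h.left x hx
    · rw [List.mem_singleton.1 hx]; exact ha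
  · rcases List.mem_append.1 hx with hx | hx
    · exact h.right x hx
    · rw [List.mem_singleton.1 hx]; exact hb
  · by_contra hc
    exact key (.neg φ) hfv hc hs

end Pool.Agent.H24Q
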