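import Mathlib
import Pool.Agent.H24Q.BF

/-!
The back-and-forth construction inside a Turing ideal.
-/

set_option autoImplicit false

namespace Pool.Agent.H24Q

open Encodable Pool.Agent.H93PMU Pool.Agent.H24P

theorem mem_dom_iff {A : Str} {a : ℕ} :
    a ∈ A.dom ↔ Nat.pair (Fml.eq 0 0).code (encode [a]) ∈ ED A := by
  rw [mem_ED]
  simp [Fml.fv]

theorem computable_dom_code :
    Computable (fun a : ℕ => Nat.pair (Fml.eq 0 0).code (encode [a])) := by
  refine Primrec₂.natPair.to_comp.comp (Computable.const _) (Computable.encode.comp ?_)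
  exact Computable.list_cons.comp Computable.id (Computable.const [])

theorem sg_dom {Z : ℕ → Bool} {A : Str} (h : Sg Z (fun n => n ∈ ED A)) :
    Sg Z (fun a => a ∈ A.dom) :=
  (h.comp computable_dom_code).congr fun _ => mem_dom_iff.symm

theorem sg_not_dom {Z : ℕ → Bool} {A : Str} (h : Sg Z (fun n => n ∉ ED A)) :
    Sg Z (fun a => a ∉ A.dom) :=
  (h.comp computable_dom_code).congr fun _ => not_congr mem_dom_iff.symm

/-- One half step of the construction. -/
def Hs (D DB : Set ℕ) (At : (List ℕ × ℕ) × List ℕ → Prop) (E : Set ℕ)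
    (q : ℕ × ((List ℕ × List ℕ) × (List ℕ × List ℕ))) : Prop :=
  (q.1 ∉ D ∧ q.2.2 = q.2.1) ∨ (q.1 ∈ D ∧ q.2.2.1 = q.2.1.1 ++ [q.1] ∧ ∃ b, b ∈ DB ∧
    q.2.2.2 = q.2.1.2 ++ [b] ∧ ∃ z : ℕ × List ℕ, At ((q.2.2.1, z.1), z.2) ∧ InAt E (z, q.2.2.2))

theorem sg_hs {Z : ℕ → Bool} {D DB : Set ℕ} {At : (List ℕ × ℕ) × List ℕ → Prop} {E : Set ℕ}
    (hD : Sg Z (fun n => n ∈ D)) (hD' : Sg Z (fun n => n ∉ D)) (hDB : Sg Z (fun n => n ∈ DB))
    (hAt : Sg Z At) (hE : Sg Z (fun n => n ∈ E)) : Sg Z (Hs D DB At E) := by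
  have f1 : Computable (fun q : ℕ × ((List ℕ × List ℕ) × (List ℕ × List ℕ)) => q.2.2.1) :=
    Computable.fst.comp (Computable.snd.comp Computable.snd)
  have f2 : Computable (fun q : ℕ × ((List ℕ × List ℕ) × (List ℕ × List ℕ)) => q.2.2.2) :=
    Computable.snd.comp (Computable.snd.comp Computable.snd)
  have f3 : Computable (fun q : ℕ × ((List ℕ × List ℕ) × (List ℕ × List ℕ)) => q.2.1.1) :=
    Computable.fst.comp (Computable.fst.comp Computable.snd)
  have f4 : Computable (fun q : ℕ × ((List ℕ × List ℕ) × (List ℕ × List ℕ)) => q.2.1.2) :=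
    Computable.snd.comp (Computable.fst.comp Computable.snd)
  refine Sg.or (Sg.and (hD'.comp Computable.fst) (Sg.eq_comp
    (Computable.snd.comp Computable.snd) (Computable.fst.comp Computable.snd)))
    (Sg.and (hD.comp Computable.fst) (Sg.and (Sg.eq_comp f1 ?_) ?_))
  · exact Computable.list_append.comp f3 (Computable.list_cons.comp Computable.fst
      (Computable.const []))
  · refine Sg.ex (Q := fun (q : ℕ × ((List ℕ × List ℕ) × (List ℕ × List ℕ))) (b : ℕ) => b ∈ DB ∧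
      q.2.2.2 = q.2.1.2 ++ [b] ∧ ∃ z : ℕ × List ℕ, At ((q.2.2.1, z.1), z.2) ∧
        InAt E (z, q.2.2.2)) ?_
    refine Sg.and (hDB.comp Computable.snd) (Sg.and (Sg.eq_comp (f2.comp Computable.fst) ?_) ?_)
    · exact Computable.list_append.comp (f4.comp Computable.fst)
        (Computable.list_cons.comp Computable.snd (Computable.const []))
    · refine Sg.ex (Q := fun (q : (ℕ × ((List ℕ × List ℕ) × (List ℕ × List ℕ))) × ℕ)
        (z : ℕ × List ℕ) => At ((q.1.2.2.1, z.1), z.2) ∧ InAt E (z, q.1.2.2.2)) ?_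
      refine Sg.and ?_ ?_
      · exact hAt.comp (f := fun q : ((ℕ × ((List ℕ × List ℕ) × (List ℕ × List ℕ))) × ℕ) ×
          (ℕ × List ℕ) => ((q.1.1.2.2.1, q.2.1), q.2.2))
          (((f1.comp (Computable.fst.comp Computable.fst)).pair
            (Computable.fst.comp Computable.snd)).pair (Computable.snd.comp Computable.snd))
      · exact (sg_inAt hE).comp (f := fun q : ((ℕ × ((List ℕ × List ℕ) × (List ℕ × List ℕ))) × ℕ) ×
          (ℕ × List ℕ) => (q.2, q.1.1.2.2.2))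
          (Computable.snd.pair (f2.comp (Computable.fst.comp Computable.fst)))

theorem hs_exists {A B : Str} {At : (List ℕ × ℕ) × List ℕ → Prop}
    (h1 : ∀ l : List ℕ, (∀ a ∈ l, a ∈ A.dom) → ∃ (cd : ℕ) (l' : List ℕ), At ((l, cd), l'))
    (h2 : ∀ (l : List ℕ) (cd : ℕ) (l' : List ℕ), (∀ a ∈ l, a ∈ A.dom) → At ((l, cd), l') →
      ∃ θ : Fml, cd = θ.code ∧ l'.length = l.length ∧
        (∃ w : ℕ → ℕ, (∀ i, w i ∈ A.dom) ∧ Sat A θ w ∧ ∀ i < l.length, w (fn l' i) = fn l i) ∧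
        ∀ φ : Fml, (∀ i ∈ φ.fv, i < l.length) → Sat A φ (fn l) → Frc A θ φ (fn l'))
    {l m : List ℕ} (h : Typ A B l m) (a : ℕ) :
    ∃ l' m' : List ℕ, Hs A.dom B.dom At (ED B) (a, ((l, m), (l', m'))) := by
  by_cases ha : a ∈ A.dom
  · have hla : ∀ x ∈ l ++ [a], x ∈ A.dom := by
      intro x hx
      rcases List.mem_append.1 hx with hx | hx
      · exact h.left x hx
      · rw [List.mem_singleton.1 hx]; exact ha
    obtain ⟨cd, l', hAt⟩ := h1 _ hla
    obtain ⟨θ, h3, h4, h5, h6⟩ := h2 _ _ _ hla hAt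
    rw [List.length_append, List.length_singleton] at h4 h5
    obtain ⟨b, hb, hb'⟩ := h.step_exists ha h4 h5
    refine ⟨l ++ [a], m ++ [b], Or.inr ⟨ha, rfl, b, hb, rfl, (cd, l'), hAt, ?_⟩⟩
    rw [h3]; exact hb'
  · exact ⟨l, m, Or.inl ⟨ha, rfl⟩⟩

theorem hs_good {A B : Str} {At : (List ℕ × ℕ) × List ℕ → Prop}
    (h2 : ∀ (l : List ℕ) (cd : ℕ) (l' : List ℕ), (∀ a ∈ l, a ∈ A.dom) → At ((l, cd), l') →
      ∃ θ : Fml, cd = θ.code ∧ l'.length = l.length ∧
        (∃ w : ℕ → ℕ, (∀ i, w i ∈ A.dom) ∧ Sat A θ w ∧ ∀ i < l.length, w (fn l' i) = fn l i) ∧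
        ∀ φ : Fml, (∀ i ∈ φ.fv, i < l.length) → Sat A φ (fn l) → Frc A θ φ (fn l'))
    {l m : List ℕ} (h : Typ A B l m) {a : ℕ} {l' m' : List ℕ}
    (hs : Hs A.dom B.dom At (ED B) (a, ((l, m), (l', m')))) :
    Typ A B l' m' ∧ l <+: l' ∧ m <+: m' ∧ (a ∈ A.dom → a ∈ l') := by
  rcases hs with ⟨h3, h4⟩ | ⟨h3, h4, b, h5, h6, ⟨cd, k⟩, h7, h8⟩
  · simp only [Prod.mk.injEq] at h4
    obtain ⟨rfl, rfl⟩ := h4
    exact ⟨h, List.prefix_rfl, List.prefix_rfl, fun hc => absurd hc h3⟩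
  · simp only at h3 h4 h6 h7 h8
    subst h4 h6
    have hla : ∀ x ∈ l ++ [a], x ∈ A.dom := by
      intro x hx
      rcases List.mem_append.1 hx with hx | hx
      · exact h.left x hx
      · rw [List.mem_singleton.1 hx]; exact h3
    obtain ⟨θ, h9, _, _, h10⟩ := h2 _ _ _ hla h7
    subst h9
    exact ⟨h.step_good h3 h5 h10 h8, List.prefix_append _ _, List.prefix_append _ _,
      fun _ => by simp⟩

/-- Effectively atomic structures in an ideal with the same theory are isomorphic in it. -/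
theorem exists_iso {I : Set (Set ℕ)} (hI : TuringIdeal I) {A B : Str} (hA : ED A ∈ I)
    (hB : ED B ∈ I) (hAB : ElemEquiv A B) {Z Z' : Set ℕ} (hZ : Z ∈ I) (hZ' : Z' ∈ I)
    (hZA : EffAt (bo Z) A) (hZB : EffAt (bo Z') B) :
    ∃ f : ℕ → ℕ, graph A.dom f ∈ I ∧ Iso A B f := by
  obtain ⟨AtA, hA0, hA1, hA2⟩ := hZA
  obtain ⟨AtB, hB0, hB1, hB2⟩ := hZB
  -- one common oracle
  obtain ⟨W, hW, wA, wB, wZ, wZ'⟩ : ∃ W ∈ I, Ar (bo W) (bo (ED A)) ∧ Ar (bo W) (bo (ED B)) ∧
      Ar (bo W) (bo Z) ∧ Ar (bo W) (bo Z') := by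
    refine ⟨joinSet (joinSet (ED A) (ED B)) (joinSet Z Z'), ideal_join hI (ideal_join hI hA hB)
      (ideal_join hI hZ hZ'), ?_, ?_, ?_, ?_⟩
    · exact (ar_join_left _ _).trans (ar_join_left _ _)
    · exact (ar_join_left _ _).trans (ar_join_right _ _)
    · exact (ar_join_right _ _).trans (ar_join_left _ _)
    · exact (ar_join_right _ _).trans (ar_join_right _ _)
  have sA := (ar_bo_iff.1 wA).1
  have sA' := (ar_bo_iff.1 wA).2
  have sB := (ar_bo_iff.1 wB).1
  have sB' := (ar_bo_iff.1 wB).2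
  have hsA := sg_hs (sg_dom sA) (sg_not_dom sA') (sg_dom sB) (hA0.trans wZ) sB
  have hsB := sg_hs (sg_dom sB) (sg_not_dom sB') (sg_dom sA) (hB0.trans wZ') sA
  let R : ℕ × (List ℕ × List ℕ) → ℕ × (List ℕ × List ℕ) → Prop := fun x y =>
    y.1 = x.1 + 1 ∧
      ((x.1 % 2 = 0 ∧ Hs A.dom B.dom AtA (ED B) (x.1 / 2, (x.2, y.2))) ∨
       (x.1 % 2 = 1 ∧ Hs B.dom A.dom AtB (ED A) (x.1 / 2, ((x.2.2, x.2.1), (y.2.2, y.2.1)))))
  have hR : Sg (bo W) (fun p : (ℕ × (List ℕ × List ℕ)) × (ℕ × (List ℕ × List ℕ)) =>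
      R p.1 p.2) := by
    have hx : Computable (fun p : (ℕ × (List ℕ × List ℕ)) × (ℕ × (List ℕ × List ℕ)) => p.1.1) :=
      Computable.fst.comp Computable.fst
    have hx2 : Computable (fun p : (ℕ × (List ℕ × List ℕ)) × (ℕ × (List ℕ × List ℕ)) => p.1.2) :=
      Computable.snd.comp Computable.fst
    have hy2 : Computable (fun p : (ℕ × (List ℕ × List ℕ)) × (ℕ × (List ℕ × List ℕ)) => p.2.2) :=
      Computable.snd.comp Computable.snd
    have hm : Computable (fun p : (ℕ × (List ℕ × List ℕ)) × (ℕ × (List ℕ × List ℕ)) =>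
        p.1.1 % 2) := (Primrec.nat_mod.to_comp).comp hx (Computable.const 2)
    have hd : Computable (fun p : (ℕ × (List ℕ × List ℕ)) × (ℕ × (List ℕ × List ℕ)) =>
        p.1.1 / 2) := (Primrec.nat_div.to_comp).comp hx (Computable.const 2)
    refine Sg.and (Sg.eq_comp (Computable.fst.comp Computable.snd) (Computable.succ.comp hx))
      (Sg.or (Sg.and (Sg.eq_comp hm (Computable.const 0)) ?_)
      (Sg.and (Sg.eq_comp hm (Computable.const 1)) ?_))
    · exact hsA.comp (f := fun p : (ℕ × (List ℕ × List ℕ)) × (ℕ × (List ℕ × List ℕ)) =>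
        (p.1.1 / 2, (p.1.2, p.2.2))) (hd.pair (hx2.pair hy2))
    · exact hsB.comp (f := fun p : (ℕ × (List ℕ × List ℕ)) × (ℕ × (List ℕ × List ℕ)) =>
        (p.1.1 / 2, ((p.1.2.2, p.1.2.1), (p.2.2.2, p.2.2.1))))
        (hd.pair (((Computable.snd.comp hx2).pair (Computable.fst.comp hx2)).pair
          ((Computable.snd.comp hy2).pair (Computable.fst.comp hy2))))
  obtain ⟨g, hg, hg0, hgR, hgG⟩ := hR.exists_seq (fun x => Typ A B x.2.1 x.2.2) (0, ([], []))
    (Typ.nil hAB) (by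
      rintro ⟨n, l, m⟩ hx
      simp only at hx
      rcases Nat.mod_two_eq_zero_or_one n with hn | hn
      · obtain ⟨l', m', h⟩ := hs_exists hA1 hA2 hx (n / 2)
        exact ⟨(n + 1, (l', m')), rfl, Or.inl ⟨hn, h⟩⟩
      · obtain ⟨m', l', h⟩ := hs_exists hB1 hB2 hx.symm (n / 2)
        exact ⟨(n + 1, (l', m')), rfl, Or.inr ⟨hn, h⟩⟩) (by
      rintro ⟨n, l, m⟩ ⟨n', l', m'⟩ hx ⟨_, hxy⟩
      rcases hxy with ⟨_, hxy⟩ | ⟨_, hxy⟩
      · exact (hs_good hA2 hx hxy).1
      · exact (hs_good hB2 hx.symm hxy).1.symm)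
  have hn : ∀ n, (g n).1 = n := by
    intro n
    induction n with
    | zero => rw [hg0]
    | succ n ih => rw [(hgR n).1, ih]
  have hpre : ∀ n, (g n).2.1 <+: (g (n + 1)).2.1 ∧ (g n).2.2 <+: (g (n + 1)).2.2 ∧
      (n % 2 = 0 → n / 2 ∈ A.dom → n / 2 ∈ (g (n + 1)).2.1) ∧
      (n % 2 = 1 → n / 2 ∈ B.dom → n / 2 ∈ (g (n + 1)).2.2) := by
    intro n
    obtain ⟨_, h⟩ := hgR n
    rw [hn] at h
    rcases h with ⟨h1, h⟩ | ⟨h1, h⟩
    · obtain ⟨_, h3, h4, h5⟩ := hs_good hA2 (hgG n) h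
      exact ⟨h3, h4, fun _ => h5, fun hc => absurd hc (by omega)⟩
    · obtain ⟨_, h3, h4, h5⟩ := hs_good hB2 (hgG n).symm h
      exact ⟨h4, h3, fun hc => absurd hc (by omega), fun _ => h5⟩
  have hmono : ∀ n k, n ≤ k → (g n).2.1 <+: (g k).2.1 ∧ (g n).2.2 <+: (g k).2.2 := by
    intro n k hnk
    induction k, hnk using Nat.le_induction with
    | base => exact ⟨List.prefix_rfl, List.prefix_rfl⟩
    | succ k _ ih => exact ⟨ih.1.trans (hpre k).1, ih.2.trans (hpre k).2.1⟩
  let St : ℕ → ℕ → ℕ → Prop := fun n a b =>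
    ∃ i < (g n).2.1.length, fn (g n).2.1 i = a ∧ fn (g n).2.2 i = b
  have fn_pre : ∀ {l l' : List ℕ} {i : ℕ}, l <+: l' → i < l.length → fn l' i = fn l i := by
    rintro l l' i ⟨t, rfl⟩ hi
    exact fn_append_lt hi
  have St_mono : ∀ {n k a b}, n ≤ k → St n a b → St k a b := by
    rintro n k a b hnk ⟨i, hi, h1, h2⟩
    obtain ⟨h3, h4⟩ := hmono n k hnk
    refine ⟨i, lt_of_lt_of_le hi h3.length_le, ?_, ?_⟩
    · rw [fn_pre h3 hi]; exact h1
    · rw [fn_pre h4 (by rw [← (hgG n).len]; exact hi)]; exact h2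
  have St_eq : ∀ {n a b a' b'}, St n a b → St n a' b' → (a = a' ↔ b = b') := by
    rintro n a b a' b' ⟨i, hi, h1, h2⟩ ⟨j, hj, h3, h4⟩
    have := (hgG n).sat (.eq i j) (by
      intro k hk
      simp only [Fml.fv, Finset.mem_insert, Finset.mem_singleton] at hk
      rcases hk with rfl | rfl
      · exact hi
      · exact hj)
    simp only [sat_eq] at this
    rw [h1, h2, h3, h4] at this
    exact this
  have St_dom : ∀ {n a b}, St n a b → a ∈ A.dom ∧ b ∈ B.dom := by
    rintro n a b ⟨i, hi, h1, h2⟩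
    rw [← h1, ← h2]
    exact ⟨fn_mem (hgG n).left hi, fn_mem (hgG n).right (by rw [← (hgG n).len]; exact hi)⟩
  have St_tot : ∀ a ∈ A.dom, ∃ b n, St n a b := by
    intro a ha
    have h1 := (hpre (2 * a)).2.2.1 (by omega) (by rw [show 2 * a / 2 = a by omega]; exact ha)
    rw [show 2 * a / 2 = a by omega] at h1
    obtain ⟨i, hi, h2⟩ := List.getElem_of_mem h1
    refine ⟨_, 2 * a + 1, i, hi, ?_, rfl⟩
    unfold fn
    rw [List.getD_eq_getElem _ _ hi]; exact h2
  have St_sur : ∀ b ∈ B.dom, ∃ a n, St n a b := by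
    intro b hb
    have h1 := (hpre (2 * b + 1)).2.2.2 (by omega)
      (by rw [show (2 * b + 1) / 2 = b by omega]; exact hb)
    rw [show (2 * b + 1) / 2 = b by omega] at h1
    obtain ⟨i, hi, h2⟩ := List.getElem_of_mem h1
    refine ⟨_, 2 * b + 1 + 1, i, by rw [(hgG _).len]; exact hi, rfl, ?_⟩
    unfold fn
    rw [List.getD_eq_getElem _ _ hi]; exact h2
  let f : ℕ → ℕ := fun a => by classical exact if h : a ∈ A.dom then (St_tot a h).choose else 0
  have hf : ∀ a ∈ A.dom, ∃ n, St n a (f a) := by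
    intro a ha
    simp only [f, ha, dif_pos]
    exact (St_tot a ha).choose_spec
  have hf' : ∀ {n a b}, St n a b → f a = b := by
    intro n a b h
    obtain ⟨k, hk⟩ := hf a (St_dom h).1
    exact (St_eq (St_mono (le_max_left k n) hk) (St_mono (le_max_right k n) h)).1 rfl
  have hlist : ∀ xs : List ℕ, (∀ a ∈ xs, a ∈ A.dom) → ∃ n, ∀ a ∈ xs, St n a (f a) := by
    intro xs
    induction xs with
    | nil => intro _; exact ⟨0, by simp⟩
    | cons a xs ih =>
      intro h
      obtain ⟨n, hn⟩ := ih fun x hx => h x (by simp [hx])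
      obtain ⟨k, hk⟩ := hf a (h a (by simp))
      refine ⟨max n k, fun x hx => ?_⟩
      rcases List.mem_cons.1 hx with rfl | hx
      · exact St_mono (le_max_right n k) hk
      · exact St_mono (le_max_left n k) (hn x hx)
  refine ⟨f, ?_, ⟨?_, ?_, ?_⟩, ?_⟩
  · have hS : SgI I (fun q : ℕ × (ℕ × ℕ) => St q.1 q.2.1 q.2.2) := by
      have h1 : Sg (bo W) (fun q : (ℕ × (List ℕ × List ℕ)) × (ℕ × ℕ) =>
          ∃ i < q.1.2.1.length, fn q.1.2.1 i = q.2.1 ∧ fn q.1.2.2 i = q.2.2) := by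
        refine Sg.bex_lt (Q := fun (q : (ℕ × (List ℕ × List ℕ)) × (ℕ × ℕ)) i =>
          fn q.1.2.1 i = q.2.1 ∧ fn q.1.2.2 i = q.2.2) ?_
          (Computable.list_length.comp (Computable.fst.comp (Computable.snd.comp Computable.fst)))
        refine Sg.and (Sg.eq_comp (Computable.fn' (Computable.fst.comp (Computable.snd.comp
          (Computable.fst.comp Computable.fst))) Computable.snd)
          (Computable.fst.comp (Computable.snd.comp Computable.fst)))
          (Sg.eq_comp (Computable.fn' (Computable.snd.comp (Computable.snd.comp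
          (Computable.fst.comp Computable.fst))) Computable.snd)
          (Computable.snd.comp (Computable.snd.comp Computable.fst)))
      have h2 : Cp (bo W) (fun q : ℕ × (ℕ × ℕ) => (g q.1, q.2)) :=
        (hg.comp (Cp.of_computable Computable.fst)).pair (Cp.of_computable Computable.snd)
      exact SgI.of_mem hW (h1.subst h2)
    refine mem_of_sgI hI ?_ ?_
    · have h3 : SgI I (fun n : ℕ => ∃ k, St k n.unpair.1 n.unpair.2) := by
        refine SgI.ex (Q := fun (n k : ℕ) => St k n.unpair.1 n.unpair.2) ?_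
        exact hS.comp (f := fun p : ℕ × ℕ => (p.2, (p.1.unpair.1, p.1.unpair.2)))
          (Computable.snd.pair ((Computable.fst.comp (Primrec.unpair.to_comp.comp
          Computable.fst)).pair (Computable.snd.comp (Primrec.unpair.to_comp.comp
          Computable.fst))))
      refine h3.congr fun n => ?_
      constructor
      · rintro ⟨k, hk⟩
        exact ⟨n.unpair.1, (St_dom hk).1, by rw [hf' hk, Nat.pair_unpair]⟩
      · rintro ⟨a, ha, rfl⟩
        simpa using hf a ha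
    · have h3 : SgI I (fun n : ℕ => n.unpair.1 ∉ A.dom ∨
          ∃ z : ℕ × ℕ, z.2 ≠ n.unpair.2 ∧ St z.1 n.unpair.1 z.2) := by
        have hu1 : Computable (fun n : ℕ => n.unpair.1) :=
          Computable.fst.comp Primrec.unpair.to_comp
        have hu2 : Computable (fun n : ℕ => n.unpair.2) :=
          Computable.snd.comp Primrec.unpair.to_comp
        refine SgI.or hI ⟨W, hW, (sg_not_dom sA').comp hu1⟩ ?_
        refine SgI.ex (Q := fun (n : ℕ) (z : ℕ × ℕ) => z.2 ≠ n.unpair.2 ∧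
          St z.1 n.unpair.1 z.2) ?_
        refine SgI.and hI (SgI.ne_comp hI (Computable.snd.comp Computable.snd)
          (hu2.comp Computable.fst)) ?_
        exact hS.comp (f := fun p : ℕ × (ℕ × ℕ) => (p.2.1, (p.1.unpair.1, p.2.2)))
          ((Computable.fst.comp Computable.snd).pair ((hu1.comp Computable.fst).pair
          (Computable.snd.comp Computable.snd)))
      refine h3.congr fun n => ?_
      constructor
      · rintro (h | ⟨z, h1, h2⟩) ⟨a, ha, rfl⟩
        · simp only [Nat.unpair_pair] at h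
          exact h ha
        · simp only [Nat.unpair_pair] at h1 h2
          exact h1 (hf' h2).symm
      · intro h
        by_cases hd : n.unpair.1 ∈ A.dom
        · right
          obtain ⟨k, hk⟩ := hf _ hd
          refine ⟨(k, f n.unpair.1), fun hc => h ⟨n.unpair.1, hd, ?_⟩, hk⟩
          simp only at hc
          rw [hc, Nat.pair_unpair]
        · exact Or.inl hd
  · intro a ha
    obtain ⟨k, hk⟩ := hf a ha
    exact (St_dom hk).2
  · intro a ha a' ha' h
    obtain ⟨k, hk⟩ := hf a ha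
    obtain ⟨k', hk'⟩ := hf a' ha'
    exact (St_eq (St_mono (le_max_left k k') hk) (St_mono (le_max_right k k') hk')).2 h
  · intro b hb
    obtain ⟨a, n, h⟩ := St_sur b hb
    exact ⟨a, (St_dom h).1, hf' h⟩
  · intro r xs hxs
    obtain ⟨n, hn'⟩ := hlist xs hxs
    choose! idx h1 h2 h3 using hn'
    have := (hgG n).sat (.rel r (xs.map idx)) (by
      intro k hk
      simp only [Fml.fv, List.mem_toFinset, List.mem_map] at hk
      obtain ⟨a, ha, rfl⟩ := hk
      exact h1 a ha)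
    simp only [sat_rel, List.map_map] at this
    have e1 : xs.map (fn (g n).2.1 ∘ idx) = xs := by
      conv_rhs => rw [← List.map_id xs]
      exact List.map_congr_left fun a ha => h2 a ha
    have e2 : xs.map (fn (g n).2.2 ∘ idx) = xs.map f :=
      List.map_congr_left fun a ha => h3 a ha
    rw [e1, e2] at this
    exact this

end Pool.Agent.H24Q
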