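import Mathlib
import Pool.Agent.H24Q.BF2

/-!
Computable operations on codes of formulas: the sentence expressing that some assignment
satisfies `θ` and, after renaming by the tuple `l`, the formula `φ`.
-/

set_option autoImplicit false

namespace Pool.Agent.H24Q

open Encodable Pool.Agent.H93PMU Pool.Agent.H24P Pool.Agent.H19

/-! ### Bounds for variables -/

theorem mem_lt_encode {xs : List ℕ} {x : ℕ} (h : x ∈ xs) : x < encode xs := by
  induction xs with
  | nil => simp at h
  | cons a l ih =>
    rw [encode_list_cons]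
    rcases List.mem_cons.1 h with rfl | h
    · have := Nat.left_le_pair (encode x) (encode l)
      simp only [encode_nat] at this ⊢
      omega
    · have := Nat.right_le_pair (encode a) (encode l)
      have := ih h
      omega

theorem fv_le_code : ∀ (φ : Fml), ∀ i ∈ φ.fv, i ≤ φ.code
  | .rel r xs => fun x hx => by
      have h1 := mem_lt_encode (List.mem_toFinset.1 hx)
      have h2 := Nat.right_le_pair r (encode xs)
      have h3 := Nat.right_le_pair 1 (Nat.pair r (encode xs))
      simp only [Fml.code]; omega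
  | .eq x y => fun z hz => by
      have h1 := Nat.left_le_pair x y
      have h2 := Nat.right_le_pair x y
      have h3 := Nat.right_le_pair 0 (Nat.pair x y)
      simp only [Fml.fv, Finset.mem_insert, Finset.mem_singleton] at hz
      simp only [Fml.code]; omega
  | .neg φ => fun z hz => by
      have h1 := Nat.right_le_pair 2 φ.code
      have := fv_le_code φ z hz
      simp only [Fml.code]; omega
  | .and φ ψ => fun z hz => by
      have h1 := Nat.left_le_pair φ.code ψ.code
      have h2 := Nat.right_le_pair φ.code ψ.code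
      have h3 := Nat.right_le_pair 3 (Nat.pair φ.code ψ.code)
      simp only [Fml.fv, Finset.mem_union] at hz
      simp only [Fml.code]
      rcases hz with hz | hz
      · have := fv_le_code φ z hz
        omega
      · have := fv_le_code ψ z hz
        omega
  | .ex x φ => fun z hz => by
      have h1 := Nat.left_le_pair x φ.code
      have h2 := Nat.right_le_pair x φ.code
      have h3 := Nat.right_le_pair 4 (Nat.pair x φ.code)
      simp only [Fml.fv, Finset.mem_erase] at hz
      have := fv_le_code φ z hz.2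
      simp only [Fml.code]; omega

/-! ### Existential closure over the variables below `n` -/

/-- Existential quantification over the variables below `n`. -/
def exsN : ℕ → Fml → Fml
  | 0, φ => φ
  | n + 1, φ => .ex n (exsN n φ)

theorem sat_exsN {A : Str} : ∀ (n : ℕ) (φ : Fml) (v : ℕ → ℕ),
    Sat A (exsN n φ) v ↔
      ∃ w : ℕ → ℕ, (∀ i < n, w i ∈ A.dom) ∧ (∀ i, n ≤ i → w i = v i) ∧ Sat A φ w
  | 0, φ, v => by
      constructor
      · intro h; exact ⟨v, by simp, fun _ _ => rfl, h⟩
      · rintro ⟨w, _, h2, h3⟩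
        have : w = v := funext fun i => h2 i (Nat.zero_le i)
        rw [← this]; exact h3
  | n + 1, φ, v => by
      simp only [exsN, sat_ex, sat_exsN n]
      constructor
      · rintro ⟨a, ha, w, h1, h2, h3⟩
        refine ⟨w, fun i hi => ?_, fun i hi => ?_, h3⟩
        · rcases Nat.lt_succ_iff_lt_or_eq.1 hi with hi | rfl
          · exact h1 i hi
          · rw [h2 i le_rfl]; simpa using ha
        · rw [h2 i (by omega), Function.update_of_ne (by omega)]
      · rintro ⟨w, h1, h2, h3⟩
        refine ⟨w n, h1 n (Nat.lt_succ_self n), w, fun i hi => h1 i (by omega), fun i hi => ?_, h3⟩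
        by_cases hin : i = n
        · subst hin; simp
        · rw [Function.update_of_ne hin, h2 i (by omega)]

theorem fv_exsN : ∀ (n : ℕ) (φ : Fml), ∀ i ∈ (exsN n φ).fv, i ∈ φ.fv ∧ n ≤ i
  | 0, φ => by simp [exsN]
  | n + 1, φ => by
      intro i hi
      simp only [exsN, Fml.fv, Finset.mem_erase] at hi
      have := fv_exsN n φ i hi.2
      exact ⟨this.1, by omega⟩

/-- The corresponding operation on codes. -/
def exC (n cd : ℕ) : ℕ := Nat.rec cd (fun i r => Nat.pair 4 (Nat.pair i r)) n

theorem exC_code (φ : Fml) : ∀ n : ℕ, exC n φ.code = (exsN n φ).code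
  | 0 => rfl
  | n + 1 => by
    have := exC_code φ n
    simp only [exC] at this ⊢
    simp only [exsN, Fml.code]
    rw [this]

theorem computable_exC {α : Type*} [Primcodable α] {f g : α → ℕ} (hf : Computable f)
    (hg : Computable g) : Computable (fun a => exC (f a) (g a)) := by
  refine Computable.nat_rec (f := f) (g := g)
    (h := fun (_ : α) (p : ℕ × ℕ) => Nat.pair 4 (Nat.pair p.1 p.2)) hf hg ?_
  exact comp_natpair (Computable.const 4) (comp_natpair (Computable.fst.comp Computable.snd)
    (Computable.snd.comp Computable.snd))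

/-! ### Conjunctions of equalities -/

/-- The conjunction of the equalities of `l_i` and `K + i` for `i < n`. -/
def eqsN (l : List ℕ) (K : ℕ) : ℕ → Fml
  | 0 => .eq 0 0
  | n + 1 => .and (.eq (fn l n) (K + n)) (eqsN l K n)

theorem sat_eqsN {A : Str} {l : List ℕ} {K : ℕ} {v : ℕ → ℕ} : ∀ n : ℕ,
    Sat A (eqsN l K n) v ↔ ∀ i < n, v (fn l i) = v (K + i)
  | 0 => by simp [eqsN]
  | n + 1 => by
    simp only [eqsN, sat_and, sat_eq, sat_eqsN n]
    constructor
    · rintro ⟨h1, h2⟩ i hi
      rcases Nat.lt_succ_iff_lt_or_eq.1 hi with hi | rfl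
      · exact h2 i hi
      · exact h1
    · intro h
      exact ⟨h n (Nat.lt_succ_self n), fun i hi => h i (by omega)⟩

theorem fv_eqsN {l : List ℕ} {K : ℕ} : ∀ n : ℕ, ∀ j ∈ (eqsN l K n).fv,
    j = 0 ∨ ∃ i < n, j = fn l i ∨ j = K + i
  | 0 => by simp [eqsN, Fml.fv]
  | n + 1 => by
    intro j hj
    simp only [eqsN, Fml.fv, Finset.mem_union, Finset.mem_insert, Finset.mem_singleton] at hj
    rcases hj with (hj | hj) | hj
    · exact Or.inr ⟨n, Nat.lt_succ_self n, Or.inl hj⟩
    · exact Or.inr ⟨n, Nat.lt_succ_self n, Or.inr hj⟩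
    · rcases fv_eqsN n j hj with h | ⟨i, hi, h⟩
      · exact Or.inl h
      · exact Or.inr ⟨i, by omega, h⟩

/-- The corresponding operation on codes. -/
def eqC (l : List ℕ) (K n : ℕ) : ℕ :=
  Nat.rec (Nat.pair 0 (Nat.pair 0 0))
    (fun i r => Nat.pair 3 (Nat.pair (Nat.pair 0 (Nat.pair (fn l i) (K + i))) r)) n

theorem eqC_code (l : List ℕ) (K : ℕ) : ∀ n : ℕ, eqC l K n = (eqsN l K n).code
  | 0 => rfl
  | n + 1 => by
    have := eqC_code l K n
    simp only [eqC] at this ⊢
    simp only [eqsN, Fml.code]
    rw [this]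

theorem comp_add {α : Type*} [Primcodable α] {f g : α → ℕ} (hf : Computable f)
    (hg : Computable g) : Computable (fun a => f a + g a) :=
  (Primrec.nat_add.to_comp).comp hf hg

theorem computable_eqC {α : Type*} [Primcodable α] {f : α → List ℕ} {g h : α → ℕ}
    (hf : Computable f) (hg : Computable g) (hh : Computable h) :
    Computable (fun a => eqC (f a) (g a) (h a)) := by
  refine Computable.nat_rec (f := h) (g := fun _ => Nat.pair 0 (Nat.pair 0 0))
    (h := fun (a : α) (p : ℕ × ℕ) =>
      Nat.pair 3 (Nat.pair (Nat.pair 0 (Nat.pair (fn (f a) p.1) (g a + p.1))) p.2)) hh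
    (Computable.const _) ?_
  have hi : Computable (fun q : α × (ℕ × ℕ) => q.2.1) := Computable.fst.comp Computable.snd
  refine comp_natpair (Computable.const 3) (comp_natpair (comp_natpair (Computable.const 0)
    (comp_natpair ?_ ?_)) (Computable.snd.comp Computable.snd))
  · exact Computable.fn' (hf.comp Computable.fst) hi
  · exact comp_add (hg.comp Computable.fst) hi

/-! ### The sentence -/

/-- The sentence expressing that some assignment `w` satisfies `θ`, and `w ∘ l` satisfies
`φ`. -/
def nf (θ φ : Fml) (l : List ℕ) (K : ℕ) : Fml :=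
  exsN (K + l.length) (.and θ (.and (eqsN l K l.length)
    (exsN l.length (.and (eqsN (List.range l.length) K l.length) φ))))

/-- The operation on codes. -/
def nfC (q : (ℕ × ℕ) × List ℕ) : ℕ :=
  exC ((q.1.1 + encode q.2 + q.2.length + 1) + q.2.length) (Nat.pair 3 (Nat.pair q.1.1
    (Nat.pair 3 (Nat.pair (eqC q.2 (q.1.1 + encode q.2 + q.2.length + 1) q.2.length)
    (exC q.2.length (Nat.pair 3 (Nat.pair
      (eqC (List.range q.2.length) (q.1.1 + encode q.2 + q.2.length + 1) q.2.length) q.1.2)))))))

theorem computable_nfC : Computable nfC := by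
  have hl : Computable (fun q : (ℕ × ℕ) × List ℕ => q.2) := Computable.snd
  have hn : Computable (fun q : (ℕ × ℕ) × List ℕ => q.2.length) :=
    Computable.list_length.comp Computable.snd
  have h1 : Computable (fun q : (ℕ × ℕ) × List ℕ => q.1.1) := Computable.fst.comp Computable.fst
  have h2 : Computable (fun q : (ℕ × ℕ) × List ℕ => q.1.2) := Computable.snd.comp Computable.fst
  have hK : Computable (fun q : (ℕ × ℕ) × List ℕ => q.1.1 + encode q.2 + q.2.length + 1) :=
    comp_add (comp_add (comp_add h1 (Computable.encode.comp hl)) hn) (Computable.const 1)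
  refine computable_exC (comp_add hK hn) (comp_natpair (Computable.const 3) (comp_natpair h1
    (comp_natpair (Computable.const 3) (comp_natpair (computable_eqC hl hK hn)
    (computable_exC hn (comp_natpair (Computable.const 3) (comp_natpair ?_ h2)))))))
  exact computable_eqC (comp_range hn) hK hn

theorem nfC_code (θ φ : Fml) (l : List ℕ) :
    nfC ((θ.code, φ.code), l) = (nf θ φ l (θ.code + encode l + l.length + 1)).code := by
  rw [nf, ← exC_code]
  simp only [Fml.code, ← exC_code, ← eqC_code]
  rfl

theorem fn_lt_of {l : List ℕ} {K : ℕ} (hK : encode l < K) (i : ℕ) : fn l i < K := by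
  by_cases hi : i < l.length
  · have : fn l i ∈ l := by
      unfold fn
      rw [List.getD_eq_getElem _ _ hi]; exact List.getElem_mem hi
    have := mem_lt_encode this
    omega
  · have : fn l i = 0 := by
      unfold fn
      rw [List.getD_eq_default _ _ (by omega)]
    omega

theorem fn_range {n i : ℕ} (h : i < n) : fn (List.range n) i = i := by
  simp [fn, h]

/-- The sentence with code `nfC` belongs to the elementary diagram iff some assignment `w`
satisfies `θ` and `φ ∘ l`. -/
theorem nfC_mem {A : Str} {θ φ : Fml} {l : List ℕ} (hφ : ∀ i ∈ φ.fv, i < l.length) :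
    Nat.pair (nfC ((θ.code, φ.code), l)) (encode ([] : List ℕ)) ∈ ED A ↔
      ∃ w : ℕ → ℕ, (∀ i, w i ∈ A.dom) ∧ Sat A θ w ∧ Sat A φ (fun i => w (fn l i)) := by
  obtain ⟨K, hK⟩ : ∃ K, K = θ.code + encode l + l.length + 1 := ⟨_, rfl⟩
  rw [nfC_code, ← hK, mem_ED]
  have hθ : ∀ i ∈ θ.fv, i < K := fun i hi => by
    have := fv_le_code θ i hi
    omega
  have hlK : ∀ i, fn l i < K := fun i => fn_lt_of (by omega) i
  have hnK : l.length < K := by omega
  have hfv : ∀ i ∈ (nf θ φ l K).fv, i < ([] : List ℕ).length := by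
    intro i hi
    exfalso
    obtain ⟨h1, h2⟩ := fv_exsN _ _ i hi
    simp only [Fml.fv, Finset.mem_union] at h1
    rcases h1 with h1 | h1 | h1
    · have := hθ i h1; omega
    · rcases fv_eqsN _ i h1 with h | ⟨j, hj, h | h⟩
      · omega
      · have := hlK j; omega
      · omega
    · obtain ⟨h3, h4⟩ := fv_exsN _ _ i h1
      simp only [Fml.fv, Finset.mem_union] at h3
      rcases h3 with h3 | h3
      · rcases fv_eqsN _ i h3 with h | ⟨j, hj, h | h⟩
        · omega
        · rw [fn_range hj] at h; omega
        · omega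
      · have := hφ i h3; omega
  rw [show (fun i => ([] : List ℕ).getD i 0) = fun _ => 0 from funext fun i => by simp]
  have hsat : Sat A (nf θ φ l K) (fun _ => 0) ↔
      ∃ w : ℕ → ℕ, (∀ i, w i ∈ A.dom) ∧ Sat A θ w ∧ Sat A φ (fun i => w (fn l i)) := by
    obtain ⟨d, hd⟩ := A.nonempty
    rw [nf, sat_exsN]
    simp only [sat_and, sat_eqsN, sat_exsN]
    constructor
    · rintro ⟨w, h1, _, h3, h4, w', h5, h6, h7, h8⟩
      refine ⟨fun i => if i < K + l.length then w i else d, fun i => ?_, ?_, ?_⟩
      · by_cases hi : i < K + l.length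
        · simp only [hi, if_true]; exact h1 i hi
        · simp only [hi, if_false]; exact hd
      · refine (sat_congr A θ fun i hi => ?_).1 h3
        have := hθ i hi
        rw [if_pos (by omega)]
      · refine (sat_congr A φ fun i hi => ?_).1 h8
        have hi' := hφ i hi
        have h9 := h7 i hi'
        rw [fn_range hi', h6 (K + i) (by omega), ← h4 i hi'] at h9
        have := hlK i
        beta_reduce
        rw [if_pos (by omega)]
        exact h9
    · rintro ⟨w, h1, h2, h3⟩
      let w0 : ℕ → ℕ := fun j => if j < K then w j else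
        if j < K + l.length then w (fn l (j - K)) else 0
      have e1 : ∀ j < K, w0 j = w j := fun j hj => by simp [w0, hj]
      have e2 : ∀ i < l.length, w0 (K + i) = w (fn l i) := fun i hi => by
        simp only [w0]
        rw [if_neg (by omega), if_pos (by omega), Nat.add_sub_cancel_left]
      refine ⟨w0, fun i hi => ?_, fun i hi => ?_, ?_, fun i hi => ?_, ?_⟩
      · by_cases hiK : i < K
        · rw [e1 i hiK]; exact h1 i
        · have : i = K + (i - K) := by omega
          rw [this, e2 _ (by omega)]; exact h1 _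
      · simp only [w0]
        rw [if_neg (by omega), if_neg (by omega)]
      · exact (sat_congr A θ fun i hi => e1 i (hθ i hi)).2 h2
      · rw [e1 _ (hlK i), e2 i hi]
      · refine ⟨fun j => if j < l.length then w (fn l j) else w0 j, fun i hi => ?_, fun i hi => ?_,
          fun i hi => ?_, ?_⟩
        · simp only [hi, if_true]; exact h1 _
        · beta_reduce
          rw [if_neg (by omega)]
        · beta_reduce
          rw [fn_range hi, if_pos hi, if_neg (by omega), e2 i hi]
        · refine (sat_congr A φ fun i hi => ?_).1 h3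
          rw [if_pos (hφ i hi)]
  constructor
  · rintro ⟨_, _, h⟩
    exact hsat.1 h
  · intro h
    exact ⟨hfv, by simp, hsat.2 h⟩

/-- The number `cd` is a code of a formula with free variables below `n`. -/
def Wf (cd n : ℕ) : Prop := ∃ φ : Fml, cd = φ.code ∧ ∀ i ∈ φ.fv, i < n

theorem wf_iff {A : Str} {cd n : ℕ} : Wf cd n ↔ ∃ w : List ℕ, w.length = n ∧
    (Nat.pair cd (encode w) ∈ ED A ∨ Nat.pair (Nat.pair 2 cd) (encode w) ∈ ED A) := by
  constructor
  · rintro ⟨φ, rfl, hφ⟩
    obtain ⟨a, ha⟩ := A.nonempty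
    refine ⟨List.replicate n a, by simp, ?_⟩
    rw [show Nat.pair 2 φ.code = (Fml.neg φ).code from rfl, mem_ED, mem_ED]
    have h1 : ∀ i ∈ φ.fv, i < (List.replicate n a).length := by simpa using hφ
    have h2 : ∀ x ∈ List.replicate n a, x ∈ A.dom := by
      intro x hx
      rw [List.eq_of_mem_replicate hx]; exact ha
    by_cases h : Sat A φ (fun i => (List.replicate n a).getD i 0)
    · exact Or.inl ⟨h1, h2, h⟩
    · exact Or.inr ⟨h1, h2, h⟩
  · rintro ⟨w, rfl, h | h⟩
    · obtain ⟨φ, l, h1, h2, _, _⟩ := h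
      rw [Nat.pair_eq_pair] at h1
      have := encode_injective h1.2
      subst this
      exact ⟨φ, h1.1, h2⟩
    · obtain ⟨φ, l, h1, h2, _, _⟩ := h
      rw [Nat.pair_eq_pair] at h1
      have := encode_injective h1.2
      subst this
      have h3 := h1.1
      cases φ with
      | neg ψ =>
        simp only [Fml.code, Nat.pair_eq_pair, true_and] at h3
        exact ⟨ψ, h3, h2⟩
      | eq i j => simp [Fml.code] at h3
      | rel r vs => simp [Fml.code] at h3
      | and φ ψ => simp [Fml.code] at h3
      | ex i φ => simp [Fml.code] at h3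

theorem not_wf_iff {A : Str} {cd n : ℕ} : ¬ Wf cd n ↔ ∃ w : List ℕ, w.length = n ∧
    (∀ a ∈ w, a ∈ A.dom) ∧ Nat.pair cd (encode w) ∉ ED A ∧
      Nat.pair (Nat.pair 2 cd) (encode w) ∉ ED A := by
  constructor
  · intro h
    obtain ⟨a, ha⟩ := A.nonempty
    refine ⟨List.replicate n a, by simp, fun x hx => ?_, fun hc => h ?_, fun hc => h ?_⟩
    · rw [List.eq_of_mem_replicate hx]; exact ha
    · exact (wf_iff (A := A)).2 ⟨_, by simp, Or.inl hc⟩
    · exact (wf_iff (A := A)).2 ⟨_, by simp, Or.inr hc⟩
  · rintro ⟨w, rfl, h1, h2, h3⟩ ⟨φ, rfl, hφ⟩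
    rw [show Nat.pair 2 φ.code = (Fml.neg φ).code from rfl] at h3
    rw [mem_ED] at h2 h3
    by_cases h : Sat A φ (fun i => w.getD i 0)
    · exact h2 ⟨hφ, h1, h⟩
    · exact h3 ⟨hφ, h1, h⟩

theorem sg_wf {Z : ℕ → Bool} {A : Str} (h : Sg Z (fun n => n ∈ ED A)) :
    Sg Z (fun p : ℕ × ℕ => Wf p.1 p.2) := by
  have h1 : Sg Z (fun p : ℕ × ℕ => ∃ w : List ℕ, w.length = p.2 ∧
    (Nat.pair p.1 (encode w) ∈ ED A ∨ Nat.pair (Nat.pair 2 p.1) (encode w) ∈ ED A)) := by
    refine Sg.ex (Q := fun (p : ℕ × ℕ) (w : List ℕ) => w.length = p.2 ∧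
      (Nat.pair p.1 (encode w) ∈ ED A ∨ Nat.pair (Nat.pair 2 p.1) (encode w) ∈ ED A)) ?_
    have hcd : Computable (fun q : (ℕ × ℕ) × List ℕ => q.1.1) :=
      Computable.fst.comp Computable.fst
    have hw : Computable (fun q : (ℕ × ℕ) × List ℕ => encode q.2) :=
      Computable.encode.comp Computable.snd
    refine Sg.and (Sg.eq_comp (Computable.list_length.comp Computable.snd)
      (Computable.snd.comp Computable.fst)) (Sg.or ?_ ?_)
    · exact h.comp (comp_natpair hcd hw)
    · exact h.comp (comp_natpair (comp_natpair (Computable.const 2) hcd) hw)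
  exact h1.congr fun p => wf_iff.symm

theorem sg_not_wf {Z : ℕ → Bool} {A : Str} (h : Sg Z (fun n => n ∈ ED A))
    (h' : Sg Z (fun n => n ∉ ED A)) : Sg Z (fun p : ℕ × ℕ => ¬ Wf p.1 p.2) := by
  have h1 : Sg Z (fun p : ℕ × ℕ => ∃ w : List ℕ, w.length = p.2 ∧ (∀ a ∈ w, a ∈ A.dom) ∧
    Nat.pair p.1 (encode w) ∉ ED A ∧ Nat.pair (Nat.pair 2 p.1) (encode w) ∉ ED A) := by
    refine Sg.ex (Q := fun (p : ℕ × ℕ) (w : List ℕ) => w.length = p.2 ∧ (∀ a ∈ w, a ∈ A.dom) ∧
      Nat.pair p.1 (encode w) ∉ ED A ∧ Nat.pair (Nat.pair 2 p.1) (encode w) ∉ ED A) ?_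
    have hcd : Computable (fun q : (ℕ × ℕ) × List ℕ => q.1.1) :=
      Computable.fst.comp Computable.fst
    have hw : Computable (fun q : (ℕ × ℕ) × List ℕ => encode q.2) :=
      Computable.encode.comp Computable.snd
    refine Sg.and (Sg.eq_comp (Computable.list_length.comp Computable.snd)
      (Computable.snd.comp Computable.fst)) (Sg.and ?_ (Sg.and ?_ ?_))
    · exact Sg.ball (Q := fun (_ : (ℕ × ℕ) × List ℕ) a => a ∈ A.dom)
        ((sg_dom h).comp Computable.snd) Computable.snd
    · exact h'.comp (comp_natpair hcd hw)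
    · exact h'.comp (comp_natpair (comp_natpair (Computable.const 2) hcd) hw)
  exact h1.congr fun p => not_wf_iff.symm

end Pool.Agent.H24Q
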