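import Mathlib
import Pool.Agent.H24Q.Code

/-!
The Henkin model of a complete descending sequence of formulas.
-/

set_option autoImplicit false

namespace Pool.Agent.H24Q

open Encodable Pool.Agent.H93PMU Pool.Agent.H24P Pool.Agent.H19

theorem encode_of_decode {k : ℕ} {l : List ℕ} (h : decode (α := List ℕ) k = some l) :
    encode l = k := by
  obtain ⟨a, ha, h'⟩ := Denumerable.decode_inv (α := List ℕ) k
  have e : a = l := by
    have : some a = some l := by rw [← h]; exact ha.symm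
    exact Option.some.inj this
  rw [← e]; exact h'

/-- Henkin sequences of formulas satisfiable in `A`; the variables are the constants. -/
structure HSeq (A : Str) (θ : ℕ → Fml) : Prop where
  sbl : ∀ k, Sbl A (θ k)
  mono : ∀ k w, (∀ i, w i ∈ A.dom) → Sat A (θ (k + 1)) w → Sat A (θ k) w
  hen : ∀ (φ : Fml) (i : ℕ) (l : List ℕ), ∃ k, Frc A (θ k) (.neg (.ex i φ)) (fn l) ∨
    ∃ d, Frc A (θ k) φ (Function.update (fn l) i d)

/-- Truth in the Henkin model, for formulas whose variables are replaced by constants. -/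
def Tr (A : Str) (θ : ℕ → Fml) (φ : Fml) (u : ℕ → ℕ) : Prop := ∃ k, Frc A (θ k) φ u

theorem tr_congr {A : Str} {θ : ℕ → Fml} {φ : Fml} {u u' : ℕ → ℕ} (h : ∀ i ∈ φ.fv, u i = u' i) :
    Tr A θ φ u ↔ Tr A θ φ u' := exists_congr fun _ => frc_congr h

theorem exists_bound (φ : Fml) : ∃ N, ∀ i ∈ φ.fv, i < N :=
  ⟨φ.code + 1, fun i hi => Nat.lt_succ_of_le (fv_le_code φ i hi)⟩

variable {A : Str} {θ : ℕ → Fml} (hθ : HSeq A θ)

include hθ

theorem HSeq.mono' {k n : ℕ} (h : k ≤ n) (w : ℕ → ℕ) (hw : ∀ i, w i ∈ A.dom)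
    (hs : Sat A (θ n) w) : Sat A (θ k) w := by
  induction n, h using Nat.le_induction with
  | base => exact hs
  | succ n _ ih => exact ih (hθ.mono n w hw hs)

theorem HSeq.frc_mono {k n : ℕ} (h : k ≤ n) {φ : Fml} {u : ℕ → ℕ} (hf : Frc A (θ k) φ u) :
    Frc A (θ n) φ u := fun w hw hs => hf w hw (hθ.mono' h w hw hs)

theorem HSeq.consistent {φ : Fml} {u : ℕ → ℕ} (h : Tr A θ φ u) : ¬ Tr A θ (.neg φ) u := by
  rintro ⟨n, hn⟩
  obtain ⟨k, hk⟩ := h
  obtain ⟨w, hw, hs⟩ := hθ.sbl (max k n)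
  exact hθ.frc_mono (le_max_right k n) hn w hw hs (hθ.frc_mono (le_max_left k n) hk w hw hs)

theorem HSeq.complete (φ : Fml) (u : ℕ → ℕ) : Tr A θ φ u ∨ Tr A θ (.neg φ) u := by
  obtain ⟨N, hN⟩ := exists_bound φ
  obtain ⟨k, h | ⟨d, h⟩⟩ := hθ.hen φ N ((List.range N).map u)
  · right
    refine ⟨k, fun w hw hs => ?_⟩
    have h1 := h w hw hs
    simp only [sat_neg, sat_ex, not_exists, not_and] at h1 ⊢
    intro hc
    refine h1 _ (hw 0) ((sat_congr A φ fun i hi => ?_).1 hc)
    have hi' := hN i hi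
    rw [Function.update_of_ne (Nat.ne_of_lt hi'), fn_map_range hi']
  · left
    refine ⟨k, (frc_congr fun i hi => ?_).1 h⟩
    have hi' := hN i hi
    rw [Function.update_of_ne (Nat.ne_of_lt hi'), fn_map_range hi']

theorem HSeq.tr_neg {φ : Fml} {u : ℕ → ℕ} : Tr A θ (.neg φ) u ↔ ¬ Tr A θ φ u :=
  ⟨fun h hc => hθ.consistent hc h, fun h => (hθ.complete φ u).resolve_left h⟩

theorem HSeq.tr_and {φ ψ : Fml} {u : ℕ → ℕ} :
    Tr A θ (.and φ ψ) u ↔ Tr A θ φ u ∧ Tr A θ ψ u := by
  constructor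
  · rintro ⟨k, h⟩
    exact ⟨⟨k, fun w hw hs => (h w hw hs).1⟩, ⟨k, fun w hw hs => (h w hw hs).2⟩⟩
  · rintro ⟨⟨k, h⟩, ⟨n, h'⟩⟩
    exact ⟨max k n, fun w hw hs => ⟨hθ.frc_mono (le_max_left k n) h w hw hs,
      hθ.frc_mono (le_max_right k n) h' w hw hs⟩⟩

omit hθ in
/-- The least equivalent constant condition. -/
def HDom (A : Str) (θ : ℕ → Fml) : Set ℕ := {d | ∀ e < d, ¬ Tr A θ (.eq 0 1) (fn [e, d])}

omit hθ in
theorem tr_eq_iff {i j : ℕ} {u : ℕ → ℕ} : Tr A θ (.eq i j) u ↔
    ∃ k, ∀ w : ℕ → ℕ, (∀ i, w i ∈ A.dom) → Sat A (θ k) w → w (u i) = w (u j) := Iff.rfl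

/-- Every constant is equal to one in the domain. -/
theorem HSeq.exists_rep (d : ℕ) : ∃ e ∈ HDom A θ, Tr A θ (.eq 0 1) (fn [e, d]) := by
  induction d using Nat.strong_induction_on with
  | _ d ih =>
    by_cases h : d ∈ HDom A θ
    · exact ⟨d, h, 0, fun w _ _ => rfl⟩
    · simp only [HDom, Set.mem_ofPred_eq, not_forall, not_not] at h
      obtain ⟨e, he, h⟩ := h
      obtain ⟨e', he', h'⟩ := ih e he
      refine ⟨e', he', ?_⟩
      rw [tr_eq_iff] at h h' ⊢
      obtain ⟨k, hk⟩ := h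
      obtain ⟨n, hn⟩ := h'
      refine ⟨max k n, fun w hw hs => ?_⟩
      have h1 := hk w hw (hθ.mono' (le_max_left k n) w hw hs)
      have h2 := hn w hw (hθ.mono' (le_max_right k n) w hw hs)
      simp only [fn, List.getD_cons_zero, List.getD_cons_succ] at h1 h2 ⊢
      rw [h2, h1]

omit hθ in
theorem dom_eq {d e : ℕ} (hd : d ∈ HDom A θ) (he : e ∈ HDom A θ)
    (h : ∃ k, ∀ w : ℕ → ℕ, (∀ i, w i ∈ A.dom) → Sat A (θ k) w → w d = w e) : d = e := by
  obtain ⟨k, hk⟩ := h
  rcases lt_trichotomy d e with hde | hde | hde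
  · exact absurd ⟨k, fun w hw hs => hk w hw hs⟩ (he d hde)
  · exact hde
  · exact absurd ⟨k, fun w hw hs => (hk w hw hs).symm⟩ (hd e hde)

omit hθ in
/-- The Henkin model. -/
def HM (A : Str) (θ : ℕ → Fml) : Str where
  dom := HDom A θ
  nonempty := ⟨0, fun e he => absurd he (Nat.not_lt_zero e)⟩
  rel := fun r l => Tr A θ (.rel r (List.range l.length)) (fn l)

theorem HSeq.tr_ex {φ : Fml} {i : ℕ} {u : ℕ → ℕ} :
    Tr A θ (.ex i φ) u ↔ ∃ d ∈ HDom A θ, Tr A θ φ (Function.update u i d) := by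
  constructor
  · intro h
    obtain ⟨N, hN⟩ := exists_bound φ
    obtain ⟨k, h1 | ⟨d, h1⟩⟩ := hθ.hen φ i ((List.range N).map u)
    · exfalso
      refine hθ.consistent h ?_
      refine ⟨k, (frc_congr fun j hj => ?_).1 h1⟩
      simp only [Fml.fv, Finset.mem_erase] at hj
      rw [fn_map_range (hN j hj.2)]
    · obtain ⟨e, he, h2⟩ := hθ.exists_rep d
      refine ⟨e, he, ?_⟩
      rw [tr_eq_iff] at h2
      obtain ⟨n, hn⟩ := h2
      refine ⟨max k n, fun w hw hs => ?_⟩
      have h3 := hn w hw (hθ.mono' (le_max_right k n) w hw hs)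
      have h4 := hθ.frc_mono (le_max_left k n) h1 w hw hs
      simp only [fn, List.getD_cons_zero, List.getD_cons_succ] at h3
      refine (sat_congr A φ fun j hj => ?_).1 h4
      by_cases hji : j = i
      · subst hji; simp [h3]
      · rw [Function.update_of_ne hji, Function.update_of_ne hji, fn_map_range (hN j hj)]
  · rintro ⟨d, _, k, h⟩
    refine ⟨k, fun w hw hs => ?_⟩
    rw [sat_ex]
    refine ⟨w d, hw d, (sat_congr A φ fun j _ => ?_).1 (h w hw hs)⟩
    by_cases hji : j = i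
    · subst hji; simp
    · rw [Function.update_of_ne hji, Function.update_of_ne hji]

/-- The truth lemma. -/
theorem HSeq.truth (φ : Fml) : ∀ v : ℕ → ℕ, (∀ i, v i ∈ HDom A θ) →
    (Sat (HM A θ) φ v ↔ Tr A θ φ v) := by
  induction φ with
  | eq i j =>
    intro v hv
    rw [sat_eq, tr_eq_iff]
    constructor
    · intro h
      exact ⟨0, fun w _ _ => by rw [h]⟩
    · intro h
      exact dom_eq (hv i) (hv j) h
  | rel r vs =>
    intro v hv
    rw [sat_rel]
    refine exists_congr fun k => forall_congr' fun w => forall_congr' fun _ =>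
      forall_congr' fun _ => ?_
    rw [sat_rel, sat_rel]
    have : (List.range (vs.map v).length).map (fun i => w (fn (vs.map v) i)) =
        vs.map (fun i => w (v i)) := by
      refine List.ext_getElem (by simp) fun n h1 h2 => ?_
      simp only [List.length_map, List.length_range] at h1
      simp [fn, h1]
    rw [this]
  | neg φ ih =>
    intro v hv
    rw [sat_neg, hθ.tr_neg, ih v hv]
  | and φ ψ ih1 ih2 =>
    intro v hv
    rw [sat_and, hθ.tr_and, ih1 v hv, ih2 v hv]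
  | ex i φ ih =>
    intro v hv
    rw [sat_ex, hθ.tr_ex]
    refine exists_congr fun d => and_congr_right fun hd => ih _ fun j => ?_
    by_cases hji : j = i
    · subst hji; rw [Function.update_self]; exact hd
    · rw [Function.update_of_ne hji]; exact hv j

theorem HSeq.equiv : ElemEquiv A (HM A θ) := by
  intro φ hφ
  rw [sentence_models hφ (fun _ => 0), sentence_models hφ (fun _ => 0),
    hθ.truth φ (fun _ => 0) (fun _ e he => absurd he (Nat.not_lt_zero e))]
  have h : ∀ v w : ℕ → ℕ, (Sat A φ v ↔ Sat A φ w) := fun v w =>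
    sat_congr A φ (by rw [hφ]; simp)
  constructor
  · intro h1
    exact ⟨0, fun w _ _ => (h _ _).1 h1⟩
  · rintro ⟨k, hk⟩
    obtain ⟨w, hw, hs⟩ := hθ.sbl k
    exact (h _ _).1 (hk w hw hs)

omit hθ in
/-- The relation `Frc` is decidable in the elementary diagram. -/
theorem frc_iff {θ φ : Fml} {l : List ℕ} (hφ : ∀ i ∈ φ.fv, i < l.length) :
    Frc A θ φ (fn l) ↔
      Nat.pair (nfC ((θ.code, Nat.pair 2 φ.code), l)) (encode ([] : List ℕ)) ∉ ED A := by
  rw [show Nat.pair 2 φ.code = (Fml.neg φ).code from rfl, nfC_mem (φ := .neg φ) hφ]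
  simp only [not_exists, not_and, sat_neg, not_not]
  rfl

omit hθ in
/-- The truth relation on codes. -/
def TrC (E : Set ℕ) (t : ℕ → ℕ) (cd : ℕ) (l : List ℕ) : Prop :=
  ∃ k, Nat.pair (nfC ((t k, Nat.pair 2 cd), l)) (encode ([] : List ℕ)) ∉ E

omit hθ in
theorem trC_iff {φ : Fml} {l : List ℕ} (hφ : ∀ i ∈ φ.fv, i < l.length) :
    TrC (ED A) (fun k => (θ k).code) φ.code l ↔ Tr A θ φ (fn l) :=
  exists_congr fun _ => (frc_iff hφ).symm

omit hθ in
theorem sg_trC {Z : ℕ → Bool} {E : Set ℕ} (hE : Sg Z (fun n => n ∉ E)) {t : ℕ → ℕ}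
    (ht : Cp Z t) : Sg Z (fun p : ℕ × List ℕ => TrC E t p.1 p.2) := by
  refine Sg.ex (Q := fun (p : ℕ × List ℕ) (k : ℕ) =>
    Nat.pair (nfC ((t k, Nat.pair 2 p.1), p.2)) (encode ([] : List ℕ)) ∉ E) ?_
  have h1 : Cp Z (fun q : (ℕ × List ℕ) × ℕ => (t q.2, q.1)) :=
    (ht.comp (Cp.of_computable Computable.snd)).pair (Cp.of_computable Computable.fst)
  have h2 : Computable (fun z : ℕ × (ℕ × List ℕ) =>
      Nat.pair (nfC ((z.1, Nat.pair 2 z.2.1), z.2.2)) (encode ([] : List ℕ))) := by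
    refine comp_natpair (computable_nfC.comp ?_) (Computable.const _)
    exact (Computable.fst.pair (comp_natpair (Computable.const 2)
      (Computable.fst.comp Computable.snd))).pair (Computable.snd.comp Computable.snd)
  have h3 : Sg Z (fun z : ℕ × (ℕ × List ℕ) =>
      Nat.pair (nfC ((z.1, Nat.pair 2 z.2.1), z.2.2)) (encode ([] : List ℕ)) ∉ E) :=
    Sg.comp (P := fun n => n ∉ E) hE h2
  exact Sg.subst (P := fun z : ℕ × (ℕ × List ℕ) =>
      Nat.pair (nfC ((z.1, Nat.pair 2 z.2.1), z.2.2)) (encode ([] : List ℕ)) ∉ E)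
      (f := fun q : (ℕ × List ℕ) × ℕ => (t q.2, q.1)) h3 h1

/-- The elementary diagram of the Henkin model is computable. -/
theorem HSeq.ed {Z : ℕ → Bool} (hZ : Ar Z (bo (ED A))) (ht : Cp Z (fun k => (θ k).code)) :
    Ar Z (bo (ED (HM A θ))) := by
  rw [ar_bo_iff] at hZ ⊢
  obtain ⟨hE, hE'⟩ := hZ
  have hT := sg_trC hE' ht
  have hT2 : ∀ φ : Fml, (∀ i ∈ φ.fv, i < 2) → Sg Z (fun p : ℕ × ℕ => Tr A θ φ (fn [p.1, p.2])) := by
    intro φ hφ
    have h1 : Sg Z (fun p : ℕ × ℕ => TrC (ED A) (fun k => (θ k).code) φ.code [p.1, p.2]) := by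
      refine hT.comp (f := fun p : ℕ × ℕ => (φ.code, [p.1, p.2])) ?_
      exact (Computable.const _).pair (Computable.list_cons.comp Computable.fst
        (Computable.list_cons.comp Computable.snd (Computable.const [])))
    exact h1.congr fun p => trC_iff (by simpa using hφ)
  have hD : Sg Z (fun d => d ∈ HDom A θ) := by
    have h1 : Sg Z (fun d : ℕ => ∀ e < d, Tr A θ (.neg (.eq 0 1)) (fn [e, d])) := by
      refine Sg.ball_lt (Q := fun (d e : ℕ) => Tr A θ (.neg (.eq 0 1)) (fn [e, d])) ?_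
        Computable.id
      exact (hT2 (.neg (.eq 0 1)) (by simp [Fml.fv])).comp (Computable.snd.pair Computable.fst)
    refine h1.congr fun d => ?_
    simp only [HDom, Set.mem_ofPred_eq, hθ.tr_neg]
  have hD' : Sg Z (fun d => d ∉ HDom A θ) := by
    have h1 : Sg Z (fun d : ℕ => ∃ e < d, Tr A θ (.eq 0 1) (fn [e, d])) := by
      refine Sg.bex_lt (Q := fun (d e : ℕ) => Tr A θ (.eq 0 1) (fn [e, d])) ?_ Computable.id
      exact (hT2 (.eq 0 1) (by simp [Fml.fv])).comp (Computable.snd.pair Computable.fst)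
    refine h1.congr fun d => ?_
    simp only [HDom, Set.mem_ofPred_eq, not_forall, not_not]
    constructor
    · rintro ⟨e, he, h⟩; exact ⟨e, he, h⟩
    · rintro ⟨e, he, h⟩; exact ⟨e, he, h⟩
  have hu1 : Computable (fun p : ℕ × List ℕ => p.1.unpair.1) :=
    Computable.fst.comp (Primrec.unpair.to_comp.comp Computable.fst)
  have hlen : Computable (fun p : ℕ × List ℕ => p.2.length) :=
    Computable.list_length.comp Computable.snd
  have hTl : Sg Z (fun p : ℕ × List ℕ => TrC (ED A) (fun k => (θ k).code) p.1.unpair.1 p.2) :=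
    hT.comp (f := fun p : ℕ × List ℕ => (p.1.unpair.1, p.2)) (hu1.pair Computable.snd)
  have hTl' : Sg Z (fun p : ℕ × List ℕ => TrC (ED A) (fun k => (θ k).code)
      (Nat.pair 2 p.1.unpair.1) p.2) :=
    hT.comp (f := fun p : ℕ × List ℕ => (Nat.pair 2 p.1.unpair.1, p.2))
      ((comp_natpair (Computable.const 2) hu1).pair Computable.snd)
  have hdec : Sg Z (fun p : ℕ × List ℕ => encode p.2 = p.1.unpair.2) :=
    Sg.eq_comp (Computable.encode.comp Computable.snd)
      (Computable.snd.comp (Primrec.unpair.to_comp.comp Computable.fst))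
  have hv : ∀ l : List ℕ, (∀ a ∈ l, a ∈ HDom A θ) →
      ∃ v : ℕ → ℕ, (∀ i, v i ∈ HDom A θ) ∧ ∀ i < l.length, fn l i = v i := by
    intro l hl
    refine ⟨asg l 0, asg_mem hl (fun e he => absurd he (Nat.not_lt_zero e)), fun i _ => rfl⟩
  constructor
  · have h1 : Sg Z (fun n : ℕ => ∃ l : List ℕ, encode l = n.unpair.2 ∧ Wf n.unpair.1 l.length ∧
        (∀ a ∈ l, a ∈ HDom A θ) ∧ TrC (ED A) (fun k => (θ k).code) n.unpair.1 l) := by
      refine Sg.ex (Q := fun (n : ℕ) (l : List ℕ) => encode l = n.unpair.2 ∧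
        Wf n.unpair.1 l.length ∧ (∀ a ∈ l, a ∈ HDom A θ) ∧
        TrC (ED A) (fun k => (θ k).code) n.unpair.1 l) ?_
      refine Sg.and hdec (Sg.and ?_ (Sg.and ?_ hTl))
      · exact (sg_wf hE).comp (f := fun p : ℕ × List ℕ => (p.1.unpair.1, p.2.length))
          (hu1.pair hlen)
      · exact Sg.ball (Q := fun (_ : ℕ × List ℕ) a => a ∈ HDom A θ) (hD.comp Computable.snd)
          Computable.snd
    refine h1.congr fun n => ?_
    constructor
    · rintro ⟨l, h2, ⟨φ, h3, h4⟩, h5, h6⟩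
      rw [h3, trC_iff h4] at h6
      obtain ⟨v, hv1, hv2⟩ := hv l h5
      refine ⟨φ, l, ?_, h4, h5, ?_⟩
      · rw [← h3, h2, Nat.pair_unpair]
      · rw [tr_congr (u' := v) fun i hi => hv2 i (h4 i hi), ← hθ.truth φ v hv1] at h6
        exact (sat_congr _ φ fun i hi => (hv2 i (h4 i hi)).symm).1 h6
    · rintro ⟨φ, l, rfl, h4, h5, h6⟩
      simp only [Nat.unpair_pair]
      refine ⟨l, rfl, ⟨φ, rfl, h4⟩, h5, ?_⟩
      rw [trC_iff h4]
      obtain ⟨v, hv1, hv2⟩ := hv l h5
      rw [tr_congr (u' := v) fun i hi => hv2 i (h4 i hi), ← hθ.truth φ v hv1]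
      exact (sat_congr _ φ fun i hi => (hv2 i (h4 i hi)).symm).2 h6
  · have h1 : Sg Z (fun n : ℕ => ((decode (α := List ℕ) n.unpair.2).isSome = false) ∨
        ∃ l : List ℕ, encode l = n.unpair.2 ∧ (¬ Wf n.unpair.1 l.length ∨
        (∃ a ∈ l, a ∉ HDom A θ) ∨ (Wf n.unpair.1 l.length ∧
          TrC (ED A) (fun k => (θ k).code) (Nat.pair 2 n.unpair.1) l))) := by
      refine Sg.or (Sg.eq_comp (Primrec.option_isSome.to_comp.comp (Computable.decode.comp
        (Computable.snd.comp Primrec.unpair.to_comp))) (Computable.const false)) ?_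
      refine Sg.ex (Q := fun (n : ℕ) (l : List ℕ) => encode l = n.unpair.2 ∧
        (¬ Wf n.unpair.1 l.length ∨ (∃ a ∈ l, a ∉ HDom A θ) ∨ (Wf n.unpair.1 l.length ∧
          TrC (ED A) (fun k => (θ k).code) (Nat.pair 2 n.unpair.1) l))) ?_
      refine Sg.and hdec (Sg.or ?_ (Sg.or ?_ (Sg.and ?_ hTl')))
      · exact (sg_not_wf hE hE').comp (f := fun p : ℕ × List ℕ => (p.1.unpair.1, p.2.length))
          (hu1.pair hlen)
      · exact Sg.bex (Q := fun (_ : ℕ × List ℕ) a => a ∉ HDom A θ) (hD'.comp Computable.snd)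
          Computable.snd
      · exact (sg_wf hE).comp (f := fun p : ℕ × List ℕ => (p.1.unpair.1, p.2.length))
          (hu1.pair hlen)
    refine h1.congr fun n => ?_
    constructor
    · rintro h ⟨φ, l, rfl, h4, h5, h6⟩
      simp only [Nat.unpair_pair, encodek, Option.isSome_some, Bool.true_eq_false, false_or] at h
      obtain ⟨l', h7, h8⟩ := h
      have := encode_injective h7
      subst this
      rcases h8 with h8 | ⟨a, ha, h8⟩ | ⟨_, h8⟩
      · exact h8 ⟨φ, rfl, h4⟩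
      · exact h8 (h5 a ha)
      · rw [show Nat.pair 2 φ.code = (Fml.neg φ).code from rfl, trC_iff (φ := .neg φ) h4] at h8
        obtain ⟨v, hv1, hv2⟩ := hv l' h5
        rw [tr_congr (φ := .neg φ) (u' := v) fun i hi => hv2 i (h4 i hi),
          ← hθ.truth (.neg φ) v hv1] at h8
        exact h8 ((sat_congr _ φ fun i hi => hv2 i (h4 i hi)).1 h6)
    · intro h
      cases hd : decode (α := List ℕ) n.unpair.2 with
      | none => left; rfl
      | some l =>
        right
        have h2 : encode l = n.unpair.2 := encode_of_decode hd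
        refine ⟨l, h2, ?_⟩
        by_cases h3 : Wf n.unpair.1 l.length
        · by_cases h4 : ∀ a ∈ l, a ∈ HDom A θ
          · right; right
            refine ⟨h3, ?_⟩
            obtain ⟨φ, h5, h6⟩ := h3
            rw [h5, show Nat.pair 2 φ.code = (Fml.neg φ).code from rfl,
              trC_iff (φ := .neg φ) h6]
            obtain ⟨v, hv1, hv2⟩ := hv l h4
            rw [tr_congr (φ := .neg φ) (u' := v) fun i hi => hv2 i (h6 i hi),
              ← hθ.truth (.neg φ) v hv1]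
            intro hc
            refine h ⟨φ, l, ?_, h6, h4, (sat_congr _ φ fun i hi => hv2 i (h6 i hi)).2 hc⟩
            rw [← h5, h2, Nat.pair_unpair]
          · right; left
            push Not at h4
            exact h4
        · left; exact h3

end Pool.Agent.H24Q
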