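import Mathlib
import Pool.Agent.H24Q.Henkin

/-!
The formula attached to a binary string, and Henkin models given by generic sequences.
-/

set_option autoImplicit false

namespace Pool.Agent.H24Q

open Encodable Pool.Agent.H93PMU Pool.Agent.H24P Pool.Agent.H19

/-- The formula with a given code, if there is one. -/
noncomputable def fmlOf (cd : ℕ) : Option Fml := by
  classical exact if h : ∃ φ : Fml, φ.code = cd then some h.choose else none

theorem fmlOf_code (φ : Fml) : fmlOf φ.code = some φ := by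
  have h : ∃ ψ : Fml, ψ.code = φ.code := ⟨φ, rfl⟩
  rw [fmlOf, dif_pos h]
  exact congrArg some (code_injective h.choose_spec)

theorem fmlOf_none {cd : ℕ} (h : ¬ Wf cd (cd + 1)) : fmlOf cd = none := by
  rw [fmlOf, dif_neg]
  rintro ⟨φ, rfl⟩
  exact h ⟨φ, rfl, fun i hi => Nat.lt_succ_of_le (fv_le_code φ i hi)⟩

/-- One step: with the bit `b = true`, add the formula with code `k.unpair.1`, if possible. -/
noncomputable def stepF (A : Str) (k : ℕ) (θ : Fml) (b : Bool) : Fml := by
  classical exact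
    match fmlOf k.unpair.1 with
    | none => θ
    | some χ => if b = true ∧ Sbl A (.and θ χ) then .and θ χ else θ

/-- The formula of a string. -/
noncomputable def th (A : Str) (σ : List Bool) : Fml :=
  (σ.foldl (fun (p : ℕ × Fml) b => (p.1 + 1, stepF A p.1 p.2 b)) (0, .eq 0 0)).2

variable {A : Str}

theorem th_nil : th A [] = .eq 0 0 := rfl

theorem fold_fst (σ : List Bool) : ∀ p : ℕ × Fml,
    (σ.foldl (fun (p : ℕ × Fml) b => (p.1 + 1, stepF A p.1 p.2 b)) p).1 = p.1 + σ.length := by
  induction σ with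
  | nil => intro p; simp
  | cons b σ ih =>
    intro p
    rw [List.foldl_cons, ih]
    simp only [List.length_cons]
    omega

theorem th_snoc (σ : List Bool) (b : Bool) :
    th A (σ ++ [b]) = stepF A σ.length (th A σ) b := by
  have h := fold_fst (A := A) σ (0, .eq 0 0)
  simp only [Nat.zero_add] at h
  simp only [th, List.foldl_append, List.foldl_cons, List.foldl_nil, h]

theorem stepF_cases (k : ℕ) (θ : Fml) (b : Bool) : stepF A k θ b = θ ∨
    ∃ χ, stepF A k θ b = .and θ χ ∧ Sbl A (.and θ χ) := by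
  unfold stepF
  cases fmlOf k.unpair.1 with
  | none => exact Or.inl rfl
  | some χ =>
    by_cases h : b = true ∧ Sbl A (.and θ χ)
    · right
      refine ⟨χ, ?_, h.2⟩
      simp only [h, and_self, if_true]
    · left
      simp only [h, if_false]

theorem stepF_false (k : ℕ) (θ : Fml) : stepF A k θ false = θ := by
  unfold stepF
  cases fmlOf k.unpair.1 <;> simp

theorem stepF_true {k : ℕ} {θ χ : Fml} (hk : k.unpair.1 = χ.code) (h : Sbl A (.and θ χ)) :
    stepF A k θ true = .and θ χ := by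
  unfold stepF
  rw [hk, fmlOf_code]
  simp [h]

theorem stepF_le {k : ℕ} {θ : Fml} {b : Bool} {w : ℕ → ℕ} (h : Sat A (stepF A k θ b) w) :
    Sat A θ w := by
  rcases stepF_cases (A := A) k θ b with h1 | ⟨χ, h1, _⟩
  · rwa [h1] at h
  · rw [h1] at h; exact h.1

theorem stepF_sbl {k : ℕ} {θ : Fml} {b : Bool} (h : Sbl A θ) : Sbl A (stepF A k θ b) := by
  rcases stepF_cases (A := A) k θ b with h1 | ⟨χ, h1, h2⟩
  · rwa [h1]
  · rwa [h1]

theorem th_sbl (σ : List Bool) : Sbl A (th A σ) := by
  induction σ using List.reverseRecOn with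
  | nil =>
    obtain ⟨a, ha⟩ := A.nonempty
    exact ⟨fun _ => a, fun _ => ha, rfl⟩
  | append_singleton σ b ih =>
    rw [th_snoc]; exact stepF_sbl ih

theorem th_mono {σ τ : List Bool} (h : σ <+: τ) {w : ℕ → ℕ} (hs : Sat A (th A τ) w) :
    Sat A (th A σ) w := by
  obtain ⟨t, rfl⟩ := h
  induction t using List.reverseRecOn with
  | nil => rwa [List.append_nil] at hs
  | append_singleton t b ih =>
    rw [← List.append_assoc, th_snoc] at hs
    exact ih (stepF_le hs)

theorem th_false (σ : List Bool) (n : ℕ) : th A (σ ++ List.replicate n false) = th A σ := by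
  induction n with
  | zero => simp
  | succ n ih =>
    rw [List.replicate_succ', ← List.append_assoc, th_snoc, stepF_false, ih]

/-- Every formula compatible with the formula of a string can be added. -/
theorem th_ext (σ : List Bool) {χ : Fml} (h : Sbl A (.and (th A σ) χ)) :
    ∃ τ, σ <+: τ ∧ th A τ = .and (th A σ) χ := by
  have hk : σ.length ≤ Nat.pair χ.code σ.length := Nat.right_le_pair _ _
  refine ⟨(σ ++ List.replicate (Nat.pair χ.code σ.length - σ.length) false) ++ [true],
    (List.prefix_append _ _).trans (List.prefix_append _ _), ?_⟩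
  rw [th_snoc, th_false]
  refine stepF_true ?_ h
  simp only [List.length_append, List.length_replicate]
  rw [Nat.add_sub_cancel' hk, Nat.unpair_pair]

/-! ### Computability -/

/-- The code of the sentence deciding satisfiability. -/
def sc (p : ℕ × ℕ) : ℕ := Nat.pair (nfC (p, List.range (p.2 + 1))) (encode ([] : List ℕ))

theorem computable_sc : Computable sc :=
  comp_natpair (computable_nfC.comp (Computable.id.pair (comp_range
    (Computable.succ.comp Computable.snd)))) (Computable.const _)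

theorem sc_mem {θ χ : Fml} : sc (θ.code, χ.code) ∈ ED A ↔ Sbl A (.and θ χ) := by
  have hχ : ∀ i ∈ χ.fv, i < (List.range (χ.code + 1)).length := fun i hi => by
    have := fv_le_code χ i hi
    rw [List.length_range]; omega
  rw [sc, nfC_mem hχ]
  refine exists_congr fun w => and_congr_right fun _ => and_congr_right fun _ =>
    sat_congr A χ fun i hi => ?_
  have := hχ i hi
  rw [List.length_range] at this
  rw [fn_range this]

/-- The step on codes; `q = ((k, cd), (b, cd'))`. -/
def StepC (A : Str) (q : (ℕ × ℕ) × (Bool × ℕ)) : Prop :=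
  (q.2.1 = false ∧ q.2.2 = q.1.2) ∨
  (q.2.1 = true ∧ ¬ Wf q.1.1.unpair.1 (q.1.1.unpair.1 + 1) ∧ q.2.2 = q.1.2) ∨
  (q.2.1 = true ∧ Wf q.1.1.unpair.1 (q.1.1.unpair.1 + 1) ∧
    sc (q.1.2, q.1.1.unpair.1) ∉ ED A ∧ q.2.2 = q.1.2) ∨
  (q.2.1 = true ∧ Wf q.1.1.unpair.1 (q.1.1.unpair.1 + 1) ∧
    sc (q.1.2, q.1.1.unpair.1) ∈ ED A ∧
    q.2.2 = Nat.pair 3 (Nat.pair q.1.2 q.1.1.unpair.1))

theorem stepC_iff {k : ℕ} {θ : Fml} {b : Bool} {cd : ℕ} :
    StepC A ((k, θ.code), (b, cd)) ↔ cd = (stepF A k θ b).code := by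
  unfold StepC
  simp only
  cases b with
  | false => simp [stepF_false]
  | true =>
    by_cases h : Wf k.unpair.1 (k.unpair.1 + 1)
    · obtain ⟨χ, h1, _⟩ := id h
      by_cases h2 : Sbl A (.and θ χ)
      · have h3 := sc_mem.2 h2
        rw [stepF_true h1 h2]
        rw [h1] at h ⊢
        simp [h, h3, Fml.code]
      · have h3 := (not_congr sc_mem).2 h2
        rw [← h1] at h3
        have h4 : stepF A k θ true = θ := by
          unfold stepF
          rw [h1, fmlOf_code]
          simp [h2]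
        rw [h4]
        simp [h, h3]
    · have h4 : stepF A k θ true = θ := by
        unfold stepF
        rw [fmlOf_none h]
      rw [h4]
      simp [h]

theorem sg_stepC {Z : ℕ → Bool} (hE : Sg Z (fun n => n ∈ ED A)) (hE' : Sg Z (fun n => n ∉ ED A)) :
    Sg Z (StepC A) := by
  have hb : Computable (fun q : (ℕ × ℕ) × (Bool × ℕ) => q.2.1) := Computable.fst.comp Computable.snd
  have hc : Computable (fun q : (ℕ × ℕ) × (Bool × ℕ) => q.2.2) := Computable.snd.comp Computable.snd
  have hd : Computable (fun q : (ℕ × ℕ) × (Bool × ℕ) => q.1.2) := Computable.snd.comp Computable.fst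
  have hk : Computable (fun q : (ℕ × ℕ) × (Bool × ℕ) => q.1.1.unpair.1) :=
    Computable.fst.comp (Primrec.unpair.to_comp.comp (Computable.fst.comp Computable.fst))
  have hw : Computable (fun q : (ℕ × ℕ) × (Bool × ℕ) => (q.1.1.unpair.1, q.1.1.unpair.1 + 1)) :=
    hk.pair (Computable.succ.comp hk)
  have hs : Computable (fun q : (ℕ × ℕ) × (Bool × ℕ) => sc (q.1.2, q.1.1.unpair.1)) :=
    computable_sc.comp (hd.pair hk)
  have w1 : Sg Z (fun q : (ℕ × ℕ) × (Bool × ℕ) =>
      Wf q.1.1.unpair.1 (q.1.1.unpair.1 + 1)) := Sg.comp (sg_wf hE) hw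
  have w2 : Sg Z (fun q : (ℕ × ℕ) × (Bool × ℕ) =>
      ¬ Wf q.1.1.unpair.1 (q.1.1.unpair.1 + 1)) := Sg.comp (sg_not_wf hE hE') hw
  have s1 : Sg Z (fun q : (ℕ × ℕ) × (Bool × ℕ) => sc (q.1.2, q.1.1.unpair.1) ∈ ED A) :=
    Sg.comp (P := fun n => n ∈ ED A) hE hs
  have s2 : Sg Z (fun q : (ℕ × ℕ) × (Bool × ℕ) => sc (q.1.2, q.1.1.unpair.1) ∉ ED A) :=
    Sg.comp (P := fun n => n ∉ ED A) hE' hs
  have ht := Sg.eq_comp (Z := Z) hb (Computable.const true)
  have he := Sg.eq_comp (Z := Z) hc hd
  refine Sg.or (Sg.and (Sg.eq_comp hb (Computable.const false)) he) (Sg.or (Sg.and ht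
    (Sg.and w2 he)) (Sg.or (Sg.and ht (Sg.and w1 (Sg.and s2 he))) (Sg.and ht (Sg.and w1
    (Sg.and s1 (Sg.eq_comp hc ?_))))))
  exact comp_natpair (Computable.const 3) (comp_natpair hd hk)

theorem cp_th {Z : ℕ → Bool} (hZ : Ar Z (bo (ED A))) : Cp Z (fun σ => (th A σ).code) := by
  rw [ar_bo_iff] at hZ
  obtain ⟨hE, hE'⟩ := hZ
  let J : List (List Bool × ℕ) → List Bool × ℕ → Prop := fun l e =>
    (e.1 = [] ∧ e.2 = (Fml.eq 0 0).code) ∨ ∃ p ∈ l, ∃ b : Bool, e.1 = p.1 ++ [b] ∧
      StepC A ((p.1.length, p.2), (b, e.2))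
  have hJ : Sg Z (fun p : List (List Bool × ℕ) × (List Bool × ℕ) => J p.1 p.2) := by
    refine Sg.or (Sg.and (Sg.eq_comp (Computable.fst.comp Computable.snd) (Computable.const []))
      (Sg.eq_comp (Computable.snd.comp Computable.snd) (Computable.const _))) ?_
    refine Sg.bex (Q := fun (q : List (List Bool × ℕ) × (List Bool × ℕ)) (p : List Bool × ℕ) =>
      ∃ b : Bool, q.2.1 = p.1 ++ [b] ∧ StepC A ((p.1.length, p.2), (b, q.2.2))) ?_ Computable.fst
    refine Sg.ex (Q := fun (q : (List (List Bool × ℕ) × (List Bool × ℕ)) × (List Bool × ℕ))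
      (b : Bool) => q.1.2.1 = q.2.1 ++ [b] ∧ StepC A ((q.2.1.length, q.2.2), (b, q.1.2.2))) ?_
    refine Sg.and (Sg.eq_comp (Computable.fst.comp (Computable.snd.comp (Computable.fst.comp
      Computable.fst))) (Computable.list_append.comp (Computable.fst.comp (Computable.snd.comp
      Computable.fst)) (Computable.list_cons.comp Computable.snd (Computable.const [])))) ?_
    refine Sg.comp (P := StepC A) (f := fun q : ((List (List Bool × ℕ) × (List Bool × ℕ)) ×
      (List Bool × ℕ)) × Bool => ((q.1.2.1.length, q.1.2.2), (q.2, q.1.1.2.2)))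
      (sg_stepC hE hE') ?_
    exact ((Computable.list_length.comp (Computable.fst.comp (Computable.snd.comp
      Computable.fst))).pair (Computable.snd.comp (Computable.snd.comp Computable.fst))).pair
      (Computable.snd.pair (Computable.snd.comp (Computable.snd.comp (Computable.fst.comp
      Computable.fst))))
  refine (Sg.der hJ).congr fun e => ?_
  constructor
  · intro h
    induction h with
    | mk l e h hJe ih =>
      rcases hJe with ⟨h1, h2⟩ | ⟨p, hp, b, h1, h2⟩
      · rw [h1, h2]; rfl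
      · have h3 := ih p hp
        beta_reduce
        rw [h1, th_snoc]
        rw [← h3, stepC_iff] at h2
        exact h2.symm
  · obtain ⟨σ, cd⟩ := e
    intro h
    simp only at h
    subst h
    induction σ using List.reverseRecOn with
    | nil => exact Der.mk [] _ (by simp) (Or.inl ⟨rfl, rfl⟩)
    | append_singleton σ b ih =>
      refine Der.mk [(σ, (th A σ).code)] _ (by simpa using ih)
        (Or.inr ⟨(σ, (th A σ).code), by simp, b, rfl, ?_⟩)
      simp only
      rw [stepC_iff, th_snoc]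

/-! ### Density -/

/-- The Henkin set. -/
def HenS (A : Str) (φ : Fml) (i : ℕ) (l : List ℕ) : Set (List Bool) :=
  {σ | Frc A (th A σ) (.neg (.ex i φ)) (fn l) ∨
    ∃ d, Frc A (th A σ) φ (Function.update (fn l) i d)}

theorem henS_dense (φ : Fml) (i : ℕ) (l : List ℕ) (σ : List Bool) :
    ∃ τ, σ <+: τ ∧ τ ∈ HenS A φ i l := by
  by_cases h : Frc A (th A σ) (.neg (.ex i φ)) (fn l)
  · exact ⟨σ, List.prefix_rfl, Or.inl h⟩
  · simp only [Frc, not_forall, sat_neg, not_not, sat_ex] at h
    obtain ⟨w, hw, hs, a, ha, hφ⟩ := h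
    obtain ⟨d, hd1, hd2⟩ : ∃ d, (∀ i ∈ (th A σ).fv, i < d) ∧ ∀ i, fn l i < d :=
      ⟨(th A σ).code + encode l + 1, fun i hi => by
        have := fv_le_code _ i hi
        omega, fun i => fn_lt_of (by omega) i⟩
    obtain ⟨χ, _, h2⟩ := exists_subst φ (Function.update (fn l) i d)
    have h3 : Sbl A (.and (th A σ) χ) := by
      refine ⟨Function.update w d a, fun j => ?_, ?_, ?_⟩
      · by_cases hj : j = d
        · subst hj; simpa using ha
        · rw [Function.update_of_ne hj]; exact hw j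
      · refine (sat_congr A _ fun j hj => ?_).1 hs
        rw [Function.update_of_ne (Nat.ne_of_lt (hd1 j hj))]
      · rw [h2]
        refine (sat_congr A φ fun j _ => ?_).1 hφ
        by_cases hj : j = i
        · subst hj; simp
        · rw [Function.update_of_ne hj, Function.update_of_ne hj,
            Function.update_of_ne (Nat.ne_of_lt (hd2 j))]
    obtain ⟨τ, h4, h5⟩ := th_ext σ h3
    refine ⟨τ, h4, Or.inr ⟨d, fun w' _ hs' => ?_⟩⟩
    rw [h5] at hs'
    exact (h2 A w').1 hs'.2

/-- The sequence `G` decides the set `U` of strings. -/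
def Dec (G : ℕ → Bool) (U : Set (List Bool)) : Prop :=
  (∃ k, pre G k ∈ U) ∨ ∃ k, ∀ τ, pre G k <+: τ → τ ∉ U

theorem Dec.dense {G : ℕ → Bool} {U : Set (List Bool)} (h : Dec G U)
    (hU : ∀ σ, ∃ τ, σ <+: τ ∧ τ ∈ U) : ∃ k, pre G k ∈ U := by
  rcases h with h | ⟨k, h⟩
  · exact h
  · obtain ⟨τ, h1, h2⟩ := hU (pre G k)
    exact absurd h2 (h τ h1)

theorem hseq_of_dec {G : ℕ → Bool} (h : ∀ φ i l, Dec G (HenS A φ i l)) :
    HSeq A (fun k => th A (pre G k)) where
  sbl := fun k => th_sbl _
  mono := fun _ _ _ hs => th_mono (pre_mono G (Nat.le_succ _)) hs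
  hen := fun φ i l => (h φ i l).dense (henS_dense φ i l)

theorem cp_th_pre {W G : ℕ → Bool} (hW : Ar W (bo (ED A))) (hG : Ar W G) :
    Cp W (fun k => (th A (pre G k)).code) :=
  (cp_th hW).comp (((Cp.pre G).trans hG))

end Pool.Agent.H24Q
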