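import Mathlib
import Pool.Agent.H24Q.Cond

/-!
Generic sequences, and the descent lemma.
-/

set_option autoImplicit false

namespace Pool.Agent.H24Q

open Encodable Pool.Agent.H93PMU Pool.Agent.H24P Pool.Agent.H19

/-! ### Existence of generic sequences -/

/-- A countable family of sets of strings has a sequence deciding all its members. -/
theorem exists_generic {S : Set (Set (List Bool))} (hS : S.Countable) :
    ∃ G : ℕ → Bool, ∀ U ∈ S, Dec G U := by
  rcases S.eq_empty_or_nonempty with rfl | hne
  · exact ⟨fun _ => false, by simp⟩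
  obtain ⟨U, hU⟩ := hS.exists_eq_range hne
  -- extend a string into `U n`, if possible, and then by one more bit
  let nx : ℕ → List Bool → List Bool := fun n σ => by
    classical exact (if h : ∃ τ, σ <+: τ ∧ τ ∈ U n then h.choose else σ) ++ [false]
  have hnx : ∀ n σ, σ <+: nx n σ := by
    intro n σ
    simp only [nx]
    by_cases h : ∃ τ, σ <+: τ ∧ τ ∈ U n
    · rw [dif_pos h]; exact h.choose_spec.1.trans (List.prefix_append _ _)
    · rw [dif_neg h]; exact List.prefix_append _ _
  have hlen : ∀ n σ, σ.length < (nx n σ).length := by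
    intro n σ
    simp only [nx]
    by_cases h : ∃ τ, σ <+: τ ∧ τ ∈ U n
    · rw [dif_pos h, List.length_append]
      have := h.choose_spec.1.length_le
      simp only [List.length_singleton]
      omega
    · rw [dif_neg h, List.length_append]
      simp
  let s : ℕ → List Bool := fun n => Nat.rec [] (fun n σ => nx n σ) n
  have hs : ∀ n, s (n + 1) = nx n (s n) := fun n => rfl
  have hmono : ∀ n k, n ≤ k → s n <+: s k := by
    intro n k h
    induction k, h using Nat.le_induction with
    | base => exact List.prefix_rfl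
    | succ k _ ih => rw [hs]; exact ih.trans (hnx _ _)
  have hsl : ∀ n, n ≤ (s n).length := by
    intro n
    induction n with
    | zero => simp
    | succ n ih => rw [hs]; have := hlen n (s n); omega
  let G : ℕ → Bool := fun n => (s (n + 1)).getD n false
  have hG : ∀ n, pre G (s n).length = s n := by
    intro n
    refine List.ext_getElem (pre_length _ _) fun i h1 h2 => ?_
    simp only [pre, List.getElem_map, List.getElem_range, G]
    have h3 : i < (s (i + 1)).length := lt_of_lt_of_le (Nat.lt_succ_self i) (hsl (i + 1))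
    rw [List.getD_eq_getElem _ _ h3]
    rcases le_total n (i + 1) with h | h
    · obtain ⟨t, ht⟩ := hmono _ _ h
      simp only [← ht]
      rw [List.getElem_append_left h2]
    · obtain ⟨t, ht⟩ := hmono _ _ h
      simp only [← ht]
      rw [List.getElem_append_left h3]
  refine ⟨G, fun V hV => ?_⟩
  rw [hU] at hV
  obtain ⟨n, rfl⟩ := hV
  rcases Classical.em (∃ τ : List Bool, s n <+: τ ∧ τ ∈ U n) with h | h
  · left
    refine ⟨h.choose.length, ?_⟩
    have h1 : h.choose <+: s (n + 1) := by
      rw [hs]
      simp only [nx]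
      rw [dif_pos h]
      exact List.prefix_append _ _
    have h2 : pre G h.choose.length = h.choose := by
      rw [← hG (n + 1)] at h1
      exact ((prefix_pre_iff G).1 h1).2.symm
    rw [h2]; exact h.choose_spec.2
  · right
    refine ⟨(s n).length, fun τ hτ hc => h ⟨τ, ?_, hc⟩⟩
    rw [hG] at hτ
    exact hτ

/-! ### Joins of sequences -/

/-- The join of two binary sequences. -/
def jn (Z G : ℕ → Bool) : ℕ → Bool := fun k => if k % 2 = 0 then Z (k / 2) else G (k / 2)

theorem ar_jn_left (Z G : ℕ → Bool) : Ar (jn Z G) Z := by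
  have hc : Computable (fun n : ℕ => 2 * n) :=
    (Primrec.nat_mul.comp (Primrec.const 2) Primrec.id).to_comp
  have h : ∀ n, jn Z G (2 * n) = Z n := fun n => by
    simp only [jn]
    rw [if_pos (by omega), show 2 * n / 2 = n by omega]
  exact ⟨((Sg.oracle (jn Z G) true).comp hc).congr fun n => by rw [h],
    ((Sg.oracle (jn Z G) false).comp hc).congr fun n => by rw [h]⟩

theorem ar_jn_right (Z G : ℕ → Bool) : Ar (jn Z G) G := by
  have hc : Computable (fun n : ℕ => 2 * n + 1) :=
    Computable.succ.comp (Primrec.nat_mul.comp (Primrec.const 2) Primrec.id).to_comp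
  have h : ∀ n, jn Z G (2 * n + 1) = G n := fun n => by
    simp only [jn]
    rw [if_neg (by omega), show (2 * n + 1) / 2 = n by omega]
  exact ⟨((Sg.oracle (jn Z G) true).comp hc).congr fun n => by rw [h],
    ((Sg.oracle (jn Z G) false).comp hc).congr fun n => by rw [h]⟩

/-! ### Convergence of computations -/

/-- The sequence extending a string by zeros. -/
def ext0 (σ : List Bool) : ℕ → Bool := fun i => σ.getD i false

/-- The computation `H` with input `n` and oracle `jn Z _` gives `v`, using only the bits of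
`σ`. -/
def cv (H : ℕ × ℕ → List Bool → Bool) (Z : ℕ → Bool) (σ : List Bool) (n v : ℕ) : Prop :=
  ∃ s ≤ 2 * σ.length, H (n, v) (pre (jn Z (ext0 σ)) s) = true

theorem pre_congr {X Y : ℕ → Bool} {s : ℕ} (h : ∀ k < s, X k = Y k) : pre X s = pre Y s := by
  unfold pre
  exact List.map_congr_left fun k hk => h k (List.mem_range.1 hk)

theorem cv_mono {H : ℕ × ℕ → List Bool → Bool} {Z : ℕ → Bool} {σ τ : List Bool} {n v : ℕ}
    (h : σ <+: τ) (hc : cv H Z σ n v) : cv H Z τ n v := by
  obtain ⟨s, hs, hH⟩ := hc
  refine ⟨s, hs.trans (Nat.mul_le_mul_left 2 h.length_le), ?_⟩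
  rw [← hH]
  refine congrArg _ (pre_congr fun k hk => ?_)
  simp only [jn]
  by_cases h2 : k % 2 = 0
  · simp [h2]
  · rw [if_neg h2, if_neg h2]
    obtain ⟨t, rfl⟩ := h
    have : k / 2 < σ.length := by omega
    unfold ext0
    exact List.getD_append _ _ _ _ this

theorem cv_pre {H : ℕ × ℕ → List Bool → Bool} {Z G : ℕ → Bool} {n v : ℕ} :
    (∃ k, cv H Z (pre G k) n v) ↔ ∃ s, H (n, v) (pre (jn Z G) s) = true := by
  have key : ∀ k s, s ≤ 2 * k → pre (jn Z (ext0 (pre G k))) s = pre (jn Z G) s := by
    intro k s hs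
    refine pre_congr fun j hj => ?_
    simp only [jn]
    by_cases h2 : j % 2 = 0
    · simp [h2]
    · rw [if_neg h2, if_neg h2]
      have : j / 2 < k := by omega
      unfold ext0
      exact pre_getD G this false
  constructor
  · rintro ⟨k, s, hs, hH⟩
    rw [pre_length] at hs
    rw [key k s hs] at hH
    exact ⟨s, hH⟩
  · rintro ⟨s, hs⟩
    refine ⟨s, s, by rw [pre_length]; omega, ?_⟩
    rw [key s s (by omega)]
    exact hs

theorem sg_cv {H : ℕ × ℕ → List Bool → Bool} (hH : Computable₂ H) (Z : ℕ → Bool) :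
    Sg Z (fun q : List Bool × (ℕ × ℕ) => cv H Z q.1 q.2.1 q.2.2) := by
  let J : (List Bool × List Bool) × ℕ → List Bool := fun p =>
    (List.range p.2).map fun k => if decide (k % 2 = 0) = true then p.1.1.getD (k / 2) false
      else p.1.2.getD (k / 2) false
  have hJ : Computable J := by
    refine comp_list_map (f := fun p : (List Bool × List Bool) × ℕ => List.range p.2)
      (g := fun (p : (List Bool × List Bool) × ℕ) k => if decide (k % 2 = 0) = true then
        p.1.1.getD (k / 2) false else p.1.2.getD (k / 2) false) (comp_range Computable.snd) ?_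
    have hd : Computable (fun q : ((List Bool × List Bool) × ℕ) × ℕ => q.2 / 2) :=
      (Primrec.nat_div.to_comp).comp Computable.snd (Computable.const 2)
    have hm : Computable (fun q : ((List Bool × List Bool) × ℕ) × ℕ => q.2 % 2) :=
      (Primrec.nat_mod.to_comp).comp Computable.snd (Computable.const 2)
    refine comp_ite (comp_decEq hm (Computable.const 0)) ?_ ?_
    · exact (Primrec.list_getD false).to_comp.comp (Computable.fst.comp (Computable.fst.comp
        Computable.fst)) hd
    · exact (Primrec.list_getD false).to_comp.comp (Computable.snd.comp (Computable.fst.comp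
        Computable.fst)) hd
  have hpre : ∀ (σ : List Bool) (s : ℕ), J ((pre Z s, σ), s) = pre (jn Z (ext0 σ)) s := by
    intro σ s
    simp only [J, pre]
    refine List.map_congr_left fun k hk => ?_
    have hk' := List.mem_range.1 hk
    simp only [jn, decide_eq_true_eq, ext0]
    by_cases h2 : k % 2 = 0
    · rw [if_pos h2, if_pos h2]
      exact pre_getD Z (by omega) false
    · rw [if_neg h2, if_neg h2]
  refine Sg.congr (P := fun q : List Bool × (ℕ × ℕ) => ∃ s, s ≤ 2 * q.1.length ∧
    H (q.2.1, q.2.2) (J ((pre Z s, q.1), s)) = true) ?_ fun q => ?_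
  · refine Sg.ex (Q := fun (q : List Bool × (ℕ × ℕ)) (s : ℕ) => s ≤ 2 * q.1.length ∧
      H (q.2.1, q.2.2) (J ((pre Z s, q.1), s)) = true) ?_
    refine Sg.and (Sg.le_comp Computable.snd ?_) ?_
    · exact (Primrec.nat_mul.to_comp).comp (Computable.const 2)
        (Computable.list_length.comp (Computable.fst.comp Computable.fst))
    · have h1 : Cp Z (fun p : (List Bool × (ℕ × ℕ)) × ℕ => (pre Z p.2, p)) :=
        ((Cp.pre Z).comp (Cp.of_computable Computable.snd)).pair (Cp.of_computable Computable.id)
      have h2 : Computable (fun z : List Bool × ((List Bool × (ℕ × ℕ)) × ℕ) =>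
          H (z.2.1.2.1, z.2.1.2.2) (J ((z.1, z.2.1.1), z.2.2))) := by
        refine hH.comp ?_ (hJ.comp ?_)
        · exact (Computable.fst.comp (Computable.snd.comp (Computable.fst.comp
            Computable.snd))).pair (Computable.snd.comp (Computable.snd.comp
            (Computable.fst.comp Computable.snd)))
        · exact (Computable.fst.pair (Computable.fst.comp (Computable.fst.comp
            Computable.snd))).pair (Computable.snd.comp Computable.snd)
      exact Sg.subst (P := fun z : List Bool × ((List Bool × (ℕ × ℕ)) × ℕ) =>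
          H (z.2.1.2.1, z.2.1.2.2) (J ((z.1, z.2.1.1), z.2.2)) = true)
        (f := fun p : (List Bool × (ℕ × ℕ)) × ℕ => (pre Z p.2, p)) (Sg.of_comp h2) h1
  · simp only [hpre]
    exact Iff.rfl

/-! ### The descent lemma -/

/-- Strings forcing that some initial segment of the computed function is not in `Q`. -/
def BadQ (H : ℕ × ℕ → List Bool → Bool) (Z : ℕ → Bool) (Q : Set (List ℕ)) : Set (List Bool) :=
  {σ | ∃ l : List ℕ, (∀ i < l.length, cv H Z σ i (fn l i)) ∧ l ∉ Q}

/-- Strings forcing that the computed function is not total. -/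
def DivS (H : ℕ × ℕ → List Bool → Bool) (Z : ℕ → Bool) : Set (List Bool) :=
  {σ | ∃ n, ∀ τ, σ <+: τ → ∀ v, ¬ cv H Z τ n v}

theorem list_eq_map {l : List ℕ} {f : ℕ → ℕ} (h : ∀ i < l.length, f i = fn l i) :
    l = (List.range l.length).map f := by
  refine List.ext_getElem (by simp) fun i h1 h2 => ?_
  simp only [List.getElem_map, List.getElem_range]
  rw [h i h1]
  unfold fn
  rw [List.getD_eq_getElem _ _ h1]

theorem descend {Z G : ℕ → Bool} {Q : Set (List ℕ)}
    (h1 : ∀ H : ℕ × ℕ → List Bool → Bool, Computable₂ H → Dec G (BadQ H Z Q))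
    (h2 : ∀ H : ℕ × ℕ → List Bool → Bool, Computable₂ H → Dec G (DivS H Z))
    {f : ℕ → ℕ} (hf : Cp (jn Z G) f) (hQ : ∀ n, (List.range n).map f ∈ Q) :
    ∃ f' : ℕ → ℕ, Cp Z f' ∧ ∀ n, (List.range n).map f' ∈ Q := by
  obtain ⟨H, hH, hf⟩ := hf
  have hf' : ∀ n v, f n = v ↔ ∃ k, cv H Z (pre G k) n v := by
    intro n v
    rw [cv_pre]
    exact hf (n, v)
  have pmono : ∀ {k k' n v}, k ≤ k' → cv H Z (pre G k) n v → cv H Z (pre G k') n v :=
    fun h hc => cv_mono (pre_mono G h) hc
  obtain ⟨k1, hk1⟩ : ∃ k, ∀ τ, pre G k <+: τ → τ ∉ BadQ H Z Q := by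
    rcases h1 H hH with ⟨k, l, hl, hlQ⟩ | h
    · exfalso
      have : l = (List.range l.length).map f :=
        list_eq_map fun i hi => (hf' i _).2 ⟨k, hl i hi⟩
      rw [this] at hlQ
      exact hlQ (hQ _)
    · exact h
  obtain ⟨k2, hk2⟩ : ∃ k, ∀ τ, pre G k <+: τ → τ ∉ DivS H Z := by
    rcases h2 H hH with ⟨k, n, hn⟩ | h
    · exfalso
      obtain ⟨k', hk'⟩ := (hf' n (f n)).1 rfl
      exact hn (pre G (max k k')) (pre_mono G (le_max_left _ _)) (f n)
        (pmono (le_max_right _ _) hk')
    · exact h
  have hb : ∀ τ, pre G (max k1 k2) <+: τ → τ ∉ BadQ H Z Q := fun τ hτ =>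
    hk1 τ ((pre_mono G (le_max_left _ _)).trans hτ)
  have hd : ∀ τ, pre G (max k1 k2) <+: τ → ∀ n, ∃ τ', τ <+: τ' ∧ ∃ v, cv H Z τ' n v := by
    intro τ hτ n
    have := hk2 τ ((pre_mono G (le_max_right _ _)).trans hτ)
    simp only [DivS, Set.mem_ofPred_eq, not_exists, not_forall, not_not] at this
    obtain ⟨τ', h3, v, h4⟩ := this n
    exact ⟨τ', h3, v, h4⟩
  generalize pre G (max k1 k2) = σ0 at hb hd
  let R : List Bool × List ℕ → List Bool × List ℕ → Prop := fun x y =>
    (∃ t, y.1 = x.1 ++ t) ∧ ∃ v, y.2 = x.2 ++ [v] ∧ cv H Z y.1 x.2.length v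
  have hR : Sg Z (fun p : (List Bool × List ℕ) × (List Bool × List ℕ) => R p.1 p.2) := by
    refine Sg.and ?_ ?_
    · refine Sg.ex (Q := fun (p : (List Bool × List ℕ) × (List Bool × List ℕ)) (t : List Bool) =>
        p.2.1 = p.1.1 ++ t) (Sg.eq_comp (Computable.fst.comp (Computable.snd.comp Computable.fst))
        (Computable.list_append.comp (Computable.fst.comp (Computable.fst.comp Computable.fst))
        Computable.snd))
    · refine Sg.ex (Q := fun (p : (List Bool × List ℕ) × (List Bool × List ℕ)) (v : ℕ) =>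
        p.2.2 = p.1.2 ++ [v] ∧ cv H Z p.2.1 p.1.2.length v) ?_
      refine Sg.and (Sg.eq_comp (Computable.snd.comp (Computable.snd.comp Computable.fst))
        (Computable.list_append.comp (Computable.snd.comp (Computable.fst.comp Computable.fst))
        (Computable.list_cons.comp Computable.snd (Computable.const [])))) ?_
      refine Sg.comp (P := fun q : List Bool × (ℕ × ℕ) => cv H Z q.1 q.2.1 q.2.2)
        (f := fun p : ((List Bool × List ℕ) × (List Bool × List ℕ)) × ℕ =>
        (p.1.2.1, (p.1.1.2.length, p.2))) (sg_cv hH Z) ?_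
      exact (Computable.fst.comp (Computable.snd.comp Computable.fst)).pair
        ((Computable.list_length.comp (Computable.snd.comp (Computable.fst.comp
        Computable.fst))).pair Computable.snd)
  obtain ⟨g, hg, hg0, hgR, hgG⟩ := hR.exists_seq (fun x => σ0 <+: x.1 ∧
      ∀ i < x.2.length, cv H Z x.1 i (fn x.2 i)) (σ0, []) ⟨List.prefix_rfl, by simp⟩ (by
      rintro ⟨τ, l⟩ ⟨h3, _⟩
      obtain ⟨τ', ⟨t, ht⟩, v, hv⟩ := hd τ h3 l.length
      exact ⟨(τ', l ++ [v]), ⟨t, ht.symm⟩, v, rfl, hv⟩) (by
      rintro ⟨τ, l⟩ ⟨τ', l'⟩ ⟨h3, h4⟩ ⟨⟨t, h5⟩, v, h6, h7⟩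
      simp only at h3 h4 h5 h6 h7
      subst h5 h6
      refine ⟨h3.trans (List.prefix_append _ _), fun i hi => ?_⟩
      simp only [List.length_append, List.length_singleton] at hi
      rcases Nat.lt_succ_iff_lt_or_eq.1 hi with hi | rfl
      · simp only
        rw [fn_append_lt hi]
        exact cv_mono (List.prefix_append _ _) (h4 i hi)
      · simp only
        rw [fn_snoc]; exact h7)
  have hlen : ∀ n, (g n).2.length = n := by
    intro n
    induction n with
    | zero => rw [hg0]; rfl
    | succ n ih =>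
      obtain ⟨_, v, h3, _⟩ := hgR n
      rw [h3, List.length_append, ih]; rfl
  have hpre : ∀ n k, n ≤ k → (g n).2 <+: (g k).2 := by
    intro n k h
    induction k, h using Nat.le_induction with
    | base => exact List.prefix_rfl
    | succ k _ ih =>
      obtain ⟨_, v, h3, _⟩ := hgR k
      rw [h3]; exact ih.trans (List.prefix_append _ _)
  refine ⟨fun n => fn (g (n + 1)).2 n, ?_, fun n => ?_⟩
  · have h3 : Cp Z (fun n => (g (n + 1), n)) :=
      (hg.comp (Cp.of_computable Computable.succ)).pair (Cp.of_computable Computable.id)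
    have h4 : Computable (fun z : (List Bool × List ℕ) × ℕ => fn z.1.2 z.2) :=
      Computable.fn' (Computable.snd.comp Computable.fst) Computable.snd
    exact (Cp.of_computable h4).comp h3
  · have h3 : (List.range n).map (fun n => fn (g (n + 1)).2 n) = (g n).2 := by
      refine List.ext_getElem (by simp [hlen]) fun i hi1 hi2 => ?_
      simp only [List.getElem_map, List.getElem_range]
      have hi : i < n := by rwa [hlen] at hi2
      obtain ⟨t, ht⟩ := hpre (i + 1) n hi
      unfold fn
      have h5 : i < (g (i + 1)).2.length := by rw [hlen]; omega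
      rw [List.getD_eq_getElem _ _ h5]
      simp only [← ht]
      rw [List.getElem_append_left h5]
    rw [h3]
    by_contra hc
    obtain ⟨h4, h5⟩ := hgG n
    exact hb _ h4 ⟨_, h5, hc⟩

end Pool.Agent.H24Q
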