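import Mathlib
import Pool.Agent.H24Q.Gen

/-!
A structure which embeds elementarily into its generic Henkin model, by a map computable from the
generic sequence, is effectively atomic.
-/

set_option autoImplicit false

namespace Pool.Agent.H24Q

open Encodable Pool.Agent.H93PMU Pool.Agent.H24P Pool.Agent.H19

/-- The map `f` preserves the elementary diagram. -/
def EE (E E' : Set ℕ) (f : ℕ → ℕ) : Prop :=
  ∀ (cd : ℕ) (v : List ℕ), Nat.pair cd (encode v) ∈ E → Nat.pair cd (encode (v.map f)) ∈ E'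

/-- Strings forcing that the computed function does not preserve some formula. -/
def BadS (H : ℕ × ℕ → List Bool → Bool) (Z : ℕ → Bool) (A : Str) : Set (List Bool) :=
  {σ | ∃ (φ : Fml) (l l' : List ℕ), l'.length = l.length ∧ (∀ i ∈ φ.fv, i < l.length) ∧
    (∀ a ∈ l, a ∈ A.dom) ∧ (∀ i < l.length, cv H Z σ (fn l i) (fn l' i)) ∧ Sat A φ (fn l) ∧
    Frc A (th A σ) (.neg φ) (fn l')}

theorem list_eq_map' {l l' : List ℕ} {f : ℕ → ℕ} (hl : l'.length = l.length)
    (h : ∀ i < l.length, f (fn l i) = fn l' i) : l' = l.map f := by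
  refine List.ext_getElem (by simp [hl]) fun i h1 h2 => ?_
  simp only [List.getElem_map]
  have h3 : i < l.length := by omega
  have := h i h3
  simp only [fn] at this
  rw [List.getD_eq_getElem _ _ h1, List.getD_eq_getElem _ _ h3] at this
  exact this.symm

theorem fn_map_lt {l : List ℕ} {f : ℕ → ℕ} {i : ℕ} (h : i < l.length) :
    fn (l.map f) i = f (fn l i) := by
  simp [fn, h]

theorem effAt_of_generic {Z G : ℕ → Bool} {A : Str} (hZ : Ar Z (bo (ED A)))
    (hθ : HSeq A (fun k => th A (pre G k)))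
    (hdec : ∀ H : ℕ × ℕ → List Bool → Bool, Computable₂ H → Dec G (BadS H Z A))
    {f : ℕ → ℕ} (hf : Cp (jn Z G) f)
    (hE : EE (ED A) (ED (HM A (fun k => th A (pre G k)))) f) : EffAt Z A := by
  obtain ⟨H, hH, hf⟩ := hf
  have hf' : ∀ n v, f n = v ↔ ∃ k, cv H Z (pre G k) n v := by
    intro n v
    rw [cv_pre]
    exact hf (n, v)
  have pmono : ∀ {k k' n v}, k ≤ k' → cv H Z (pre G k) n v → cv H Z (pre G k') n v :=
    fun h hc => cv_mono (pre_mono G h) hc
  obtain ⟨k0, hk0⟩ : ∃ k, ∀ τ, pre G k <+: τ → τ ∉ BadS H Z A := by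
    rcases hdec H hH with ⟨k, φ, l, l', h1, h2, h3, h4, h5, h6⟩ | h
    · exfalso
      have h7 : l' = l.map f := list_eq_map' h1 fun i hi => (hf' _ _).2 ⟨k, h4 i hi⟩
      have h8 := hE φ.code l (mem_ED.2 ⟨h2, h3, h5⟩)
      rw [mem_ED] at h8
      obtain ⟨h9, h10, h11⟩ := h8
      have h12 : Tr A (fun k => th A (pre G k)) φ (asg (l.map f) 0) := by
        rw [← hθ.truth φ _ (asg_mem h10 (fun e he => absurd he (Nat.not_lt_zero e)))]
        exact (sat_congr _ φ fun i _ => rfl).1 h11
      have h13 : Tr A (fun k => th A (pre G k)) φ (fn l') := by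
        rw [h7]; exact (tr_congr fun i _ => rfl).1 h12
      exact hθ.consistent h13 ⟨k, h6⟩
    · exact h
  refine ⟨fun q => ∃ τ : List Bool, (∃ t, τ = pre G k0 ++ t) ∧ (th A τ).code = q.1.2 ∧
    q.2.length = q.1.1.length ∧ ∀ i < q.1.1.length, cv H Z τ (fn q.1.1 i) (fn q.2 i), ?_, ?_, ?_⟩
  · refine Sg.ex (Q := fun (q : (List ℕ × ℕ) × List ℕ) (τ : List Bool) =>
      (∃ t, τ = pre G k0 ++ t) ∧ (th A τ).code = q.1.2 ∧
      q.2.length = q.1.1.length ∧ ∀ i < q.1.1.length, cv H Z τ (fn q.1.1 i) (fn q.2 i)) ?_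
    refine Sg.and ?_ (Sg.and ?_ (Sg.and ?_ ?_))
    · refine Sg.ex (Q := fun (p : ((List ℕ × ℕ) × List ℕ) × List Bool) (t : List Bool) =>
        p.2 = pre G k0 ++ t) (Sg.eq_comp (Computable.snd.comp Computable.fst)
        (Computable.list_append.comp (Computable.const _) Computable.snd))
    · exact Sg.comp (P := fun z : List Bool × ℕ => (th A z.1).code = z.2)
        (f := fun p : ((List ℕ × ℕ) × List ℕ) × List Bool => (p.2, p.1.1.2)) (cp_th hZ)
        (Computable.snd.pair (Computable.snd.comp (Computable.fst.comp Computable.fst)))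
    · exact Sg.eq_comp (Computable.list_length.comp (Computable.snd.comp Computable.fst))
        (Computable.list_length.comp (Computable.fst.comp (Computable.fst.comp Computable.fst)))
    · refine Sg.ball_lt (Q := fun (p : ((List ℕ × ℕ) × List ℕ) × List Bool) (i : ℕ) =>
        cv H Z p.2 (fn p.1.1.1 i) (fn p.1.2 i)) ?_
        (Computable.list_length.comp (Computable.fst.comp (Computable.fst.comp Computable.fst)))
      refine Sg.comp (P := fun q : List Bool × (ℕ × ℕ) => cv H Z q.1 q.2.1 q.2.2)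
        (f := fun p : (((List ℕ × ℕ) × List ℕ) × List Bool) × ℕ =>
        (p.1.2, (fn p.1.1.1.1 p.2, fn p.1.1.2 p.2))) (sg_cv hH Z) ?_
      exact (Computable.snd.comp Computable.fst).pair
        ((Computable.fn' (Computable.fst.comp (Computable.fst.comp (Computable.fst.comp
        Computable.fst))) Computable.snd).pair (Computable.fn' (Computable.snd.comp
        (Computable.fst.comp Computable.fst)) Computable.snd))
  · intro l _
    have h1 : ∀ n ≤ l.length, ∃ K, k0 ≤ K ∧ ∀ i < n, cv H Z (pre G K) (fn l i) (f (fn l i)) := by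
      intro n
      induction n with
      | zero => intro _; exact ⟨k0, le_rfl, by simp⟩
      | succ n ih =>
        intro hn
        obtain ⟨K, h2, h3⟩ := ih (by omega)
        obtain ⟨K', h4⟩ := (hf' (fn l n) (f (fn l n))).1 rfl
        refine ⟨max K K', h2.trans (le_max_left _ _), fun i hi => ?_⟩
        rcases Nat.lt_succ_iff_lt_or_eq.1 hi with hi | rfl
        · exact pmono (le_max_left _ _) (h3 i hi)
        · exact pmono (le_max_right _ _) h4
    obtain ⟨K, h2, h3⟩ := h1 l.length le_rfl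
    refine ⟨_, l.map f, pre G K, ?_, rfl, by simp, fun i hi => ?_⟩
    · obtain ⟨t, ht⟩ := pre_mono G h2
      exact ⟨t, ht.symm⟩
    · simp only
      rw [fn_map_lt hi]; exact h3 i hi
  · rintro l cd l' hl ⟨τ, ⟨t, ht⟩, h1, h2, h3⟩
    simp only at h1 h2 h3
    have hτ : pre G k0 <+: τ := ⟨t, ht.symm⟩
    have hiso : ∀ φ : Fml, (∀ i ∈ φ.fv, i < l.length) → Sat A φ (fn l) →
        Frc A (th A τ) φ (fn l') := by
      intro φ hφ hs
      by_contra hc
      simp only [Frc, not_forall] at hc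
      obtain ⟨w, hw, hws, hwφ⟩ := hc
      obtain ⟨χ, _, h5⟩ := exists_subst (.neg φ) (fn l')
      have h6 : Sbl A (.and (th A τ) χ) := ⟨w, hw, hws, (h5 A w).2 hwφ⟩
      obtain ⟨τ', h7, h8⟩ := th_ext τ h6
      refine hk0 τ' (hτ.trans h7) ⟨φ, l, l', h2, hφ, hl, fun i hi => cv_mono h7 (h3 i hi), hs, ?_⟩
      intro w' _ hs'
      rw [h8] at hs'
      exact (h5 A w').1 hs'.2
    refine ⟨th A τ, h1.symm, h2, ?_, hiso⟩
    obtain ⟨ψ, h5, h6⟩ := exists_proj (th A τ) l'
    obtain ⟨a0, ha0⟩ := A.nonempty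
    by_contra hno
    have h7 : ¬ Sat A ψ (asg l a0) := by
      rw [h6 A _ (asg_mem hl ha0)]
      rintro ⟨w, h8, h9, h10⟩
      refine hno ⟨w, h8, h9, fun i hi => ?_⟩
      rw [h10 i (by omega)]
      simp only [asg, fn]
      rw [List.getD_eq_getElem _ _ hi, List.getD_eq_getElem _ _ hi]
    have h8 : Sat A (.neg ψ) (fn l) := by
      refine (sat_congr A (.neg ψ) fun i hi => ?_).1 h7
      have hi' := h5 i hi
      rw [h2] at hi'
      simp only [asg, fn]
      rw [List.getD_eq_getElem _ _ hi', List.getD_eq_getElem _ _ hi']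
    have h9 := hiso (.neg ψ) (fun i hi => by
      have := h5 i hi
      omega) h8
    obtain ⟨w, hw, hws⟩ := th_sbl (A := A) τ
    refine h9 w hw hws ?_
    rw [h6 A _ (fun i => hw _)]
    exact ⟨w, hw, hws, fun i _ => rfl⟩

end Pool.Agent.H24Q
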