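import Mathlib
import Pool.Agent.H24Q.Atoms

/-!
Generic Turing ideals satisfy PMU.
-/

set_option autoImplicit false

namespace Pool.Agent.H24Q

open Encodable Pool.Agent.H93PMU Pool.Agent.H24P Pool.Agent.H19

/-! ### Countability -/

theorem countable_computable {α β : Type*} [Primcodable α] [Primcodable β] :
    {f : α → β | Computable f}.Countable := by
  have h1 : {g : ℕ →. ℕ | Nat.Partrec g}.Countable :=
    (Set.countable_range Nat.Partrec.Code.eval).mono fun g hg => Nat.Partrec.Code.exists_code.1 hg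
  let F : (α → β) → (ℕ →. ℕ) := fun f n =>
    Part.bind (decode (α := α) n) fun a => (Part.some (f a)).map encode
  have hF : Function.Injective F := by
    intro f g h
    funext a
    have h2 := congrFun h (encode a)
    simp only [F, encodek, Part.coe_some, Part.bind_some, Part.map_some, Part.some_inj] at h2
    exact encode_injective h2
  exact (h1.preimage_of_injOn hF.injOn).mono fun f hf => hf

theorem countable_computable₂ {α β γ : Type*} [Primcodable α] [Primcodable β] [Primcodable γ] :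
    {H : α → β → γ | Computable₂ H}.Countable := by
  have h1 : {f : α × β → γ | Computable f}.Countable := countable_computable
  have hF : Function.Injective (fun (H : α → β → γ) (p : α × β) => H p.1 p.2) := by
    intro f g h
    funext a b
    exact congrFun h (a, b)
  exact (h1.preimage_of_injOn hF.injOn).mono fun f hf => hf

theorem countable_ar (Z : ℕ → Bool) : {E : Set ℕ | Ar Z (bo E)}.Countable := by
  have h1 : {H : ℕ → List Bool → Bool | Computable₂ H}.Countable := countable_computable₂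
  refine (h1.image fun H => {n : ℕ | ∃ s, H n (pre Z s) = true}).mono fun E hE => ?_
  obtain ⟨H, hH, h2⟩ := (ar_bo_iff.1 hE).1
  exact ⟨H, hH, Set.ext fun n => (h2 n).symm⟩

instance : Countable Fml := code_injective.countable

/-! ### Families of sets of strings -/

/-- Finite sequences compatible with the characteristic function of `Y`. -/
noncomputable def AvQ (Y : Set ℕ) : Set (List ℕ) :=
  {l | ∀ i < l.length, fn l i = by classical exact if i ∈ Y then 1 else 0}

/-- Finite sequences compatible with the preservation of the elementary diagram. -/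
def ElQ (E E' : Set ℕ) : Set (List ℕ) :=
  {l | ∀ (cd : ℕ) (v : List ℕ), (∀ a ∈ v, a < l.length) → Nat.pair cd (encode v) ∈ E →
    Nat.pair cd (encode (v.map (fn l))) ∈ E'}

theorem elQ_iff {E E' : Set ℕ} {f : ℕ → ℕ} :
    (∀ n, (List.range n).map f ∈ ElQ E E') ↔ EE E E' f := by
  constructor
  · intro h cd v hv
    obtain ⟨N, hN⟩ : ∃ N, ∀ a ∈ v, a < N := ⟨encode v, fun a ha => mem_lt_encode ha⟩
    have h1 := h N cd v (by simpa using hN) hv
    have h2 : v.map (fn ((List.range N).map f)) = v.map f :=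
      List.map_congr_left fun a ha => fn_map_range (hN a ha)
    rwa [h2] at h1
  · intro h n cd v hv hE
    have h2 : v.map (fn ((List.range n).map f)) = v.map f :=
      List.map_congr_left fun a ha => fn_map_range (by simpa using hv a ha)
    rw [h2]
    exact h cd v hE

/-- A structure with elementary diagram `E`, if there is one. -/
noncomputable def strE (E : Set ℕ) : Str := by
  classical exact if h : ∃ A : Str, ED A = E then h.choose else ⟨{0}, ⟨0, rfl⟩, fun _ _ => False⟩

theorem ed_strE (A : Str) : ED (strE (ED A)) = ED A := by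
  have h : ∃ B : Str, ED B = ED A := ⟨A, rfl⟩
  rw [strE, dif_pos h]
  exact h.choose_spec

/-- Genericity over `Z`. -/
structure Gnc (Y : ℕ → Set ℕ) (Z G : ℕ → Bool) : Prop where
  div : ∀ H : ℕ × ℕ → List Bool → Bool, Computable₂ H → Dec G (DivS H Z)
  av : ∀ H : ℕ × ℕ → List Bool → Bool, Computable₂ H → ∀ i, Dec G (BadQ H Z (AvQ (Y i)))
  el : ∀ H : ℕ × ℕ → List Bool → Bool, Computable₂ H → ∀ E E' : Set ℕ, Ar Z (bo E) →
    Ar Z (bo E') → Dec G (BadQ H Z (ElQ E E'))
  hen : ∀ E : Set ℕ, Ar Z (bo E) → ∀ (φ : Fml) (i : ℕ) (l : List ℕ),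
    Dec G (HenS (strE E) φ i l)
  bad : ∀ E : Set ℕ, Ar Z (bo E) → ∀ H : ℕ × ℕ → List Bool → Bool, Computable₂ H →
    Dec G (BadS H Z (strE E))
  ne : ∀ W : Set ℕ, Ar Z (bo W) → Dec G {σ | σ ≠ pre (bo W) σ.length}

theorem exists_gnc (Y : ℕ → Set ℕ) (Z : ℕ → Bool) : ∃ G, Gnc Y Z G := by
  have hC : {H : ℕ × ℕ → List Bool → Bool | Computable₂ H}.Countable := countable_computable₂
  have hD := countable_ar Z
  have hF : (Set.univ : Set (Fml × (ℕ × List ℕ))).Countable := Set.countable_univ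
  have hN : (Set.univ : Set ℕ).Countable := Set.countable_univ
  obtain ⟨G, hG⟩ := exists_generic
    ((hC.image fun H => DivS H Z).union
      (((hC.prod hN).image fun p : (ℕ × ℕ → List Bool → Bool) × ℕ =>
        BadQ p.1 Z (AvQ (Y p.2))).union
      (((hC.prod (hD.prod hD)).image fun p : (ℕ × ℕ → List Bool → Bool) × (Set ℕ × Set ℕ) =>
        BadQ p.1 Z (ElQ p.2.1 p.2.2)).union
      (((hD.prod hF).image fun p : Set ℕ × (Fml × (ℕ × List ℕ)) =>
        HenS (strE p.1) p.2.1 p.2.2.1 p.2.2.2).union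
      (((hD.prod hC).image fun p : Set ℕ × (ℕ × ℕ → List Bool → Bool) =>
        BadS p.2 Z (strE p.1)).union
      (hD.image fun W => {σ | σ ≠ pre (bo W) σ.length}))))))
  refine ⟨G, ⟨fun H hH => hG _ ?_, fun H hH i => hG _ ?_, fun H hH E E' hE hE' => hG _ ?_,
    fun E hE φ i l => hG _ ?_, fun E hE H hH => hG _ ?_, fun W hW => hG _ ?_⟩⟩
  · exact Or.inl ⟨H, hH, rfl⟩
  · exact Or.inr (Or.inl ⟨(H, i), ⟨hH, trivial⟩, rfl⟩)
  · exact Or.inr (Or.inr (Or.inl ⟨(H, (E, E')), ⟨hH, hE, hE'⟩, rfl⟩))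
  · exact Or.inr (Or.inr (Or.inr (Or.inl ⟨(E, (φ, (i, l))), ⟨hE, trivial⟩, rfl⟩)))
  · exact Or.inr (Or.inr (Or.inr (Or.inr (Or.inl ⟨(E, H), ⟨hE, hH⟩, rfl⟩))))
  · exact Or.inr (Or.inr (Or.inr (Or.inr (Or.inr ⟨W, hW, rfl⟩))))

/-! ### The ideal -/

/-- A sequence generic over `Z`. -/
noncomputable def gn (Y : ℕ → Set ℕ) (Z : ℕ → Bool) : ℕ → Bool := (exists_gnc Y Z).choose

theorem gn_spec (Y : ℕ → Set ℕ) (Z : ℕ → Bool) : Gnc Y Z (gn Y Z) := (exists_gnc Y Z).choose_spec

/-- Successive generic joins. -/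
noncomputable def sq (X : Set ℕ) (Y : ℕ → Set ℕ) : ℕ → (ℕ → Bool)
  | 0 => bo X
  | n + 1 => jn (sq X Y n) (gn Y (sq X Y n))

/-- The generic ideal over `X`. -/
def GI (X : Set ℕ) (Y : ℕ → Set ℕ) : Set (Set ℕ) := {B | ∃ n, Ar (sq X Y n) (bo B)}

variable {X : Set ℕ} {Y : ℕ → Set ℕ}

theorem sq_mono {n k : ℕ} (h : n ≤ k) : Ar (sq X Y k) (sq X Y n) := by
  induction k, h using Nat.le_induction with
  | base => exact Ar.refl _
  | succ k _ ih => exact (ar_jn_left _ _).trans ih

theorem gi_ideal : TuringIdeal (GI X Y) where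
  nonempty := ⟨X, 0, Ar.refl _⟩
  join := by
    rintro A ⟨n, hn⟩ B ⟨k, hk⟩
    rw [← joinSet_eq]
    exact ⟨max n k, ar_join ((sq_mono (le_max_left n k)).trans hn)
      ((sq_mono (le_max_right n k)).trans hk)⟩
  down := by
    rintro A ⟨n, hn⟩ B hB
    exact ⟨n, hn.trans (red_iff.1 hB)⟩

theorem bo_set (z : ℕ → Bool) : bo {k | z k = true} = z := by
  funext k
  by_cases h : z k = true
  · rw [h]; exact bo_true.2 h
  · have h2 : z k = false := by simpa using h
    rw [h2]; exact bo_false.2 h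

theorem mem_gi_sq (n : ℕ) : {k | sq X Y n k = true} ∈ GI X Y :=
  ⟨n, by rw [bo_set]; exact Ar.refl _⟩

theorem cp_char {Z : ℕ → Bool} {B : Set ℕ} (h : Ar Z (bo B)) :
    Cp Z (fun n => (by classical exact if n ∈ B then 1 else 0 : ℕ)) := by
  rw [ar_bo_iff] at h
  have h1 : Sg Z (fun p : ℕ × ℕ => (p.1 ∈ B ∧ p.2 = 1) ∨ (p.1 ∉ B ∧ p.2 = 0)) :=
    Sg.or (Sg.and (h.1.comp Computable.fst) (Sg.eq_comp Computable.snd (Computable.const 1)))
      (Sg.and (h.2.comp Computable.fst) (Sg.eq_comp Computable.snd (Computable.const 0)))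
  refine h1.congr fun p => ?_
  by_cases hp : p.1 ∈ B
  · simp [hp, eq_comm]
  · simp [hp, eq_comm]

/-- The generic ideal avoids all the sets `Y i`. -/
theorem gi_avoid {i : ℕ} (h : ¬ Ar (bo X) (bo (Y i))) : ∀ n, ¬ Ar (sq X Y n) (bo (Y i)) := by
  intro n
  induction n with
  | zero => exact h
  | succ n ih =>
    intro hY
    have hg := gn_spec Y (sq X Y n)
    obtain ⟨f', h1, h2⟩ := descend (fun H hH => hg.av H hH i) hg.div (cp_char hY) (by
      intro n j hi
      rw [List.length_map, List.length_range] at hi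
      rw [fn_map_range hi])
    have h3 : ∀ n, f' n = by classical exact if n ∈ Y i then 1 else 0 := by
      intro n
      have := h2 (n + 1) n (by simp)
      rwa [fn_map_range (Nat.lt_succ_self n)] at this
    refine ih (ar_bo_iff.2 ⟨?_, ?_⟩)
    · have h4 : Sg (sq X Y n) (fun n : ℕ => f' n = 1) :=
        Sg.comp (P := fun p : ℕ × ℕ => f' p.1 = p.2) (f := fun n : ℕ => (n, 1)) h1
          (Computable.id.pair (Computable.const 1))
      refine h4.congr fun n => ?_
      rw [h3]; by_cases hn : n ∈ Y i <;> simp [hn]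
    · have h4 : Sg (sq X Y n) (fun n : ℕ => f' n = 0) :=
        Sg.comp (P := fun p : ℕ × ℕ => f' p.1 = p.2) (f := fun n : ℕ => (n, 0)) h1
          (Computable.id.pair (Computable.const 0))
      refine h4.congr fun n => ?_
      rw [h3]; by_cases hn : n ∈ Y i <;> simp [hn]

/-- Descent of maps preserving elementary diagrams. -/
theorem gi_descend {E E' : Set ℕ} {k : ℕ} (hE : Ar (sq X Y k) (bo E))
    (hE' : Ar (sq X Y k) (bo E')) : ∀ m, k ≤ m → ∀ f, Cp (sq X Y m) f → EE E E' f →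
    ∃ f', Cp (sq X Y k) f' ∧ EE E E' f' := by
  intro m hm
  induction m, hm using Nat.le_induction with
  | base => exact fun f hf h => ⟨f, hf, h⟩
  | succ m hm ih =>
    intro f hf h
    have hg := gn_spec Y (sq X Y m)
    obtain ⟨f', h1, h2⟩ := descend (Q := ElQ E E')
      (fun H hH => hg.el H hH E E' ((sq_mono hm).trans hE) ((sq_mono hm).trans hE')) hg.div hf
      (elQ_iff.2 h)
    exact ih f' h1 (elQ_iff.1 h2)

/-! ### Structures with the same diagram -/

theorem dom_of_ed {A B : Str} (h : ED A = ED B) : A.dom = B.dom := by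
  ext a
  rw [mem_dom_iff, mem_dom_iff, h]

theorem sat_of_ed {A B : Str} (h : ED A = ED B) (φ : Fml) (w : ℕ → ℕ) (hw : ∀ i, w i ∈ A.dom) :
    Sat A φ w ↔ Sat B φ w := by
  obtain ⟨N, hN⟩ := exists_bound φ
  have key : ∀ C : Str, C.dom = A.dom →
      (Sat C φ w ↔ Nat.pair φ.code (encode ((List.range N).map w)) ∈ ED C) := by
    intro C hC
    rw [mem_ED]
    have h1 : Sat C φ w ↔ Sat C φ (fun i => ((List.range N).map w).getD i 0) :=
      sat_congr C φ fun i hi => (fn_map_range (hN i hi)).symm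
    rw [h1]
    constructor
    · intro h2
      refine ⟨by simpa using hN, fun a ha => ?_, h2⟩
      obtain ⟨j, _, rfl⟩ := List.mem_map.1 ha
      rw [hC]; exact hw j
    · exact fun h2 => h2.2.2
  rw [key A rfl, key B (dom_of_ed h).symm, h]

theorem frc_of_ed {A B : Str} (h : ED A = ED B) {θ φ : Fml} {u : ℕ → ℕ} (hf : Frc A θ φ u) :
    Frc B θ φ u := by
  intro w hw hs
  rw [← dom_of_ed h] at hw
  exact (sat_of_ed h φ _ (fun i => hw _)).1 (hf w hw ((sat_of_ed h θ w hw).2 hs))

theorem EffAt.of_ed {Z : ℕ → Bool} {A B : Str} (h : ED A = ED B) (hA : EffAt Z A) :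
    EffAt Z B := by
  obtain ⟨At, h0, h1, h2⟩ := hA
  have hd := dom_of_ed h
  refine ⟨At, h0, fun l hl => h1 l (by rwa [hd]), fun l cd l' hl hAt => ?_⟩
  obtain ⟨θ, h3, h4, ⟨w, h5, h6, h7⟩, h8⟩ := h2 l cd l' (by rwa [hd]) hAt
  refine ⟨θ, h3, h4, ⟨w, by rwa [← hd], (sat_of_ed h θ w h5).1 h6, h7⟩, fun φ hφ hs => ?_⟩
  refine frc_of_ed h (h8 φ hφ ?_)
  have h9 : Nat.pair φ.code (encode l) ∈ ED B := mem_ED.2 ⟨hφ, hl, hs⟩
  rw [← h, mem_ED] at h9
  exact h9.2.2

theorem ElemEquiv.of_ed {A B : Str} (h : ED A = ED B) : ElemEquiv A B := by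
  intro φ hφ
  obtain ⟨a, ha⟩ := A.nonempty
  rw [sentence_models hφ (fun _ => a), sentence_models hφ (fun _ => a)]
  exact sat_of_ed h φ _ fun _ => ha

theorem ElemEquiv.trans' {A B C : Str} (h : ElemEquiv A B) (h' : ElemEquiv B C) :
    ElemEquiv A C := fun φ hφ => (h φ hφ).trans (h' φ hφ)

/-- A function computable in `Z` from an elementary embedding whose graph is computable
in `Z`. -/
theorem exists_cp_of_emb {Z : ℕ → Bool} {A M : Str} (hA : Ar Z (bo (ED A))) {f : ℕ → ℕ}
    (hf : Ar Z (bo (graph A.dom f))) (h : ElemEmb A M f) :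
    ∃ f0 : ℕ → ℕ, Cp Z f0 ∧ EE (ED A) (ED M) f0 := by
  classical
  refine ⟨fun a => if a ∈ A.dom then f a else 0, ?_, ?_⟩
  · rw [ar_bo_iff] at hA hf
    have h1 : Sg Z (fun p : ℕ × ℕ => Nat.pair p.1 p.2 ∈ graph A.dom f ∨
        (p.1 ∉ A.dom ∧ p.2 = 0)) :=
      Sg.or (Sg.comp (P := fun n => n ∈ graph A.dom f) hf.1
        (comp_natpair Computable.fst Computable.snd))
        (Sg.and ((sg_not_dom hA.2).comp Computable.fst)
          (Sg.eq_comp Computable.snd (Computable.const 0)))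
    refine h1.congr fun p => ?_
    by_cases hp : p.1 ∈ A.dom
    · simp only [hp, not_true_eq_false, false_and, or_false, if_true]
      constructor
      · rintro ⟨a, _, h2⟩
        rw [Nat.pair_eq_pair] at h2
        rw [h2.1, h2.2]
      · intro h2
        exact ⟨p.1, hp, by rw [h2]⟩
    · simp only [hp, not_false_eq_true, true_and, if_false]
      constructor
      · rintro (⟨a, ha, h2⟩ | h2)
        · rw [Nat.pair_eq_pair] at h2
          exact absurd (h2.1 ▸ ha) hp
        · exact h2.symm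
      · exact fun h2 => Or.inr h2.symm
  · rintro cd v ⟨φ, l, h1, h2, h3, h4⟩
    rw [Nat.pair_eq_pair] at h1
    obtain ⟨h5, h6⟩ := h1
    have h6 := encode_injective h6
    subst h5 h6
    have e : v.map (fun a => if a ∈ A.dom then f a else 0) = v.map f :=
      List.map_congr_left fun a ha => by rw [if_pos (h3 a ha)]
    rw [e, mem_ED]
    obtain ⟨a0, ha0⟩ := A.nonempty
    refine ⟨by simpa using h2, fun b hb => ?_, ?_⟩
    · obtain ⟨a, ha, rfl⟩ := List.mem_map.1 hb
      exact h.1 a (h3 a ha)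
    · have h7 : Sat A φ (asg v a0) := by
        refine (sat_congr A φ fun i hi => ?_).1 h4
        have hi' := h2 i hi
        simp only [asg]
        rw [List.getD_eq_getElem _ _ hi', List.getD_eq_getElem _ _ hi']
      rw [h.2 φ _ (asg_mem h3 ha0)] at h7
      refine (sat_congr M φ fun i hi => ?_).1 h7
      have hi' := h2 i hi
      have := fn_map_lt (f := f) hi'
      simp only [fn] at this
      rw [this]
      simp only [asg]
      rw [List.getD_eq_getElem _ _ hi', List.getD_eq_getElem _ _ hi']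

/-- Prime structures of the generic ideal are effectively atomic in it. -/
theorem effAt_of_prime {A : Str} (hA : ED A ∈ GI X Y) (hP : PrimeIn (GI X Y) A) :
    ∃ Z ∈ GI X Y, EffAt (bo Z) A := by
  obtain ⟨n, hn⟩ := hA
  have hg := gn_spec Y (sq X Y n)
  have e1 := ed_strE A
  have hn' : Ar (sq X Y n) (bo (ED (strE (ED A)))) := by rwa [e1]
  have hθ : HSeq (strE (ED A)) (fun k => th (strE (ED A)) (pre (gn Y (sq X Y n)) k)) :=
    hseq_of_dec fun φ i l => hg.hen (ED A) hn φ i l
  have hW : Ar (sq X Y (n + 1)) (bo (ED (strE (ED A)))) := (sq_mono (Nat.le_succ n)).trans hn'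
  have hM : Ar (sq X Y (n + 1))
      (bo (ED (HM (strE (ED A)) (fun k => th (strE (ED A)) (pre (gn Y (sq X Y n)) k))))) :=
    hθ.ed hW (cp_th_pre hW (ar_jn_right _ _))
  obtain ⟨f, ⟨m, hm⟩, hf⟩ := hP _ ⟨n + 1, hM⟩
    (ElemEquiv.trans' (ElemEquiv.of_ed e1.symm) hθ.equiv)
  have hm' : Ar (sq X Y (max m (n + 1))) (bo (graph A.dom f)) :=
    (sq_mono (le_max_left _ _)).trans hm
  obtain ⟨f0, h1, h2⟩ := exists_cp_of_emb (A := A)
    ((sq_mono (X := X) (Y := Y) ((Nat.le_succ n).trans (le_max_right m (n + 1)))).trans hn) hm' hf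
  obtain ⟨f1, h3, h4⟩ := gi_descend (X := X) (Y := Y) (k := n + 1) (E := ED A)
    (by rw [← e1]; exact hW) hM _ (le_max_right m (n + 1)) f0 h1 h2
  refine ⟨_, mem_gi_sq n, ?_⟩
  rw [bo_set]
  refine EffAt.of_ed e1 (effAt_of_generic hn' hθ (fun H hH => hg.bad (ED A) hn H hH) h3 ?_)
  rw [e1]; exact h4

theorem equiv_of_complete {T : Set Fml} (hT : CompleteTheory T) {A B : Str}
    (hA : ∀ φ ∈ T, Models A φ) (hB : ∀ φ ∈ T, Models B φ) : ElemEquiv A B := by
  have key : ∀ (C : Str) (ψ : Fml), Models C ψ.neg → ¬ Models C ψ := by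
    intro C ψ h h'
    obtain ⟨a, ha⟩ := C.nonempty
    exact h (fun _ => a) (fun _ => ha) (h' (fun _ => a) fun _ => ha)
  intro ψ hψ
  rcases hT.2.2 ψ hψ with h | h
  · exact ⟨fun _ => h B hB, fun _ => h A hA⟩
  · exact ⟨fun h' => absurd h' (key A ψ (h A hA)), fun h' => absurd h' (key B ψ (h B hB))⟩

/-- The generic ideal satisfies PMU. -/
theorem gi_pmu : PMU (GI X Y) := by
  intro T _ hT A B hA hB hTA hTB hPA hPB
  obtain ⟨Z, hZ, hZA⟩ := effAt_of_prime hA hPA
  obtain ⟨Z', hZ', hZB⟩ := effAt_of_prime hB hPB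
  exact exists_iso gi_ideal hA hB (equiv_of_complete hT hTA hTB) hZ hZ' hZA hZB

/-- The generic ideal has no largest degree. -/
theorem gi_not_topped {Z : Set ℕ} (hZ : Z ∈ GI X Y) :
    ∃ W ∈ GI X Y, ¬ TuringReducible (chr W) (chr Z) := by
  obtain ⟨n, hn⟩ := hZ
  refine ⟨{k | gn Y (sq X Y n) k = true}, ⟨n + 1, ?_⟩, fun h => ?_⟩
  · rw [bo_set]; exact ar_jn_right _ _
  · have h1 := hn.trans (red_iff.1 h)
    obtain ⟨k, hk⟩ := ((gn_spec Y (sq X Y n)).ne _ h1).dense (by
      intro σ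
      refine ⟨σ ++ [! (bo {k | gn Y (sq X Y n) k = true} σ.length)], List.prefix_append _ _, ?_⟩
      intro hc
      have h2 := congrArg (fun l : List Bool => l.getD σ.length false) hc
      simp only [List.length_append, List.length_singleton] at h2
      rw [pre_getD _ (Nat.lt_succ_self _)] at h2
      simp at h2)
    refine hk ?_
    rw [pre_length, bo_set]

/-- For every set `X` and all sets `Y i` not computable in `X`, there is a Turing ideal without
largest degree which contains `X`, contains no `Y i`, and satisfies PMU. -/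
theorem exists_pmu_ideal_avoiding (X : Set ℕ) (Y : ℕ → Set ℕ)
    (h : ∀ i, ¬ TuringReducible (chr (Y i)) (chr X)) :
    ∃ I : Set (Set ℕ), TuringIdeal I ∧ PMU I ∧ X ∈ I ∧ (∀ i, Y i ∉ I) ∧
      ∀ Z ∈ I, ∃ W ∈ I, ¬ TuringReducible (chr W) (chr Z) := by
  refine ⟨GI X Y, gi_ideal, gi_pmu, ⟨0, Ar.refl _⟩, ?_, fun Z hZ => gi_not_topped hZ⟩
  rintro i ⟨n, hn⟩
  exact gi_avoid (fun hc => h i (red_iff.2 hc)) n hn

end Pool.Agent.H24Q
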