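import Mathlib
import Pool.Agent.H24Q.Pos

/-!
Turing ideals satisfying arithmetical comprehension satisfy PMU.
-/

set_option autoImplicit false

namespace Pool.Agent.H24Q

open Encodable Pool.Agent.H93PMU Pool.Agent.H24P Pool.Agent.H19

/-- A uniformly computably enumerable sequence of dense sets of strings is met by a computable
sequence. -/
theorem exists_eff_generic {Z : ℕ → Bool} {D : ℕ → List Bool → Prop}
    (hD : Sg Z (fun p : ℕ × List Bool => D p.1 p.2))
    (hdense : ∀ n σ, ∃ τ, σ <+: τ ∧ D n τ) : ∃ G : ℕ → Bool, Ar Z G ∧ ∀ n, ∃ k, D n (pre G k) := by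
  let R : ℕ × List Bool → ℕ × List Bool → Prop := fun x y =>
    y.1 = x.1 + 1 ∧ ∃ t : List Bool, y.2 = (x.2 ++ t) ++ [false] ∧ D x.1 (x.2 ++ t)
  have hR : Sg Z (fun p : (ℕ × List Bool) × (ℕ × List Bool) => R p.1 p.2) := by
    refine Sg.and (Sg.eq_comp (Computable.fst.comp Computable.snd)
      (Computable.succ.comp (Computable.fst.comp Computable.fst))) ?_
    refine Sg.ex (Q := fun (p : (ℕ × List Bool) × (ℕ × List Bool)) (t : List Bool) =>
      p.2.2 = (p.1.2 ++ t) ++ [false] ∧ D p.1.1 (p.1.2 ++ t)) ?_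
    have h1 : Computable (fun p : ((ℕ × List Bool) × (ℕ × List Bool)) × List Bool =>
        p.1.1.2 ++ p.2) := Computable.list_append.comp
      (Computable.snd.comp (Computable.fst.comp Computable.fst)) Computable.snd
    refine Sg.and (Sg.eq_comp (Computable.snd.comp (Computable.snd.comp Computable.fst))
      (Computable.list_append.comp h1 (Computable.const _))) ?_
    exact Sg.comp (P := fun p : ℕ × List Bool => D p.1 p.2)
      (f := fun p : ((ℕ × List Bool) × (ℕ × List Bool)) × List Bool =>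
      (p.1.1.1, p.1.1.2 ++ p.2)) hD
      ((Computable.fst.comp (Computable.fst.comp Computable.fst)).pair h1)
  obtain ⟨g, hg, hg0, hgR, _⟩ := hR.exists_seq (fun _ => True) (0, []) trivial (by
    rintro ⟨n, σ⟩ _
    obtain ⟨τ, ⟨t, rfl⟩, h⟩ := hdense n σ
    exact ⟨(n + 1, (σ ++ t) ++ [false]), rfl, t, rfl, h⟩) (fun _ _ _ _ => trivial)
  have hn : ∀ n, (g n).1 = n := by
    intro n
    induction n with
    | zero => rw [hg0]
    | succ n ih => rw [(hgR n).1, ih]
  have hlen : ∀ n, n ≤ (g n).2.length := by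
    intro n
    induction n with
    | zero => simp
    | succ n ih =>
      obtain ⟨_, t, h1, _⟩ := hgR n
      rw [h1]; simp only [List.length_append, List.length_singleton]; omega
  have hmono : ∀ n k, n ≤ k → (g n).2 <+: (g k).2 := by
    intro n k h
    induction k, h using Nat.le_induction with
    | base => exact List.prefix_rfl
    | succ k _ ih =>
      obtain ⟨_, t, h1, _⟩ := hgR k
      rw [h1]
      exact ih.trans ((List.prefix_append _ _).trans (List.prefix_append _ _))
  let G : ℕ → Bool := fun n => (g (n + 1)).2.getD n false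
  have hG : ∀ n, pre G (g n).2.length = (g n).2 := by
    intro n
    refine List.ext_getElem (pre_length _ _) fun i h1 h2 => ?_
    simp only [pre, List.getElem_map, List.getElem_range, G]
    have h3 : i < (g (i + 1)).2.length := lt_of_lt_of_le (Nat.lt_succ_self i) (hlen (i + 1))
    rw [List.getD_eq_getElem _ _ h3]
    rcases le_total n (i + 1) with h | h
    · obtain ⟨t, ht⟩ := hmono _ _ h
      simp only [← ht]
      rw [List.getElem_append_left h2]
    · obtain ⟨t, ht⟩ := hmono _ _ h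
      simp only [← ht]
      rw [List.getElem_append_left h3]
  have hCp : Cp Z G := by
    have h3 : Cp Z (fun n => (g (n + 1), n)) :=
      (hg.comp (Cp.of_computable Computable.succ)).pair (Cp.of_computable Computable.id)
    have h4 : Computable (fun z : (ℕ × List Bool) × ℕ => z.1.2.getD z.2 false) :=
      (Primrec.list_getD false).to_comp.comp (Computable.snd.comp Computable.fst) Computable.snd
    exact (Cp.of_computable h4).comp h3
  refine ⟨G, ⟨?_, ?_⟩, fun n => ?_⟩
  · exact Sg.comp (P := fun p : ℕ × Bool => G p.1 = p.2) (f := fun n : ℕ => (n, true)) hCp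
      (Computable.id.pair (Computable.const true))
  · exact Sg.comp (P := fun p : ℕ × Bool => G p.1 = p.2) (f := fun n : ℕ => (n, false)) hCp
      (Computable.id.pair (Computable.const false))
  · obtain ⟨_, t, h1, h2⟩ := hgR n
    rw [hn] at h2
    refine ⟨((g n).2 ++ t).length, ?_⟩
    have h3 : (g n).2 ++ t <+: pre G (g (n + 1)).2.length := by
      rw [hG, h1]; exact List.prefix_append _ _
    rw [← ((prefix_pre_iff G).1 h3).2]
    exact h2

/-- The list with a given code. -/
def dl (e : ℕ) : List ℕ := (decode (α := List ℕ) e).getD []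

theorem dl_encode (l : List ℕ) : dl (encode l) = l := by
  simp [dl]

theorem computable_dl : Computable dl := by
  have h : Primrec dl := Primrec.option_getD.comp Primrec.decode (Primrec.const [])
  exact h.to_comp

/-- A list giving the same values as `l`, except that `i` is sent to `d`; long enough for the
formula with code `cd`. The list `q` is `((cd, i), (d, l))`. -/
def pad (q : (ℕ × ℕ) × (ℕ × List ℕ)) : List ℕ :=
  (List.range (q.1.1 + 1)).map fun j => if decide (j = q.1.2) = true then q.2.1 else fn q.2.2 j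

theorem computable_pad : Computable pad := by
  refine comp_list_map (f := fun q : (ℕ × ℕ) × (ℕ × List ℕ) => List.range (q.1.1 + 1))
    (g := fun (q : (ℕ × ℕ) × (ℕ × List ℕ)) j =>
      if decide (j = q.1.2) = true then q.2.1 else fn q.2.2 j)
    (comp_range (Computable.succ.comp (Computable.fst.comp Computable.fst))) ?_
  refine comp_ite (comp_decEq Computable.snd (Computable.snd.comp (Computable.fst.comp
    Computable.fst))) ?_ ?_
  · exact Computable.fst.comp (Computable.snd.comp Computable.fst)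
  · exact Computable.fn' (Computable.snd.comp (Computable.snd.comp Computable.fst)) Computable.snd

theorem fn_pad {cd i d : ℕ} {l : List ℕ} {j : ℕ} (h : j ≤ cd) :
    fn (pad ((cd, i), (d, l))) j = Function.update (fn l) i d j := by
  simp only [pad]
  rw [fn_map_range (Nat.lt_succ_of_le h)]
  by_cases hj : j = i
  · subst hj; simp
  · simp [hj]

/-- The list giving the same values as `l`, long enough for the formula with code `cd`. -/
def pad0 (q : ℕ × List ℕ) : List ℕ := (List.range (q.1 + 1)).map fun j => fn q.2 j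

theorem computable_pad0 : Computable pad0 := by
  refine comp_list_map (f := fun q : ℕ × List ℕ => List.range (q.1 + 1))
    (g := fun (q : ℕ × List ℕ) j => fn q.2 j)
    (comp_range (Computable.succ.comp Computable.fst)) ?_
  exact Computable.fn' (Computable.snd.comp Computable.fst) Computable.snd

/-- Refutation of satisfiability on codes: `q = ((σ, cd), l)`. -/
def NfC (A : Str) (q : (List Bool × ℕ) × List ℕ) : Prop :=
  Nat.pair (nfC (((th A q.1.1).code, Nat.pair 2 q.1.2), q.2)) (encode ([] : List ℕ)) ∉ ED A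

theorem nfC_frc {A : Str} {σ : List Bool} {φ : Fml} {l : List ℕ} (hφ : ∀ i ∈ φ.fv, i < l.length) :
    NfC A ((σ, φ.code), l) ↔ Frc A (th A σ) φ (fn l) := (frc_iff hφ).symm

theorem sg_NfC {Z : ℕ → Bool} {A : Str} (hZ : Ar Z (bo (ED A))) : Sg Z (NfC A) := by
  have hE := (ar_bo_iff.1 hZ).2
  have h1 : Cp Z (fun q : (List Bool × ℕ) × List ℕ => ((th A q.1.1).code, q)) :=
    ((cp_th hZ).comp (Cp.of_computable (Computable.fst.comp Computable.fst))).pair
      (Cp.of_computable Computable.id)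
  have h2 : Computable (fun z : ℕ × ((List Bool × ℕ) × List ℕ) =>
      Nat.pair (nfC ((z.1, Nat.pair 2 z.2.1.2), z.2.2)) (encode ([] : List ℕ))) := by
    refine comp_natpair (computable_nfC.comp ?_) (Computable.const _)
    exact (Computable.fst.pair (comp_natpair (Computable.const 2)
      (Computable.snd.comp (Computable.fst.comp Computable.snd)))).pair
      (Computable.snd.comp Computable.snd)
  have h3 : Sg Z (fun z : ℕ × ((List Bool × ℕ) × List ℕ) =>
      Nat.pair (nfC ((z.1, Nat.pair 2 z.2.1.2), z.2.2)) (encode ([] : List ℕ)) ∉ ED A) :=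
    Sg.comp (P := fun n => n ∉ ED A) hE h2
  exact Sg.subst (P := fun z : ℕ × ((List Bool × ℕ) × List ℕ) =>
      Nat.pair (nfC ((z.1, Nat.pair 2 z.2.1.2), z.2.2)) (encode ([] : List ℕ)) ∉ ED A)
      (f := fun q : (List Bool × ℕ) × List ℕ => ((th A q.1.1).code, q)) h3 h1

/-- The Henkin condition on codes: `q = (((cd, i), l), σ)`. -/
def HenC (A : Str) (q : ((ℕ × ℕ) × List ℕ) × List Bool) : Prop :=
  ¬ Wf q.1.1.1 (q.1.1.1 + 1) ∨
  NfC A ((q.2, Nat.pair 2 (Nat.pair 4 (Nat.pair q.1.1.2 q.1.1.1))), pad0 (q.1.1.1, q.1.2)) ∨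
  ∃ d : ℕ, NfC A ((q.2, q.1.1.1), pad ((q.1.1.1, q.1.1.2), (d, q.1.2)))

theorem sg_HenC {Z : ℕ → Bool} {A : Str} (hZ : Ar Z (bo (ED A))) : Sg Z (HenC A) := by
  have hE := ar_bo_iff.1 hZ
  have hcd : Computable (fun q : ((ℕ × ℕ) × List ℕ) × List Bool => q.1.1.1) :=
    Computable.fst.comp (Computable.fst.comp Computable.fst)
  have hi : Computable (fun q : ((ℕ × ℕ) × List ℕ) × List Bool => q.1.1.2) :=
    Computable.snd.comp (Computable.fst.comp Computable.fst)
  have hl : Computable (fun q : ((ℕ × ℕ) × List ℕ) × List Bool => q.1.2) :=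
    Computable.snd.comp Computable.fst
  refine Sg.or ?_ (Sg.or ?_ ?_)
  · exact Sg.comp (P := fun p : ℕ × ℕ => ¬ Wf p.1 p.2) (sg_not_wf hE.1 hE.2)
      (f := fun q : ((ℕ × ℕ) × List ℕ) × List Bool => (q.1.1.1, q.1.1.1 + 1))
      (hcd.pair (Computable.succ.comp hcd))
  · refine Sg.comp (P := NfC A) (sg_NfC hZ) (f := fun q : ((ℕ × ℕ) × List ℕ) × List Bool =>
      ((q.2, Nat.pair 2 (Nat.pair 4 (Nat.pair q.1.1.2 q.1.1.1))), pad0 (q.1.1.1, q.1.2))) ?_
    exact (Computable.snd.pair (comp_natpair (Computable.const 2) (comp_natpair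
      (Computable.const 4) (comp_natpair hi hcd)))).pair (computable_pad0.comp (hcd.pair hl))
  · refine Sg.ex (Q := fun (q : ((ℕ × ℕ) × List ℕ) × List Bool) (d : ℕ) =>
      NfC A ((q.2, q.1.1.1), pad ((q.1.1.1, q.1.1.2), (d, q.1.2)))) ?_
    refine Sg.comp (P := NfC A) (sg_NfC hZ)
      (f := fun p : (((ℕ × ℕ) × List ℕ) × List Bool) × ℕ =>
      ((p.1.2, p.1.1.1.1), pad ((p.1.1.1.1, p.1.1.1.2), (p.2, p.1.1.2)))) ?_
    exact ((Computable.snd.comp Computable.fst).pair (hcd.comp Computable.fst)).pair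
      (computable_pad.comp (((hcd.comp Computable.fst).pair (hi.comp Computable.fst)).pair
      (Computable.snd.pair (hl.comp Computable.fst))))

theorem henC_iff {A : Str} {φ : Fml} {i : ℕ} {l : List ℕ} {σ : List Bool} :
    HenC A (((φ.code, i), l), σ) ↔ σ ∈ HenS A φ i l := by
  have h1 : Wf φ.code (φ.code + 1) :=
    ⟨φ, rfl, fun i hi => Nat.lt_succ_of_le (fv_le_code φ i hi)⟩
  have h2 : NfC A ((σ, Nat.pair 2 (Nat.pair 4 (Nat.pair i φ.code))), pad0 (φ.code, l)) ↔
      Frc A (th A σ) (.neg (.ex i φ)) (fn l) := by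
    rw [show Nat.pair 2 (Nat.pair 4 (Nat.pair i φ.code)) = (Fml.neg (.ex i φ)).code from rfl,
      nfC_frc]
    · refine frc_congr fun j hj => ?_
      simp only [Fml.fv, Finset.mem_erase] at hj
      exact fn_map_range (Nat.lt_succ_of_le (fv_le_code φ j hj.2))
    · intro j hj
      simp only [Fml.fv, Finset.mem_erase] at hj
      have := fv_le_code φ j hj.2
      simp only [pad0, List.length_map, List.length_range]
      omega
  have h3 : ∀ d, NfC A ((σ, φ.code), pad ((φ.code, i), (d, l))) ↔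
      Frc A (th A σ) φ (Function.update (fn l) i d) := by
    intro d
    rw [nfC_frc]
    · exact frc_congr fun j hj => fn_pad (fv_le_code φ j hj)
    · intro j hj
      have := fv_le_code φ j hj
      simp only [pad, List.length_map, List.length_range]
      omega
  simp only [HenC, HenS, Set.mem_ofPred_eq, h1, not_true_eq_false, false_or, h2, h3]

/-- The omitting condition on codes: `q = (l', σ)`. -/
def OmC (A : Str) (l : List ℕ) (q : List ℕ × List Bool) : Prop :=
  q.1.length ≠ l.length ∨ ∃ cd : ℕ, Nat.pair cd (encode l) ∈ ED A ∧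
    NfC A ((q.2, Nat.pair 2 cd), q.1)

theorem sg_OmC {Z : ℕ → Bool} {A : Str} (hZ : Ar Z (bo (ED A))) (l : List ℕ) :
    Sg Z (OmC A l) := by
  have hE := ar_bo_iff.1 hZ
  refine Sg.or (Sg.ne_comp (Computable.list_length.comp Computable.fst) (Computable.const _)) ?_
  refine Sg.ex (Q := fun (q : List ℕ × List Bool) (cd : ℕ) => Nat.pair cd (encode l) ∈ ED A ∧
    NfC A ((q.2, Nat.pair 2 cd), q.1)) (Sg.and ?_ ?_)
  · exact Sg.comp (P := fun n => n ∈ ED A) hE.1
      (comp_natpair Computable.snd (Computable.const _))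
  · refine Sg.comp (P := NfC A) (sg_NfC hZ) (f := fun p : (List ℕ × List Bool) × ℕ =>
      ((p.1.2, Nat.pair 2 p.2), p.1.1)) ?_
    exact ((Computable.snd.comp Computable.fst).pair (comp_natpair (Computable.const 2)
      Computable.snd)).pair (Computable.fst.comp Computable.fst)

/-- The type of the tuple `l` is isolated. -/
def Isol (A : Str) (l : List ℕ) : Prop :=
  ∃ θ : Fml, (∀ i ∈ θ.fv, i < l.length) ∧ Sat A θ (fn l) ∧
    ∀ φ : Fml, (∀ i ∈ φ.fv, i < l.length) → Sat A φ (fn l) →
      ∀ w : ℕ → ℕ, (∀ i, w i ∈ A.dom) → Sat A θ w → Sat A φ w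

theorem omC_dense {A : Str} {l : List ℕ} (hl : ∀ a ∈ l, a ∈ A.dom) (hI : ¬ Isol A l)
    (l' : List ℕ) (σ : List Bool) : ∃ τ, σ <+: τ ∧ OmC A l (l', τ) := by
  by_cases hlen : l'.length = l.length
  · by_contra hno
    have hno' : ∀ τ, σ <+: τ → ∀ φ : Fml, (∀ i ∈ φ.fv, i < l.length) → Sat A φ (fn l) →
        ¬ Frc A (th A τ) (.neg φ) (fn l') := by
      intro τ hτ φ hφ hs hf
      refine hno ⟨τ, hτ, Or.inr ⟨φ.code, mem_ED.2 ⟨hφ, hl, hs⟩, ?_⟩⟩
      exact (nfC_frc (φ := .neg φ) (by
        intro i hi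
        have := hφ i hi
        rw [← hlen] at this
        exact this)).2 hf
    have hiso : ∀ φ : Fml, (∀ i ∈ φ.fv, i < l.length) → Sat A φ (fn l) →
        Frc A (th A σ) φ (fn l') := by
      intro φ hφ hs
      by_contra hc
      simp only [Frc, not_forall] at hc
      obtain ⟨w, hw, hws, hwφ⟩ := hc
      obtain ⟨χ, _, h5⟩ := exists_subst (.neg φ) (fn l')
      have h6 : Sbl A (.and (th A σ) χ) := ⟨w, hw, hws, (h5 A w).2 hwφ⟩
      obtain ⟨τ, h7, h8⟩ := th_ext σ h6
      refine hno' τ h7 φ hφ hs ?_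
      intro w' _ hs'
      rw [h8] at hs'
      exact (h5 A w').1 hs'.2
    obtain ⟨ψ, h5, h6⟩ := exists_proj (th A σ) l'
    obtain ⟨a0, ha0⟩ := A.nonempty
    refine hI ⟨ψ, fun i hi => by have := h5 i hi; omega, ?_, ?_⟩
    · by_contra h8
      have h9 := hiso (.neg ψ) (fun i hi => by
        have := h5 i hi
        omega) h8
      obtain ⟨w, hw, hws⟩ := th_sbl (A := A) σ
      refine h9 w hw hws ?_
      rw [h6 A _ (fun i => hw _)]
      exact ⟨w, hw, hws, fun i _ => rfl⟩
    · intro φ hφ hs w hw hψ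
      rw [h6 A w hw] at hψ
      obtain ⟨w', h7, h8, h9⟩ := hψ
      refine (sat_congr A φ fun i hi => ?_).1 (hiso φ hφ hs w' h7 h8)
      exact h9 i (by have := hφ i hi; omega)
  · exact ⟨σ, List.prefix_rfl, Or.inl hlen⟩

/-- In every Turing ideal, prime structures are atomic. -/
theorem isol_of_prime {I : Set (Set ℕ)} (hI : TuringIdeal I) {A : Str} (hA : ED A ∈ I)
    (hP : PrimeIn I A) (l : List ℕ) (hl : ∀ a ∈ l, a ∈ A.dom) : Isol A l := by
  by_contra hno
  have hZ : Ar (bo (ED A)) (bo (ED A)) := Ar.refl _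
  let D : ℕ → List Bool → Prop := fun n σ =>
    (n % 2 = 0 ∧ HenC A ((((n / 2).unpair.1, (n / 2).unpair.2.unpair.1),
      dl (n / 2).unpair.2.unpair.2), σ)) ∨ (n % 2 = 1 ∧ OmC A l (dl (n / 2), σ))
  have hD : Sg (bo (ED A)) (fun p : ℕ × List Bool => D p.1 p.2) := by
    have hm : Computable (fun p : ℕ × List Bool => p.1 % 2) :=
      (Primrec.nat_mod.to_comp).comp Computable.fst (Computable.const 2)
    have hd : Computable (fun p : ℕ × List Bool => p.1 / 2) :=
      (Primrec.nat_div.to_comp).comp Computable.fst (Computable.const 2)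
    have hu : Computable (fun p : ℕ × List Bool => (p.1 / 2).unpair) :=
      Primrec.unpair.to_comp.comp hd
    have hu2 : Computable (fun p : ℕ × List Bool => (p.1 / 2).unpair.2.unpair) :=
      Primrec.unpair.to_comp.comp (Computable.snd.comp hu)
    refine Sg.or (Sg.and (Sg.eq_comp hm (Computable.const 0)) ?_)
      (Sg.and (Sg.eq_comp hm (Computable.const 1)) ?_)
    · refine Sg.comp (P := HenC A) (sg_HenC hZ) (f := fun p : ℕ × List Bool =>
        ((((p.1 / 2).unpair.1, (p.1 / 2).unpair.2.unpair.1),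
        dl (p.1 / 2).unpair.2.unpair.2), p.2)) ?_
      exact (((Computable.fst.comp hu).pair (Computable.fst.comp hu2)).pair
        (computable_dl.comp (Computable.snd.comp hu2))).pair Computable.snd
    · exact Sg.comp (P := OmC A l) (sg_OmC hZ l) (f := fun p : ℕ × List Bool =>
        (dl (p.1 / 2), p.2)) ((computable_dl.comp hd).pair Computable.snd)
  obtain ⟨G, hG, hGD⟩ := exists_eff_generic hD (by
    intro n σ
    rcases Nat.mod_two_eq_zero_or_one n with hn | hn
    · by_cases hw : Wf (n / 2).unpair.1 ((n / 2).unpair.1 + 1)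
      · obtain ⟨φ, h1, _⟩ := id hw
        obtain ⟨τ, h2, h3⟩ := henS_dense (A := A) φ (n / 2).unpair.2.unpair.1
          (dl (n / 2).unpair.2.unpair.2) σ
        refine ⟨τ, h2, Or.inl ⟨hn, ?_⟩⟩
        rw [h1]
        exact henC_iff.2 h3
      · exact ⟨σ, List.prefix_rfl, Or.inl ⟨hn, Or.inl hw⟩⟩
    · obtain ⟨τ, h2, h3⟩ := omC_dense hl hno (dl (n / 2)) σ
      exact ⟨τ, h2, Or.inr ⟨hn, h3⟩⟩)
  have hθ : HSeq A (fun k => th A (pre G k)) := by
    refine hseq_of_dec fun φ i l => Or.inl ?_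
    obtain ⟨k, hk⟩ := hGD (2 * Nat.pair φ.code (Nat.pair i (encode l)))
    rcases hk with ⟨_, hk⟩ | ⟨hk, _⟩
    · rw [show 2 * Nat.pair φ.code (Nat.pair i (encode l)) / 2 =
        Nat.pair φ.code (Nat.pair i (encode l)) by omega] at hk
      simp only [Nat.unpair_pair, dl_encode] at hk
      exact ⟨k, henC_iff.1 hk⟩
    · omega
  have hM := hθ.ed hZ (cp_th_pre hZ hG)
  obtain ⟨f, _, hf⟩ := hP _ (hI.down _ hA _ (red_iff.2 hM)) hθ.equiv
  obtain ⟨k, hk⟩ := hGD (2 * encode (l.map f) + 1)
  rcases hk with ⟨hk, _⟩ | ⟨_, hk⟩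
  · omega
  rw [show (2 * encode (l.map f) + 1) / 2 = encode (l.map f) by omega, dl_encode] at hk
  rcases hk with hk | ⟨cd, h1, h2⟩
  · simp at hk
  · obtain ⟨φ, l1, h3, h4, _, h6⟩ := h1
    rw [Nat.pair_eq_pair] at h3
    obtain ⟨h7, h8⟩ := h3
    have h8 := encode_injective h8
    subst h7 h8
    simp only at h2
    rw [show Nat.pair 2 φ.code = (Fml.neg φ).code from rfl,
      nfC_frc (φ := .neg φ) (by intro i hi; rw [List.length_map]; exact h4 i hi)] at h2
    obtain ⟨a0, ha0⟩ := A.nonempty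
    have h9 : Sat A φ (asg l a0) := by
      refine (sat_congr A φ fun i hi => ?_).1 h6
      have hi' := h4 i hi
      simp only [asg]
      rw [List.getD_eq_getElem _ _ hi', List.getD_eq_getElem _ _ hi']
    rw [hf.2 φ _ (asg_mem hl ha0), hθ.truth φ _ fun i => hf.1 _ (asg_mem hl ha0 i)] at h9
    have h10 : Tr A (fun k => th A (pre G k)) φ (fn (l.map f)) := by
      refine (tr_congr fun i hi => ?_).1 h9
      have hi' := h4 i hi
      rw [fn_map_lt hi']
      simp only [asg, fn]
      rw [List.getD_eq_getElem _ _ hi', List.getD_eq_getElem _ _ hi']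
    exact hθ.consistent h10 ⟨k, h2⟩

/-- In an ideal with arithmetical comprehension, computably enumerable sets exist. -/
theorem aca_sg {I : Set (Set ℕ)} (hI : TuringIdeal I) (hA : ACA I) {P : ℕ → Prop}
    (hP : SgI I P) : {n | P n} ∈ I := by
  obtain ⟨Z, hZ, H, hH, hP⟩ := hP
  have h1 : {x : ℕ | H x.unpair.1 (pre (bo Z) x.unpair.2) = true} ∈ I := by
    have hc : Cp (bo Z) (fun x : ℕ => H x.unpair.1 (pre (bo Z) x.unpair.2)) := by
      have h2 : Cp (bo Z) (fun x : ℕ => (x.unpair.1, pre (bo Z) x.unpair.2)) :=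
        (Cp.of_computable (Computable.fst.comp Primrec.unpair.to_comp)).pair
          ((Cp.pre (bo Z)).comp (Cp.of_computable (Computable.snd.comp Primrec.unpair.to_comp)))
      exact (Cp.of_computable (f := fun p : ℕ × List Bool => H p.1 p.2) hH).comp h2
    refine mem_of_sgI hI ⟨Z, hZ, ?_⟩ ⟨Z, hZ, ?_⟩
    · exact Sg.comp (P := fun p : ℕ × Bool => H p.1.unpair.1 (pre (bo Z) p.1.unpair.2) = p.2)
        (f := fun x : ℕ => (x, true)) hc (Computable.id.pair (Computable.const true))
    · have h3 := Sg.comp (P := fun p : ℕ × Bool =>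
          H p.1.unpair.1 (pre (bo Z) p.1.unpair.2) = p.2)
        (f := fun x : ℕ => (x, false)) hc (Computable.id.pair (Computable.const false))
      refine h3.congr fun x => ?_
      simp
  have h2 := hA _ h1
  refine (congrArg (· ∈ I) (Set.ext fun n => ?_)).mp h2
  simp only [Set.mem_ofPred_eq, Nat.unpair_pair]
  exact (hP n).symm

/-- Prime structures of an ideal with arithmetical comprehension are effectively atomic. -/
theorem effAt_of_aca {I : Set (Set ℕ)} (hI : TuringIdeal I) (hACA : ACA I) {A : Str}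
    (hA : ED A ∈ I) (hP : PrimeIn I A) : ∃ Z ∈ I, EffAt (bo Z) A := by
  have hE := Sg.mem (ED A)
  have hE' := Sg.not_mem (ED A)
  -- the complement of the relation of being isolating is computably enumerable
  let NI : ℕ → Prop := fun x => ∃ cd : ℕ, Wf cd x.unpair.2 ∧
    Nat.pair (nfC ((x.unpair.1, cd), List.range x.unpair.2)) (encode ([] : List ℕ)) ∈ ED A ∧
    Nat.pair (nfC ((x.unpair.1, Nat.pair 2 cd), List.range x.unpair.2))
      (encode ([] : List ℕ)) ∈ ED A
  have hNI : SgI I NI := by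
    refine ⟨ED A, hA, ?_⟩
    have hu1 : Computable (fun p : ℕ × ℕ => p.1.unpair.1) :=
      Computable.fst.comp (Primrec.unpair.to_comp.comp Computable.fst)
    have hu2 : Computable (fun p : ℕ × ℕ => p.1.unpair.2) :=
      Computable.snd.comp (Primrec.unpair.to_comp.comp Computable.fst)
    refine Sg.ex (Q := fun (x cd : ℕ) => Wf cd x.unpair.2 ∧
      Nat.pair (nfC ((x.unpair.1, cd), List.range x.unpair.2)) (encode ([] : List ℕ)) ∈ ED A ∧
      Nat.pair (nfC ((x.unpair.1, Nat.pair 2 cd), List.range x.unpair.2))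
        (encode ([] : List ℕ)) ∈ ED A) (Sg.and ?_ (Sg.and ?_ ?_))
    · exact Sg.comp (P := fun p : ℕ × ℕ => Wf p.1 p.2) (sg_wf hE)
        (f := fun p : ℕ × ℕ => (p.2, p.1.unpair.2)) (Computable.snd.pair hu2)
    · exact Sg.comp (P := fun n => n ∈ ED A) hE (comp_natpair (computable_nfC.comp
        ((hu1.pair Computable.snd).pair (comp_range hu2))) (Computable.const _))
    · exact Sg.comp (P := fun n => n ∈ ED A) hE (comp_natpair (computable_nfC.comp
        ((hu1.pair (comp_natpair (Computable.const 2) Computable.snd)).pair (comp_range hu2)))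
        (Computable.const _))
  have hNI' : SgI I (fun x => ¬ NI x) := by
    refine (SgI.not_mem (aca_sg hI hACA hNI)).congr fun x => Iff.rfl
  have hAt : SgI I (fun q : (List ℕ × ℕ) × List ℕ => q.2 = List.range q.1.1.length ∧
      Nat.pair q.1.2 (encode q.1.1) ∈ ED A ∧ ¬ NI (Nat.pair q.1.2 q.1.1.length)) := by
    have hlen : Computable (fun q : (List ℕ × ℕ) × List ℕ => q.1.1.length) :=
      Computable.list_length.comp (Computable.fst.comp Computable.fst)
    have hcd : Computable (fun q : (List ℕ × ℕ) × List ℕ => q.1.2) :=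
      Computable.snd.comp Computable.fst
    refine SgI.and hI (SgI.eq_comp hI Computable.snd (comp_range hlen)) (SgI.and hI ?_ ?_)
    · exact ⟨ED A, hA, Sg.comp (P := fun n => n ∈ ED A) hE (comp_natpair hcd
        (Computable.encode.comp (Computable.fst.comp Computable.fst)))⟩
    · exact SgI.comp (P := fun x => ¬ NI x) hNI' (f := fun q : (List ℕ × ℕ) × List ℕ =>
        Nat.pair q.1.2 q.1.1.length) (comp_natpair hcd hlen)
  have hrange : ∀ (n : ℕ) (φ : Fml), (∀ i ∈ φ.fv, i < n) → ∀ w : ℕ → ℕ,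
      (Sat A φ (fun i => w (fn (List.range n) i)) ↔ Sat A φ w) := by
    intro n φ hφ w
    exact sat_congr A φ fun i hi => by rw [fn_range (hφ i hi)]
  have hnf : ∀ (θ φ : Fml) (n : ℕ), (∀ i ∈ φ.fv, i < n) →
      (Nat.pair (nfC ((θ.code, φ.code), List.range n)) (encode ([] : List ℕ)) ∈ ED A ↔
        ∃ w : ℕ → ℕ, (∀ i, w i ∈ A.dom) ∧ Sat A θ w ∧ Sat A φ w) := by
    intro θ φ n hφ
    rw [nfC_mem (by simpa using hφ)]
    exact exists_congr fun w => and_congr_right fun _ => and_congr_right fun _ => hrange n φ hφ w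
  obtain ⟨a0, ha0⟩ := A.nonempty
  have hasg : ∀ (l : List ℕ) (φ : Fml), (∀ i ∈ φ.fv, i < l.length) →
      (Sat A φ (asg l a0) ↔ Sat A φ (fn l)) := by
    intro l φ hφ
    refine sat_congr A φ fun i hi => ?_
    have hi' := hφ i hi
    simp only [asg, fn]
    rw [List.getD_eq_getElem _ _ hi', List.getD_eq_getElem _ _ hi']
  obtain ⟨Z, hZ, hAt⟩ := hAt
  refine ⟨Z, hZ, _, hAt, fun l hl => ?_, fun l cd l' hl hAt => ?_⟩
  · obtain ⟨θ, h1, h2, h3⟩ := isol_of_prime hI hA hP l hl
    refine ⟨θ.code, List.range l.length, rfl, mem_ED.2 ⟨h1, hl, h2⟩, ?_⟩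
    simp only [NI, Nat.unpair_pair]
    rintro ⟨cd, ⟨φ, rfl, hφ⟩, h4, h5⟩
    rw [hnf θ φ _ hφ] at h4
    rw [show Nat.pair 2 φ.code = (Fml.neg φ).code from rfl, hnf θ (.neg φ) _ hφ] at h5
    obtain ⟨w, hw, hw1, hw2⟩ := h4
    obtain ⟨w', hw', hw1', hw2'⟩ := h5
    by_cases hs : Sat A φ (fn l)
    · exact hw2' (h3 φ hφ hs w' hw' hw1')
    · exact h3 (.neg φ) hφ hs w hw hw1 hw2
  · obtain ⟨h1, h2, h3⟩ := hAt
    simp only at h1 h2 h3
    obtain ⟨θ, l1, h4, h5, _, h7⟩ := h2
    rw [Nat.pair_eq_pair] at h4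
    obtain ⟨h8, h9⟩ := h4
    have h9 := encode_injective h9
    subst h8 h9 h1
    have hθ : Sat A θ (asg l a0) := (hasg l θ h5).2 h7
    refine ⟨θ, rfl, by simp, ⟨asg l a0, asg_mem hl ha0, hθ, fun i hi => ?_⟩, fun φ hφ hs => ?_⟩
    · rw [fn_range hi]
      simp only [asg, fn]
      rw [List.getD_eq_getElem _ _ hi, List.getD_eq_getElem _ _ hi]
    · intro w hw hws
      rw [hrange _ φ hφ]
      by_contra hc
      refine h3 ?_
      simp only [NI, Nat.unpair_pair]
      refine ⟨φ.code, ⟨φ, rfl, hφ⟩, ?_, ?_⟩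
      · rw [hnf θ φ _ hφ]
        exact ⟨asg l a0, asg_mem hl ha0, hθ, (hasg l φ hφ).2 hs⟩
      · rw [show Nat.pair 2 φ.code = (Fml.neg φ).code from rfl, hnf θ (.neg φ) _ hφ]
        exact ⟨w, hw, hws, hc⟩

/-- Turing ideals satisfying arithmetical comprehension satisfy PMU. -/
theorem pmu_of_aca {I : Set (Set ℕ)} (hI : TuringIdeal I) (hACA : ACA I) : PMU I := by
  intro T _ hT A B hA hB hTA hTB hPA hPB
  obtain ⟨Z, hZ, hZA⟩ := effAt_of_aca hI hACA hA hPA
  obtain ⟨Z', hZ', hZB⟩ := effAt_of_aca hI hACA hB hPB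
  exact exists_iso hI hA hB (equiv_of_complete hT hTA hTB) hZ hZ' hZA hZB

end Pool.Agent.H24Q
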