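import Mathlib
import Pool.Agent.H24Q.Aca

/-!
For every set there is a set computable in it whose projection is not computable in it.
-/

set_option autoImplicit false

namespace Pool.Agent.H24Q

open Encodable Pool.Agent.H93PMU Pool.Agent.H24P Pool.Agent.H19

/-- The halting set relative to `Z`. -/
def KZ (Z : ℕ → Bool) : Set ℕ :=
  {n | ∃ k s : ℕ, Nat.Partrec.Code.evaln k (Denumerable.ofNat Nat.Partrec.Code n)
    (encode (n, pre Z s)) = some 1}

theorem sg_KZ (Z : ℕ → Bool) : Sg Z (fun n => n ∈ KZ Z) := by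
  have h1 : Sg Z (fun p : ℕ × ℕ => ∃ s, decide (Nat.Partrec.Code.evaln p.2
      (Denumerable.ofNat Nat.Partrec.Code p.1) (encode (p.1, pre Z s)) = some 1) = true) := by
    refine ⟨fun p σ => decide (Nat.Partrec.Code.evaln p.2
      (Denumerable.ofNat Nat.Partrec.Code p.1) (encode (p.1, σ)) = some 1), ?_,
      fun p => Iff.rfl⟩
    refine comp_decEq ?_ (Computable.const _)
    refine (Nat.Partrec.Code.primrec_evaln.to_comp).comp
      (Computable.pair (Computable.pair (Computable.snd.comp Computable.fst) ?_) ?_)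
    · exact (Primrec.ofNat Nat.Partrec.Code).to_comp.comp (Computable.fst.comp Computable.fst)
    · exact Computable.encode.comp (Computable.pair (Computable.fst.comp Computable.fst)
        Computable.snd)
  refine (Sg.ex (Q := fun (n k : ℕ) => ∃ s, decide (Nat.Partrec.Code.evaln k
      (Denumerable.ofNat Nat.Partrec.Code n) (encode (n, pre Z s)) = some 1) = true)
      h1).congr fun n => ?_
  simp only [decide_eq_true_eq, KZ, Set.mem_ofPred_eq]

theorem not_ar_KZ (Z : ℕ → Bool) : ¬ Ar Z (bo (KZ Z)) := by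
  intro h
  obtain ⟨H, hH, h1⟩ := (ar_bo_iff.1 h).2
  have h2 : Computable (fun p : ℕ × List Bool => if H p.1 p.2 = true then 1 else 0) :=
    comp_ite hH (Computable.const 1) (Computable.const 0)
  obtain ⟨cd, hcd⟩ := exists_code_of_partrec₂ (F := fun (n : ℕ) (σ : List Bool) =>
    Part.some (if H n σ = true then 1 else 0)) h2.partrec
  have h3 : encode cd ∈ KZ Z ↔ encode cd ∉ KZ Z := by
    refine Iff.trans ?_ (h1 (encode cd)).symm
    simp only [KZ, Set.mem_ofPred_eq, Denumerable.ofNat_encode]
    constructor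
    · rintro ⟨k, s, hk⟩
      have h4 := Nat.Partrec.Code.evaln_sound (Option.mem_def.2 hk)
      rw [hcd] at h4
      refine ⟨s, ?_⟩
      by_contra hc
      simp [hc] at h4
    · rintro ⟨s, hs⟩
      have h4 : 1 ∈ cd.eval (encode (encode cd, pre Z s)) := by
        rw [hcd]; simp [hs]
      obtain ⟨k, hk⟩ := Nat.Partrec.Code.evaln_complete.1 h4
      exact ⟨k, s, Option.mem_def.1 hk⟩
  tauto

/-- Computably enumerable relations are projections of computable ones. -/
theorem Sg.exists_proj {Z : ℕ → Bool} {P : ℕ → Prop} (h : Sg Z P) :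
    ∃ V : Set ℕ, Ar Z (bo V) ∧ ∀ n, (∃ m, Nat.pair n m ∈ V) ↔ P n := by
  obtain ⟨H, hH, hP⟩ := h
  refine ⟨{x : ℕ | H x.unpair.1 (pre Z x.unpair.2) = true}, ?_, fun n => ?_⟩
  · have hc : Cp Z (fun x : ℕ => H x.unpair.1 (pre Z x.unpair.2)) := by
      have h2 : Cp Z (fun x : ℕ => (x.unpair.1, pre Z x.unpair.2)) :=
        (Cp.of_computable (Computable.fst.comp Primrec.unpair.to_comp)).pair
          ((Cp.pre Z).comp (Cp.of_computable (Computable.snd.comp Primrec.unpair.to_comp)))
      exact (Cp.of_computable (f := fun p : ℕ × List Bool => H p.1 p.2) hH).comp h2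
    rw [ar_bo_iff]
    constructor
    · exact Sg.comp (P := fun p : ℕ × Bool => H p.1.unpair.1 (pre Z p.1.unpair.2) = p.2)
        (f := fun x : ℕ => (x, true)) hc (Computable.id.pair (Computable.const true))
    · have h3 := Sg.comp (P := fun p : ℕ × Bool =>
          H p.1.unpair.1 (pre Z p.1.unpair.2) = p.2)
        (f := fun x : ℕ => (x, false)) hc (Computable.id.pair (Computable.const false))
      refine h3.congr fun x => ?_
      simp
  · simp only [Set.mem_ofPred_eq, Nat.unpair_pair]
    exact (hP n).symm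

/-- For every set `X` there is a set computable in `X` whose projection is not. -/
theorem exists_proj_not_le (X : Set ℕ) : ∃ V : Set ℕ, TuringReducible (chr V) (chr X) ∧
    ¬ TuringReducible (chr {n | ∃ m, Nat.pair n m ∈ V}) (chr X) := by
  obtain ⟨V, h1, h2⟩ := Sg.exists_proj (sg_KZ (bo X))
  refine ⟨V, red_iff.2 h1, fun h => not_ar_KZ (bo X) ?_⟩
  have h3 : {n | ∃ m, Nat.pair n m ∈ V} = KZ (bo X) := Set.ext h2
  rw [h3] at h
  exact red_iff.1 h

end Pool.Agent.H24Q
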