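import Mathlib
import Pool.Agent.H24Q.Jump

/-!
Turing ideals satisfying arithmetical comprehension satisfy weak Koenig's lemma.
-/

set_option autoImplicit false

namespace Pool.Agent.H24Q

open Encodable Pool.Agent.H93PMU Pool.Agent.H24P Pool.Agent.H19

/-- All binary strings of length `n`. -/
def strs (n : ℕ) : List (List Bool) :=
  Nat.rec [[]] (fun _ L => L.flatMap fun σ => [σ ++ [false], σ ++ [true]]) n

theorem strs_succ (n : ℕ) :
    strs (n + 1) = (strs n).flatMap fun σ => [σ ++ [false], σ ++ [true]] := rfl

theorem mem_strs {n : ℕ} : ∀ {σ : List Bool}, σ ∈ strs n ↔ σ.length = n := by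
  induction n with
  | zero => intro σ; simp [strs]
  | succ n ih =>
    intro σ
    rw [strs_succ, List.mem_flatMap]
    constructor
    · rintro ⟨τ, h1, h2⟩
      rw [ih] at h1
      simp only [List.mem_cons, List.not_mem_nil, or_false] at h2
      rcases h2 with rfl | rfl <;> simp [h1]
    · intro h
      induction σ using List.reverseRecOn with
      | nil => simp at h
      | append_singleton τ b _ =>
        simp only [List.length_append, List.length_singleton] at h
        refine ⟨τ, ih.2 (by omega), ?_⟩
        cases b <;> simp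

theorem computable_strs : Computable strs := by
  refine Computable.nat_rec (f := fun n : ℕ => n) (g := fun _ : ℕ => [[]])
    (h := fun (_ : ℕ) (p : ℕ × List (List Bool)) =>
      p.2.flatMap fun σ => [σ ++ [false], σ ++ [true]]) Computable.id (Computable.const _) ?_
  refine comp_list_flatMap (f := fun p : ℕ × (ℕ × List (List Bool)) => p.2.2)
    (g := fun (_ : ℕ × (ℕ × List (List Bool))) (σ : List Bool) => [σ ++ [false], σ ++ [true]])
    (Computable.snd.comp Computable.snd) ?_
  have h : ∀ b : Bool, Computable (fun p : (ℕ × (ℕ × List (List Bool))) × List Bool =>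
      p.2 ++ [b]) := fun b => Computable.list_append.comp Computable.snd (Computable.const _)
  exact Computable.list_cons.comp (h false) (Computable.list_cons.comp (h true)
    (Computable.const []))

theorem wkl_of_aca {I : Set (Set ℕ)} (hI : TuringIdeal I) (hACA : ACA I) : WKL I := by
  intro S hS hclosed hinf
  let NE : List Bool → Prop := fun σ => ∃ n, ∀ τ ∈ strs n, encode (σ ++ τ) ∉ S
  have hNE : SgI I NE := by
    refine ⟨S, hS, ?_⟩
    refine Sg.ex (Q := fun (σ : List Bool) (n : ℕ) => ∀ τ ∈ strs n, encode (σ ++ τ) ∉ S) ?_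
    refine Sg.ball (Q := fun (p : List Bool × ℕ) (τ : List Bool) => encode (p.1 ++ τ) ∉ S) ?_
      (computable_strs.comp Computable.snd)
    exact Sg.comp (P := fun n => n ∉ S) (Sg.not_mem S)
      (f := fun p : (List Bool × ℕ) × List Bool => encode (p.1.1 ++ p.2))
      (Computable.encode.comp (Computable.list_append.comp (Computable.fst.comp Computable.fst)
      Computable.snd))
  have hNE' : SgI I (fun σ => ¬ NE σ) := by
    have h1 : SgI I (fun e : ℕ => ∃ σ : List Bool, encode σ = e ∧ NE σ) := by
      refine SgI.ex (Q := fun (e : ℕ) (σ : List Bool) => encode σ = e ∧ NE σ) ?_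
      exact SgI.and hI (SgI.eq_comp hI (Computable.encode.comp Computable.snd) Computable.fst)
        (SgI.comp (P := NE) hNE Computable.snd)
    have h2 := aca_sg hI hACA h1
    refine (SgI.comp (P := fun e => e ∉ {e : ℕ | ∃ σ : List Bool, encode σ = e ∧ NE σ})
      (SgI.not_mem h2) (f := fun σ : List Bool => encode σ) Computable.encode).congr fun σ => ?_
    refine not_congr ⟨?_, fun h => ⟨σ, rfl, h⟩⟩
    rintro ⟨τ, h3, h4⟩
    rwa [encode_injective h3] at h4
  have hmono : ∀ σ n m, n ≤ m → (∀ τ ∈ strs n, encode (σ ++ τ) ∉ S) →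
      ∀ τ ∈ strs m, encode (σ ++ τ) ∉ S := by
    intro σ n m hnm h τ hτ hc
    rw [mem_strs] at hτ
    refine h (τ.take n) (mem_strs.2 (by rw [List.length_take]; omega)) ?_
    refine hclosed (σ ++ τ.take n) (τ.drop n) ?_
    rw [List.append_assoc, List.take_append_drop]
    exact hc
  have h0 : ¬ NE [] := by
    rintro ⟨n, hn⟩
    obtain ⟨σ, h1, h2⟩ := hinf n
    exact hn σ (mem_strs.2 h1) (by simpa using h2)
  have hstep : ∀ σ, ¬ NE σ → ∃ b, ¬ NE (σ ++ [b]) := by
    intro σ hσ
    by_contra hc
    push Not at hc
    obtain ⟨n, hn⟩ := hc false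
    obtain ⟨m, hm⟩ := hc true
    refine hσ ⟨max n m + 1, fun τ hτ => ?_⟩
    rw [mem_strs] at hτ
    cases τ with
    | nil => simp at hτ
    | cons b τ =>
      have h1 : τ ∈ strs (max n m) := mem_strs.2 (by simpa using hτ)
      have h2 : σ ++ b :: τ = (σ ++ [b]) ++ τ := by simp
      rw [h2]
      cases b with
      | false => exact hmono _ _ _ (le_max_left n m) hn τ h1
      | true => exact hmono _ _ _ (le_max_right n m) hm τ h1
  have hR : SgI I (fun p : List Bool × List Bool => (∃ b, p.2 = p.1 ++ [b]) ∧ ¬ NE p.2) := by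
    refine SgI.and hI (SgI.ex (Q := fun (p : List Bool × List Bool) (b : Bool) =>
      p.2 = p.1 ++ [b]) (SgI.eq_comp hI (Computable.snd.comp Computable.fst)
      (Computable.list_append.comp (Computable.fst.comp Computable.fst)
      (Computable.list_cons.comp Computable.snd (Computable.const [])))))
      (SgI.comp (P := fun σ => ¬ NE σ) hNE' Computable.snd)
  obtain ⟨g, ⟨W, hW, hg⟩, hg0, hgR, hgG⟩ := SgI.exists_seq
    (R := fun x y : List Bool => (∃ b, y = x ++ [b]) ∧ ¬ NE y) hR (fun σ => ¬ NE σ) [] h0
    (by
      intro σ hσ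
      obtain ⟨b, hb⟩ := hstep σ hσ
      exact ⟨σ ++ [b], ⟨b, rfl⟩, hb⟩) (fun _ _ _ h => h.2)
  have hlen : ∀ n, (g n).length = n := by
    intro n
    induction n with
    | zero => rw [hg0]; rfl
    | succ n ih =>
      obtain ⟨⟨b, hb⟩, _⟩ := hgR n
      rw [hb, List.length_append, ih]; rfl
  have hpre : ∀ n k, n ≤ k → g n <+: g k := by
    intro n k h
    induction k, h using Nat.le_induction with
    | base => exact List.prefix_rfl
    | succ k _ ih =>
      obtain ⟨⟨b, hb⟩, _⟩ := hgR k
      rw [hb]; exact ih.trans (List.prefix_append _ _)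
  have hCp : Cp (bo W) (fun n => (g (n + 1)).getD n false) := by
    have h3 : Cp (bo W) (fun n => (g (n + 1), n)) :=
      (Cp.comp (f := g) hg (Cp.of_computable Computable.succ)).pair
        (Cp.of_computable Computable.id)
    have h4 : Computable (fun z : List Bool × ℕ => z.1.getD z.2 false) :=
      (Primrec.list_getD false).to_comp.comp Computable.fst Computable.snd
    exact (Cp.of_computable h4).comp h3
  refine ⟨{n | (g (n + 1)).getD n false = true}, ?_, fun n => ?_⟩
  · refine mem_of_sgI hI ⟨W, hW, ?_⟩ ⟨W, hW, ?_⟩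
    · exact Sg.comp (P := fun p : ℕ × Bool => (g (p.1 + 1)).getD p.1 false = p.2)
        (f := fun x : ℕ => (x, true)) hCp (Computable.id.pair (Computable.const true))
    · have h3 := Sg.comp (P := fun p : ℕ × Bool => (g (p.1 + 1)).getD p.1 false = p.2)
        (f := fun x : ℕ => (x, false)) hCp (Computable.id.pair (Computable.const false))
      refine h3.congr fun x => ?_
      simp
  · have h3 : ((List.range n).map fun i => decide (i ∈ {n | (g (n + 1)).getD n false = true})) =
        g n := by
      refine List.ext_getElem (by simp [hlen]) fun i hi1 hi2 => ?_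
      simp only [List.getElem_map, List.getElem_range, Set.mem_ofPred_eq]
      have hi : i < n := by rwa [hlen] at hi2
      obtain ⟨t, ht⟩ := hpre (i + 1) n hi
      have h5 : i < (g (i + 1)).length := by rw [hlen]; omega
      rw [List.getD_eq_getElem _ _ h5]
      simp only [← ht]
      rw [List.getElem_append_left h5]
      simp
    have h4 := hgG n
    simp only [NE, not_exists, not_forall, not_not] at h4
    obtain ⟨τ, h5, h6⟩ := h4 0
    have h7 : τ = [] := by
      rw [mem_strs] at h5
      exact List.length_eq_zero_iff.1 h5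
    rw [h7, List.append_nil] at h6
    refine (congrArg (fun l => encode l ∈ S) ?_).mpr h6
    rw [← h3]
    refine List.map_congr_left fun i _ => ?_
    congr

end Pool.Agent.H24Q
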